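import Pool.Agent.Lib.MP_a74260_al.CH

/-! Passing from additive characters to the set `s_S`. -/

namespace Pool.Agent.Lib.MP_a74260_al

open Filter Topology Set

/-- The family of sequences, written multiplicatively. -/
def toM (S : Set (ℕ → ℤ)) : Set (ℕ → Multiplicative ℤ) :=
  (fun u n => Multiplicative.ofAdd (u n)) '' S

theorem eq_chr (χ : ℤ →+ T) : chr (χ 1) = χ := by ext; simp

theorem ex_mem_iff {S : Set (ℕ → ℤ)} {χ : ℤ →+ T} :
    ex χ ∈ sSet (toM S) ↔ χ ∈ (P S).map chr := by
  have key : ∀ u : ℕ → ℤ, Tendsto (fun n => ex χ (Multiplicative.ofAdd (u n))) atTop (𝓝 1) ↔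
      Tendsto (fun n => u n • χ 1) atTop (𝓝 0) := fun u => by
    rw [← ee_zero]
    have : (fun n => ex χ (Multiplicative.ofAdd (u n))) = ee ∘ fun n => u n • χ 1 := by
      funext n
      show ee (χ (u n)) = ee (u n • χ 1)
      rw [← map_zsmul, smul_eq_mul, mul_one]
    rw [this]
    exact ee.isInducing.tendsto_nhds_iff.symm
  constructor
  · exact fun h => ⟨χ 1, fun u hu => (key u).1 (h _ ⟨u, hu, rfl⟩), eq_chr χ⟩
  · rintro ⟨x, hx, h⟩ _ ⟨u, hu, rfl⟩
    refine (key u).2 ?_
    rw [← h]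
    simpa using hx u hu

theorem tauB_eq (S : Set (ℕ → ℤ)) : tauB (toM S) =
    @instTopologicalSpaceMultiplicative ℤ (tau ((P S).map chr : Set (ℤ →+ T))) := by
  apply le_antisymm
  · letI := tauB (toM S)
    have h : Continuous fun (g : Multiplicative ℤ) (χ : ((P S).map chr : Set (ℤ →+ T))) =>
        χ.1 g.toAdd := continuous_pi fun χ => by
      have h1 : Continuous (ex χ.1) :=
        continuous_iff_le_induced.2 (iInf₂_le (ex χ.1) (ex_mem_iff.2 χ.2))
      exact (ee.symm.continuous.comp h1).congr fun g => by simp [ex]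
    exact continuous_iff_le_induced.1 h
  · refine le_iInf₂ fun χ hχ => ?_
    rw [← ex_lg χ] at hχ ⊢
    letI := tau ((P S).map chr : Set (ℤ →+ T))
    rw [← continuous_iff_le_induced]
    exact ee.continuous.comp ((cont_tau (ex_mem_iff.1 hχ)).comp continuous_toAdd)

end Pool.Agent.Lib.MP_a74260_al
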