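import Pool.Agent.Lib.MP_a74260_al.State

/-! Construction of a new null sequence together with small test elements. -/

namespace Pool.Agent.Lib.MP_a74260_al

open Filter Topology Set

theorem exists_seq {α : Type*} (Q : ∀ k, (Fin k → α) → α → Prop) (h : ∀ k p, ∃ a, Q k p a) :
    ∃ f : ℕ → α, ∀ k, Q k (fun i => f i) (f k) := by
  choose c hc using h
  let f : ℕ → α := WellFounded.fix (wellFounded_lt (α := ℕ)) fun k ih => c k fun i => ih i i.2
  refine ⟨f, fun k => ?_⟩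
  have : f k = c k fun i => f i := WellFounded.fix_eq _ _ _
  rw [this]; exact hc _ _

theorem countable_closure {A : Type} [AddCommGroup A] {s : Set A} (hs : s.Countable) :
    (AddSubgroup.closure s : Set A).Countable := by
  haveI := hs.to_subtype
  have h : Countable (Submodule.span ℤ (range (Subtype.val : s → A))) := inferInstance
  rw [Subtype.range_coe] at h
  rw [← Submodule.span_int_eq_addSubgroupClosure]
  exact h

theorem exists_subset_sum {ι : Type*} (t : ι → ℝ) (I : Finset ι) (h : ∀ k ∈ I, t k ≤ 1 / 4)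
    (hs : 1 / 4 < ∑ k ∈ I, t k) :
    ∃ I' ⊆ I, 1 / 4 < ∑ k ∈ I', t k ∧ ∑ k ∈ I', t k ≤ 1 / 2 := by
  classical
  induction I using Finset.induction_on with
  | empty => norm_num at hs
  | insert a I ha ih =>
    by_cases h' : 1 / 4 < ∑ k ∈ I, t k
    · obtain ⟨I', h1, h2⟩ := ih (fun k hk => h k (Finset.mem_insert_of_mem hk)) h'
      exact ⟨I', h1.trans (Finset.subset_insert _ _), h2⟩
    · refine ⟨_, Finset.Subset.rfl, hs, ?_⟩
      rw [Finset.sum_insert ha]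
      linarith [h a (Finset.mem_insert_self _ _)]

theorem sum_geom_le (I : Finset ℕ) (k₁ : ℕ) (h : ∀ k ∈ I, k₁ ≤ k) :
    ∑ k ∈ I, (1 / 2 : ℝ) ^ k ≤ 2 * (1 / 2) ^ k₁ := by
  have h1 : I ⊆ Finset.Ico k₁ (I.sup id + 1) := fun k hk =>
    Finset.mem_Ico.2 ⟨h k hk, Nat.lt_succ_of_le (Finset.le_sup (f := id) hk)⟩
  refine (Finset.sum_le_sum_of_subset_of_nonneg h1 fun _ _ _ => by positivity).trans ?_
  refine (geom_sum_Ico_le_of_lt_one (by norm_num) (by norm_num)).trans_eq ?_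
  ring

/-- The character of `ℤ` given by a point of the circle. -/
def chr : T →+ (ℤ →+ T) :=
  AddMonoidHom.mk' (fun x => zmultiplesHom T x) fun a b => by ext; simp

@[simp] theorem chr_apply (x : T) (g : ℤ) : chr x g = g • x := rfl

theorem chr_injective : Function.Injective chr := fun a b h => by
  simpa using congrArg (fun f : ℤ →+ T => f 1) h

theorem exists_big (Z : Finset T) {σ : ℝ} (hσ : 0 < σ) {χ : ℕ → T} (h2 : ∀ n, χ n ≠ 0)
    (h3 : Tendsto χ atTop (𝓝 0)) (N : ℕ) :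
    ∃ n ≥ N, ∃ g : ℤ, (∀ z ∈ Z, ‖g • z‖ < σ) ∧ 1 / 4 < ‖g • χ n‖ := by
  classical
  by_contra hcon
  push Not at hcon
  obtain ⟨Y, -, hY⟩ := exists_net (Z.image chr) (half_pos hσ) univ
  have h4 : ∀ᶠ n in atTop, ∀ y ∈ Y, ‖y • χ n‖ < 1 / 8 := by
    rw [Finset.eventually_all]
    intro y _
    have := (h3.const_smul y).norm
    exact this.eventually (gt_mem_nhds (by norm_num))
  obtain ⟨n, hn, hn'⟩ := ((eventually_ge_atTop N).and h4).exists
  refine h2 n (eq_zero_of_multiples fun k => ?_)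
  obtain ⟨y, hy, hs⟩ := hY k (mem_univ _)
  have h5 : ‖((k : ℤ) - y) • χ n‖ ≤ 1 / 4 / 2 ^ 1 := by
    refine norm_le_of_multiples le_rfl 1 _ fun i hi => ?_
    rw [← natCast_zsmul, smul_smul]
    refine hcon n hn _ fun z hz => ?_
    have h6 := hs _ (Finset.mem_image_of_mem chr hz)
    rw [chr_apply] at h6
    rw [mul_smul, natCast_zsmul]
    have h7 : (i : ℝ) ≤ 2 := by exact_mod_cast hi
    calc _ ≤ i * ‖((k : ℤ) - y) • z‖ := norm_nsmul_le
      _ ≤ 2 * ‖((k : ℤ) - y) • z‖ := by gcongr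
      _ < σ := by linarith
  have : k • χ n = ((k : ℤ) - y) • χ n + y • χ n := by rw [← add_smul]; simp
  rw [this]
  linarith [norm_add_le (((k : ℤ) - y) • χ n) (y • χ n), hn' y hy]

theorem countable_bad {B : Set T} (hB : B.Countable) :
    {x : T | ∃ m : ℤ, m ≠ 0 ∧ m • x ∈ B}.Countable := by
  have : {x : T | ∃ m : ℤ, m ≠ 0 ∧ m • x ∈ B} ⊆
      ⋃ m : ℤ, ⋃ b ∈ B, {x : T | m ≠ 0 ∧ m • x = b} := by
    rintro x ⟨m, hm, hb⟩
    exact mem_iUnion.2 ⟨m, mem_iUnion₂.2 ⟨_, hb, hm, rfl⟩⟩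
  refine (countable_iUnion fun m => hB.biUnion fun b _ => ?_).mono this
  rcases {x : T | m ≠ 0 ∧ m • x = b}.eq_empty_or_nonempty with h | ⟨x₀, hm, h₀⟩
  · rw [h]; exact countable_empty
  · have hf := AddCircle.finite_torsion_of_isSMulRegular_int (1 : ℝ) m
      (.of_right_eq_zero_of_smul fun _ => by simp [hm])
    refine (hf.image fun y => y + x₀).countable.mono ?_
    rintro x ⟨-, hx⟩
    exact ⟨x - x₀, by simp [smul_sub, hx, h₀], by simp⟩

theorem St.one_step (s : St) {χ : ℕ → T} (h1 : ∀ n, χ n ∈ P s.S) (h2 : ∀ n, χ n ≠ 0)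
    (h3 : ∀ F : Finset (ℕ → ℤ), ↑F ⊆ s.S → ∀ δ > 0, ∀ᶠ n in atTop, Sm F δ (χ n))
    (F : Finset (ℕ → ℤ)) (hF : ↑F ⊆ s.S) (U : Finset ℤ) (Z : Finset T) {σ a : ℝ} (hσ : 0 < σ)
    (ha : 0 < a) (N : ℕ) : ∃ d : ℕ × ℤ × T × ℝ, N ≤ d.1 ∧ 1 / 8 ≤ ‖d.2.1 • χ d.1‖ ∧
      (∀ z ∈ Z, ‖d.2.1 • z‖ ≤ σ) ∧ d.2.2.1 ∈ P s.S ∧ Sm F σ d.2.2.1 ∧
      (∀ v ∈ U, ‖v • d.2.2.1‖ ≤ σ) ∧ (d.2.2.2 : T) = d.2.1 • d.2.2.1 ∧ a / 2 ≤ d.2.2.2 ∧
      d.2.2.2 ≤ a := by
  classical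
  have h4 : Tendsto χ atTop (𝓝 0) := by
    rw [Metric.tendsto_nhds]
    intro ε hε
    filter_upwards [h3 {e0} (by simpa using s.one) _ (half_pos hε)] with n hn
    rw [dist_zero_right]
    exact (hn.norm_le (by simp)).trans_lt (half_lt_self hε)
  obtain ⟨n, hn, g₀, hg₀, hbig⟩ := exists_big Z (half_pos hσ) h2 h4 N
  let B := AddSubgroup.closure (insert (χ n) Z : Set T)
  have hB : (B : Set T).Countable := countable_closure (Z.countable_toSet.insert _)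
  have hM : 0 < 1 + ∑ v ∈ U, |(v : ℝ)| := by positivity
  obtain ⟨η, hη1, hη2, hη3⟩ := s.exists_avoid h1 h2 h3 (countable_bad hB) (insert e0 F)
    (by rw [Finset.coe_insert]; exact insert_subset s.one hF) (div_pos hσ hM)
  obtain ⟨g, hg1, hg2⟩ := kron_one (B.map chr) (chr η) (((3 * a / 4 : ℝ) : T) - g₀ • η)
    (fun m hm => by
      by_cases h0 : m = 0
      · simp [h0]
      · obtain ⟨b, hb, he⟩ := hm
        rw [← map_zsmul] at he
        exact absurd ⟨m, h0, chr_injective he ▸ hb⟩ hη3) ((insert (χ n) Z).image chr)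
    (by
      intro c hc
      obtain ⟨z, hz, rfl⟩ := Finset.mem_image.1 hc
      exact ⟨z, AddSubgroup.subset_closure (by simpa using hz), rfl⟩)
    (δ := min (σ / 2) (min (a / 4) (1 / 8))) (by positivity)
  simp only [lt_min_iff, Finset.forall_mem_image, chr_apply] at hg1 hg2
  obtain ⟨t, ht, ht', -⟩ := exists_rep (g • η - (((3 * a / 4 : ℝ) : T) - g₀ • η))
  have hle : σ / (1 + ∑ v ∈ U, |(v : ℝ)|) ≤ σ :=
    div_le_self hσ.le (le_add_of_nonneg_right (by positivity))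
  have ht2 := abs_lt.1 (ht'.trans_lt hg2.2.1)
  refine ⟨(n, g₀ + g, η, 3 * a / 4 + t), hn, ?_, fun z hz => ?_, hη1,
    hη2.mono (Finset.subset_insert _ _) hle, fun v hv => ?_, ?_, by linarith [ht2.1],
    by linarith [ht2.2]⟩
  · have := norm_sub_le ((g₀ + g) • χ n) (g • χ n)
    rw [← sub_smul, add_sub_cancel_right] at this
    linarith [(hg1 (Finset.mem_insert_self _ _)).2.2]
  · rw [add_smul]
    linarith [norm_add_le (g₀ • z) (g • z), hg₀ z hz, (hg1 (Finset.mem_insert_of_mem hz)).1]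
  · refine ((hη2.zsmul v).norm_le (Finset.mem_insert_self _ _)).trans ?_
    rw [mul_div_assoc', div_le_iff₀ hM, mul_comm]
    gcongr
    exact (Finset.single_le_sum (f := fun v : ℤ => |(v : ℝ)|) (fun _ _ => abs_nonneg _) hv).trans
      (le_add_of_nonneg_left zero_le_one)
  · rw [AddCircle.coe_add, ht, add_smul]; abel

/-- The data produced by the recursion. -/
structure Sys (s : St) (χ : ℕ → T) where
  F : ℕ → Finset (ℕ → ℤ)
  u : ℕ → ℤ
  η : ℕ → T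
  r : ℕ → ℝ
  hF : ∀ k, ↑(F k) ⊆ s.S
  mono : Monotone F
  one : ∀ k, e0 ∈ F k
  exh : ∀ F' : Finset (ℕ → ℤ), ↑F' ⊆ s.S → ∃ k, F' ⊆ F k
  big : ∃ᶠ n in atTop, ∃ k, 1 / 8 ≤ ‖u k • χ n‖
  nullH : ∀ x ∈ s.H, Tendsto (fun k => u k • x) atTop (𝓝 0)
  nullη : ∀ l, Tendsto (fun k => u k • η l) atTop (𝓝 0)
  hP : ∀ k, η k ∈ P s.S
  hsm : ∀ k, Sm (F k) ((1 / 2) ^ k / 2 ^ (k + 2)) (η k)
  cross : ∀ k m, m ≠ k → ‖u m • η k‖ ≤ (1 / 2) ^ k / 2 ^ (k + 2)
  hr : ∀ k, (r k : T) = u k • η k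
  r1 : ∀ k, (1 / 2) ^ k / 2 ≤ r k
  r2 : ∀ k, r k ≤ (1 / 2) ^ k

theorem St.exists_sys (s : St) {χ : ℕ → T} (h1 : ∀ n, χ n ∈ P s.S) (h2 : ∀ n, χ n ≠ 0)
    (h3 : ∀ F : Finset (ℕ → ℤ), ↑F ⊆ s.S → ∀ δ > 0, ∀ᶠ n in atTop, Sm F δ (χ n)) :
    Nonempty (Sys s χ) := by
  classical
  obtain ⟨E, hE⟩ := s.exists_enum
  obtain ⟨hs, hhs⟩ := s.hH.exists_eq_range ⟨0, s.H.zero_mem⟩
  let F : ℕ → Finset (ℕ → ℤ) := fun k => (Finset.range (k + 1)).image E.e
  have hF : ∀ k, ↑(F k) ⊆ s.S := fun k => by rw [← hE]; simp [F]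
  let sz : ℕ → ℝ := fun k => (1 / 2) ^ k / 2 ^ (k + 2)
  have hsz : Tendsto sz atTop (𝓝 0) :=
    (tendsto_pow_atTop_nhds_zero_of_lt_one (by norm_num) (by norm_num)).div_atTop
      ((tendsto_pow_atTop_atTop_of_one_lt one_lt_two).comp (tendsto_add_atTop_nat 2))
  obtain ⟨f, hf⟩ := exists_seq (α := ℕ × ℤ × T × ℝ) _ fun k p => s.one_step h1 h2 h3 (F k) (hF k)
    (Finset.univ.image fun i => (p i).2.1)
    ((Finset.univ.image fun i => (p i).2.2.1) ∪ (Finset.range k).image hs) (σ := sz k)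
    (a := (1 / 2) ^ k) (by positivity) (by positivity) k
  have hη : ∀ l k, l < k → ‖(f k).2.1 • (f l).2.2.1‖ ≤ sz k := fun l k h =>
    (hf k).2.2.1 _ (Finset.mem_union_left _ (Finset.mem_image.2 ⟨⟨l, h⟩, Finset.mem_univ _, rfl⟩))
  refine ⟨⟨F, fun k => (f k).2.1, fun k => (f k).2.2.1, fun k => (f k).2.2.2, hF, ?_, ?_, ?_, ?_,
    ?_, ?_, fun k => (hf k).2.2.2.1, fun k => (hf k).2.2.2.2.1, ?_, fun k => (hf k).2.2.2.2.2.2.1,
    fun k => (hf k).2.2.2.2.2.2.2.1, fun k => (hf k).2.2.2.2.2.2.2.2⟩⟩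
  · exact fun a b hab => Finset.image_subset_image (Finset.range_mono (by omega))
  · exact fun k => Finset.mem_image.2 ⟨0, by simp, E.h0⟩
  · intro F' hF'
    rw [← hE] at hF'
    have hF'' : ∀ v ∈ F', ∃ i, E.e i = v := fun v hv => hF' hv
    choose! i hi using hF''
    refine ⟨F'.sup i, fun v hv => Finset.mem_image.2 ⟨i v, ?_, hi v hv⟩⟩
    exact Finset.mem_range.2 (Nat.lt_succ_of_le (Finset.le_sup hv))
  · exact frequently_atTop.2 fun k => ⟨(f k).1, (hf k).1, k, (hf k).2.1⟩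
  · intro x hx
    obtain ⟨j, rfl⟩ : x ∈ range hs := hhs ▸ hx
    refine squeeze_zero_norm' (eventually_atTop.2 ⟨j + 1, fun k hk => ?_⟩) hsz
    exact (hf k).2.2.1 _ (Finset.mem_union_right _
      (Finset.mem_image_of_mem _ (Finset.mem_range.2 hk)))
  · exact fun l => squeeze_zero_norm' (eventually_atTop.2 ⟨l + 1, fun k hk => hη l k hk⟩) hsz
  · intro k m hm
    rcases hm.lt_or_gt with h | h
    · exact (hf k).2.2.2.2.2.1 _ (Finset.mem_image.2 ⟨⟨m, h⟩, Finset.mem_univ _, rfl⟩)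
    · refine (hη k m h).trans ?_
      refine div_le_div₀ (by positivity) (pow_le_pow_of_le_one (by norm_num) (by norm_num) h.le)
        (by positivity) (pow_le_pow_right₀ one_le_two (by omega))

end Pool.Agent.Lib.MP_a74260_al
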