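import Pool.Agent.Lib.MP_a74260_al.Step

/-! The recursion of length `ω₁`. -/

namespace Pool.Agent.Lib.MP_a74260_al

open Filter Topology Set

theorem exists_run {ι σ : Type*} (r : ι → ι → Prop) [IsWellOrder ι r]
    (hc : ∀ i, {j | r j i}.Countable) (le : σ → σ → Prop) (refl : ∀ a, le a a)
    (trans : ∀ a b c, le a b → le b c → le a c)
    (ub : ∀ c : Set σ, c.Countable → (∀ a ∈ c, ∀ b ∈ c, le a b ∨ le b a) → ∃ s, ∀ a ∈ c, le a s)
    (Done : ι → σ → Prop) (step : ∀ i s, ∃ s', le s s' ∧ Done i s') :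
    ∃ f : ι → σ, (∀ i j, le (f i) (f j) ∨ le (f j) (f i)) ∧ ∀ i, Done i (f i) := by
  classical
  obtain ⟨s₀, -⟩ := ub ∅ countable_empty (by simp)
  let c : ∀ i, (∀ j, r j i → σ) → σ := fun i p =>
    if h : ∃ s, (∀ j hj, le (p j hj) s) ∧ Done i s then h.choose else s₀
  let f : ι → σ := (IsWellFounded.wf (r := r)).fix c
  have hf : ∀ i, f i = c i fun j _ => f j := fun i => WellFounded.fix_eq _ _ _
  have tot : ∀ {A : ι → Prop}, (∀ i, A i → ∀ j, r j i → le (f j) (f i)) →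
      ∀ i j, A i → A j → le (f i) (f j) ∨ le (f j) (f i) := by
    intro A h i j hi hj
    rcases trichotomous_of r i j with h' | rfl | h'
    exacts [Or.inl (h j hj i h'), Or.inl (refl _), Or.inr (h i hi j h')]
  have key : ∀ i, (∀ j, r j i → le (f j) (f i)) ∧ Done i (f i) := by
    intro i
    induction i using (IsWellFounded.wf (r := r)).induction with
    | h i ih =>
      obtain ⟨s, hs⟩ := ub (f '' {j | r j i}) ((hc i).image f) (by
        rintro _ ⟨a, ha, rfl⟩ _ ⟨b, hb, rfl⟩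
        exact tot (A := fun j => r j i) (fun j hj => (ih j hj).1) a b ha hb)
      obtain ⟨s', h1, h2⟩ := step i s
      have h : ∃ s, (∀ j (_ : r j i), le (f j) s) ∧ Done i s :=
        ⟨s', fun j hj => trans _ _ _ (hs _ ⟨j, hj, rfl⟩) h1, h2⟩
      rw [hf i]
      simp only [c, dif_pos h]
      exact h.choose_spec
  exact ⟨f, fun i j => tot (A := fun _ => True) (fun i _ => (key i).1) i j trivial trivial,
    fun i => (key i).2⟩

def St.le (s s' : St) : Prop := s.H ≤ s'.H ∧ s.S ⊆ s'.S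

/-- The rational points of the circle. -/
noncomputable def Q : AddSubgroup T :=
  ((QuotientAddGroup.mk' (AddSubgroup.zmultiples (1 : ℝ))).comp (Rat.castHom ℝ : ℚ →+ ℝ)).range

theorem sm_e0 {F : Finset (ℕ → ℤ)} (hF : ↑F ⊆ ({e0} : Set (ℕ → ℤ))) {δ : ℝ} {x : T}
    (h : ‖x‖ ≤ δ) : Sm F δ x := fun u hu k => by
  obtain rfl : u = e0 := hF hu
  unfold e0; split_ifs
  · simpa using h
  · simpa using (norm_nonneg _).trans h

theorem Q_sep {g : ℤ} (hg : g ≠ 0) : ∃ x ∈ Q, g • x ≠ 0 := by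
  refine ⟨_, ⟨1 / (2 * g), rfl⟩, fun h => ?_⟩
  have h1 : g • (((1 / (2 * g) : ℚ) : ℝ) : T) = 0 := h
  have h2 : (g : ℝ) ≠ 0 := by exact_mod_cast hg
  rw [← AddCircle.coe_zsmul, zsmul_eq_mul] at h1
  have h3 : (g : ℝ) * ((1 / (2 * g) : ℚ) : ℝ) = 1 / 2 := by push_cast; field_simp
  have := norm_coe_of_le (r := 1 / 2) (by norm_num [abs_of_pos])
  rw [h3] at h1
  rw [h1] at this; norm_num at this

/-- The first approximation. -/
noncomputable def s0 : St where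
  H := Q
  S := {e0}
  hH := countable_range _
  hS := countable_singleton _
  one := rfl
  null := by
    rintro x - u rfl
    refine tendsto_const_nhds.congr' (eventually_atTop.2 ⟨1, fun k hk => ?_⟩)
    simp [e0, show k ≠ 0 by omega]
  dense := by
    intro x _ F hF δ hδ
    obtain ⟨r, rfl, -⟩ := exists_rep x
    obtain ⟨q, hq⟩ := exists_rat_near r hδ
    refine ⟨_, ⟨q, rfl⟩, sm_e0 hF ?_⟩
    change ‖(r : T) - ((q : ℝ) : T)‖ ≤ δ
    rw [← AddCircle.coe_sub]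
    exact (norm_coe_le _).trans hq.le
  dual := by
    intro φ hφ F hF δ hδ hs
    obtain ⟨f, hf⟩ := hφ.exists_hom
    obtain ⟨g, hg⟩ := mem_of_cont (AddSubgroup.zmultiples Q.subtype) f fun ε hε =>
      ⟨{Q.subtype}, by simp, ε * δ, by positivity, fun x hx => by
        have := hφ.lin hδ hs x.2 (t := ε * δ) (by positivity)
          (sm_e0 hF (hx Q.subtype (by simp)).le)
        rw [hf]
        refine this.trans_lt ?_
        rw [div_lt_iff₀ (by positivity)]; nlinarith [mul_pos hε hδ]⟩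
    exact ⟨g, fun x hx => by rw [← hf ⟨x, hx⟩, ← hg]; rfl⟩

theorem exists_finite_le {c : Set St} (hne : c.Nonempty)
    (hc : ∀ a ∈ c, ∀ b ∈ c, a.le b ∨ b.le a) (F : Finset (ℕ → ℤ)) (hF : ↑F ⊆ ⋃ a ∈ c, a.S) :
    ∃ a ∈ c, ↑F ⊆ a.S := by
  classical
  induction F using Finset.induction_on with
  | empty => exact hne.imp fun a ha => ⟨ha, by simp⟩
  | insert u F _ ih =>
    rw [Finset.coe_insert, insert_subset_iff] at hF
    obtain ⟨a, ha, h⟩ := ih hF.2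
    obtain ⟨b, hb, h'⟩ := mem_iUnion₂.1 hF.1
    rw [Finset.coe_insert]
    rcases hc a ha b hb with h1 | h1
    · exact ⟨b, hb, insert_subset h' (h.trans h1.2)⟩
    · exact ⟨a, ha, insert_subset (h1.2 h') h⟩

theorem chain_null {c : Set St} (hc : ∀ a ∈ c, ∀ b ∈ c, a.le b ∨ b.le a) {a : St} (ha : a ∈ c) :
    a.H ≤ P (⋃ a ∈ c, a.S) := fun x hx u hu => by
  obtain ⟨b, hb, h⟩ := mem_iUnion₂.1 hu
  rcases hc a ha b hb with h1 | h1
  exacts [b.null (h1.1 hx) u h, a.null hx u (h1.2 h)]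

theorem exists_ub (c : Set St) (hcc : c.Countable) (hne : c.Nonempty)
    (hc : ∀ a ∈ c, ∀ b ∈ c, a.le b ∨ b.le a) : ∃ s : St, ∀ a ∈ c, a.le s := by
  let B := AddSubgroup.closure (⋃ a ∈ c, (a.H : Set T))
  have h1 : ∀ a ∈ c, a.H ≤ B := fun a ha x hx =>
    AddSubgroup.subset_closure (mem_iUnion₂.2 ⟨a, ha, hx⟩)
  have h2 : B ≤ P (⋃ a ∈ c, a.S) :=
    (AddSubgroup.closure_le _).2 (iUnion₂_subset fun a ha => chain_null hc ha)
  have h3 : ∀ a ∈ c, a.S ⊆ ⋃ a ∈ c, a.S := fun a ha => subset_biUnion_of_mem (u := St.S) ha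
  refine ⟨⟨B, ⋃ a ∈ c, a.S, countable_closure (hcc.biUnion fun a _ => a.hH),
    hcc.biUnion fun a _ => a.hS, h3 _ hne.some_mem hne.some.one, h2, ?_, ?_⟩,
    fun a ha => ⟨h1 a ha, h3 a ha⟩⟩
  · intro x hx F hF δ hδ
    obtain ⟨a, ha, h⟩ := exists_finite_le hne hc F hF
    obtain ⟨y, hy, h'⟩ := a.dense x (P_anti (h3 a ha) hx) F h δ hδ
    exact ⟨y, h1 a ha hy, h'⟩
  · intro φ hφ F hF δ hδ hs
    obtain ⟨a, ha, h⟩ := exists_finite_le hne hc F hF
    exact a.dual_between (h1 a ha) (h2.trans (P_anti (h3 a ha))) hφ h hδ hs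

/-- Equicontinuity of a set of integers on `s_S`. -/
def Equi (s : St) (C : Set ℤ) : Prop :=
  ∀ ε > 0, ∃ F : Finset (ℕ → ℤ), ↑F ⊆ s.S ∧ ∃ δ > 0, ∀ x ∈ P s.S, Sm F δ x → ∀ g ∈ C, ‖g • x‖ ≤ ε

theorem St.equi (s : St) (hQ : Q ≤ s.H) (C : Set ℤ)
    (hC : ∀ x ∈ P s.S, ∃ B : Set T, ↑s.H ⊆ B ∧ x ∈ B ∧ @IsCompact ℤ (tau (chr '' B)) C) :
    Equi s C := by
  classical
  intro ε hε
  obtain ⟨hs, hhs⟩ := s.hH.exists_eq_range ⟨0, s.H.zero_mem⟩
  let cl : ℕ → ℤ → Prop := fun N g => ∀ j < N, ‖g • hs j‖ ≤ 1 / (N + 1)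
  let A : ℕ → Set T := fun N => {x | ∀ g ∈ C, ∀ g' ∈ C, cl N (g - g') → ‖(g - g') • x‖ ≤ ε / 3}
  obtain ⟨N, x₀, hx₀, F, hF, δ, hδ, hA⟩ := s.baire A (fun N => by
    simp only [A, setOf_forall]
    exact isClosed_iInter fun g => isClosed_iInter fun _ => isClosed_iInter fun g' =>
      isClosed_iInter fun _ => isClosed_iInter fun _ =>
        isClosed_le (continuous_const_smul _).norm continuous_const) (by
    intro x hx
    obtain ⟨B, hB, hxB, hc⟩ := hC x hx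
    letI := tau (chr '' B)
    have hcont : ∀ y ∈ B, Continuous fun p : ℤ × ℤ => ‖(p.1 - p.2) • y‖ := fun y hy => by
      have h1 : Continuous (chr y) := cont_tau ⟨y, hy, rfl⟩
      simp only [sub_smul]
      exact ((h1.comp continuous_fst).sub (h1.comp continuous_snd)).norm
    by_contra hcon
    push Not at hcon
    let Z : ℕ → Set (ℤ × ℤ) := fun N =>
      C ×ˢ C ∩ ({p | cl N (p.1 - p.2)} ∩ {p | ε / 3 ≤ ‖(p.1 - p.2) • x‖})
    have hcl : ∀ N, IsClosed ({p : ℤ × ℤ | cl N (p.1 - p.2)} ∩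
        {p | ε / 3 ≤ ‖(p.1 - p.2) • x‖}) := fun N => by
      refine IsClosed.inter ?_ (isClosed_le continuous_const (hcont x hxB))
      simp only [cl, setOf_forall]
      exact isClosed_iInter fun j => isClosed_iInter fun _ =>
        isClosed_le (hcont _ (hB (hhs ▸ ⟨j, rfl⟩))) continuous_const
    obtain ⟨⟨g, g'⟩, -, hp⟩ := (hc.prod hc).inter_iInter_nonempty _ hcl (fun I => by
      have h1 := hcon (I.sup id)
      simp only [A, mem_setOf_eq, not_forall, not_le] at h1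
      obtain ⟨g, hg, g', hg', h2, h3⟩ := h1
      refine ⟨(g, g'), ⟨hg, hg'⟩, mem_iInter₂.2 fun N hN => ⟨fun j hj => ?_, h3.le⟩⟩
      have h4 : N ≤ I.sup id := Finset.le_sup (f := id) hN
      refine (h2 j (hj.trans_le h4)).trans (one_div_le_one_div_of_le (by positivity) ?_)
      exact_mod_cast Nat.succ_le_succ h4)
    rw [mem_iInter] at hp
    have h5 : g - g' = 0 := by
      by_contra h
      obtain ⟨y, hy, h6⟩ := Q_sep h
      obtain ⟨j, rfl⟩ : y ∈ range hs := hhs ▸ hQ hy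
      refine h6 (norm_le_zero_iff.1 (ge_of_tendsto tendsto_one_div_add_atTop_nhds_zero_nat ?_))
      exact eventually_atTop.2 ⟨j + 1, fun N hN => (hp N).1 j hN⟩
    have := (hp 0).2
    simp only [mem_setOf_eq, h5, zero_smul, norm_zero] at this
    linarith)
  obtain ⟨Z, hZ, hnet⟩ := exists_net (((Finset.range N).image hs).image chr)
    (δ := 1 / (N + 1)) (by positivity) C
  have hM : 0 < 1 + ∑ v ∈ Z, |(v : ℝ)| := by positivity
  refine ⟨insert e0 F, by rw [Finset.coe_insert]; exact insert_subset s.one hF,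
    min δ (ε / 3 / (1 + ∑ v ∈ Z, |(v : ℝ)|)), by positivity, fun x hx hsm g hg => ?_⟩
  obtain ⟨z, hz, hcl⟩ := hnet g hg
  have h1 : cl N (g - z) := fun j hj => (hcl _ (Finset.mem_image_of_mem _
    (Finset.mem_image_of_mem _ (Finset.mem_range.2 hj)))).le
  have h2 := hA x hx (hsm.mono (Finset.subset_insert _ _) (min_le_left _ _)) g hg z (hZ z hz) h1
  have h3 := hx₀ g hg z (hZ z hz) h1
  have h4 : ‖z • x‖ ≤ ε / 3 := by
    refine (((hsm.mono le_rfl (min_le_right _ _)).zsmul z).norm_le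
      (Finset.mem_insert_self _ _)).trans ?_
    rw [mul_div_assoc', div_le_iff₀ hM, mul_comm]
    gcongr
    exact (Finset.single_le_sum (f := fun v : ℤ => |(v : ℝ)|) (fun _ _ => abs_nonneg _) hz).trans
      (le_add_of_nonneg_left zero_le_one)
  have h5 : g • x = (g - z) • (x₀ + x) - (g - z) • x₀ + z • x := by
    rw [smul_add, add_sub_cancel_left, ← add_smul, sub_add_cancel]
  rw [h5]
  linarith [norm_add_le ((g - z) • (x₀ + x) - (g - z) • x₀) (z • x),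
    norm_sub_le ((g - z) • (x₀ + x)) ((g - z) • x₀)]

/-- The tasks. -/
def Done : (ℕ → T) ⊕ Set ℤ → St → Prop
  | .inl χ, s => (∃ n, χ n ∉ P s.S) ∨ ((∀ n, χ n ∈ s.H) ∧ ((∃ n, χ n = 0) ∨
      ∃ F : Finset (ℕ → ℤ), ↑F ⊆ s.S ∧ ∃ δ > 0, ¬∀ᶠ n in atTop, Sm F δ (χ n)))
  | .inr C, s => Equi s C ∨ ¬@IsCompact ℤ (tau (chr '' s.H)) C

theorem St.exists_add (s : St) {A : Set T} (hA : A.Countable) (h : A ⊆ P s.S) :
    ∃ s' : St, s.H ≤ s'.H ∧ s'.S = s.S ∧ A ⊆ s'.H :=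
  ⟨s.enlarge (AddSubgroup.closure (s.H ∪ A)) (countable_closure (s.hH.union hA))
    (fun _ hx => AddSubgroup.subset_closure (Or.inl hx))
    ((AddSubgroup.closure_le _).2 (union_subset s.null h)),
    fun _ hx => AddSubgroup.subset_closure (Or.inl hx), rfl,
    fun _ hx => AddSubgroup.subset_closure (Or.inr hx)⟩

theorem exists_done (i : (ℕ → T) ⊕ Set ℤ) (s : St) (hQ : Q ≤ s.H) :
    ∃ s' : St, s.le s' ∧ Done i s' := by
  rcases i with χ | C
  · by_cases h1 : ∃ n, χ n ∉ P s.S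
    · exact ⟨s, ⟨le_rfl, le_rfl⟩, Or.inl h1⟩
    push Not at h1
    obtain ⟨s', h2, h3, h4⟩ := s.exists_add (countable_range χ) (range_subset_iff.2 h1)
    have h5 : ∀ n, χ n ∈ s'.H := fun n => h4 ⟨n, rfl⟩
    by_cases h6 : (∃ n, χ n = 0) ∨
      ∃ F : Finset (ℕ → ℤ), ↑F ⊆ s'.S ∧ ∃ δ > 0, ¬∀ᶠ n in atTop, Sm F δ (χ n)
    · exact ⟨s', ⟨h2, h3.ge⟩, Or.inr ⟨h5, h6⟩⟩
    rw [not_or] at h6
    obtain ⟨Y⟩ := s'.exists_sys (fun n => s'.null (h5 n)) (fun n h => h6.1 ⟨n, h⟩)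
      fun F hF δ hδ => by_contra fun h => h6.2 ⟨F, hF, δ, hδ, h⟩
    have h7 : s'.H ≤ Y.next.H := fun x hx => AddSubgroup.subset_closure (Or.inl hx)
    refine ⟨Y.next, ⟨h2.trans h7, h3.ge.trans (subset_insert _ _)⟩, Or.inr ⟨fun n => h7 (h5 n),
      Or.inr ⟨{Y.u}, by simp [Sys.next], 1 / 16, by norm_num, fun h => ?_⟩⟩⟩
    obtain ⟨n, ⟨k, hk⟩, hn⟩ := (Y.big.and_eventually h).exists
    linarith [hn Y.u (by simp) k]
  · by_cases h : Equi s C
    · exact ⟨s, ⟨le_rfl, le_rfl⟩, Or.inl h⟩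
    have := mt (s.equi hQ C) h
    push Not at this
    obtain ⟨x, hx, h1⟩ := this
    obtain ⟨s', h2, h3, h4⟩ := s.exists_add (countable_singleton x) (singleton_subset_iff.2 hx)
    exact ⟨s', ⟨h2, h3.ge⟩, Or.inr (h1 _ h2 (h4 rfl))⟩

theorem exists_family (hCH : Cardinal.continuum.{0} = Cardinal.aleph 1) :
    ∃ S : Set (ℕ → ℤ), Q ≤ P S ∧ NoSeq ((P S).map chr) ∧ OnlyEval ((P S).map chr) := by
  obtain ⟨r, wo, hr⟩ := Cardinal.exists_ord_eq ((ℕ → T) ⊕ Set ℤ)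
  have hcard : Cardinal.mk ((ℕ → T) ⊕ Set ℤ) ≤ Cardinal.aleph 1 := by
    have h1 : Cardinal.mk T ≤ Cardinal.continuum := Cardinal.mk_real ▸ Cardinal.mk_quotient_le
    rw [← hCH, Cardinal.mk_sum, Cardinal.lift_id, Cardinal.lift_id, ← Cardinal.continuum_add_self]
    refine add_le_add ?_ (by simp)
    rw [← Cardinal.continuum_power_aleph0, ← Cardinal.power_def, Cardinal.mk_nat]
    exact Cardinal.power_le_power_right h1
  obtain ⟨f, hf, hd⟩ := exists_run (σ := {s : St // s0.le s}) r (fun i => by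
      rw [Cardinal.countable_iff_lt_aleph_one]
      exact ((Ordinal.card_typein (r := r) i).symm.trans_lt
        (Cardinal.card_typein_lt i hr)).trans_le hcard)
    (fun a b => a.1.le b.1) (fun a => ⟨le_rfl, le_rfl⟩)
    (fun a b c h h' => ⟨h.1.trans h'.1, h.2.trans h'.2⟩) (fun c hc hch => by
      obtain ⟨s, hs⟩ := exists_ub (insert s0 (Subtype.val '' c)) ((hc.image _).insert _)
        (insert_nonempty _ _) (by
          rintro _ (rfl | ⟨a, ha, rfl⟩) _ (rfl | ⟨b, hb, rfl⟩)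
          exacts [Or.inl ⟨le_rfl, le_rfl⟩, Or.inl b.2, Or.inr a.2, hch a ha b hb])
      exact ⟨⟨s, hs _ (Or.inl rfl)⟩, fun a ha => hs _ (Or.inr ⟨a, ha, rfl⟩)⟩)
    (fun i s => Done i s.1) (fun i s => by
      obtain ⟨s', h1, h2⟩ := exists_done i s.1 s.2.1
      exact ⟨⟨s', s.2.1.trans h1.1, s.2.2.trans h1.2⟩, h1, h2⟩)
  let c : Set St := range fun i => (f i).1
  have hc : ∀ a ∈ c, ∀ b ∈ c, a.le b ∨ b.le a := by
    rintro _ ⟨i, rfl⟩ _ ⟨j, rfl⟩; exact hf i j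
  have h1 : ∀ i, (f i).1.H ≤ P (⋃ a ∈ c, a.S) := fun i => chain_null hc ⟨i, rfl⟩
  have h2 : ∀ i, (f i).1.S ⊆ ⋃ a ∈ c, a.S := fun i =>
    subset_biUnion_of_mem (u := St.S) (mem_range_self (f := fun i => (f i).1) i)
  refine ⟨⋃ a ∈ c, a.S, (f (.inr ∅)).2.1.trans (h1 _), ?_, ?_⟩
  · intro ψ hψ hne _
    choose χ hχ he using hψ
    obtain rfl : ψ = fun n => chr (χ n) := funext fun n => (he n).symm
    rcases hd (.inl χ) with ⟨n, h⟩ | ⟨-, ⟨n, h⟩ | ⟨F, hF, δ, hδ, h⟩⟩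
    · exact absurd (P_anti (h2 _) (hχ n)) h
    · exact absurd (show chr (χ n) = 0 by rw [h, map_zero]) (hne n)
    letI := tau ((P (⋃ a ∈ c, a.S)).map chr : Set (ℤ →+ T))
    refine ⟨⋃ u ∈ F, insert 0 (range u), F.isCompact_biUnion fun u hu =>
      Tendsto.isCompact_insert_range (tendsto_tau.2 ?_), δ, hδ, ?_⟩
    · rintro _ ⟨x, hx, rfl⟩
      simpa using hx u (h2 _ (hF hu))
    · refine (not_eventually.1 h).mono fun n hn => ?_
      simp only [Sm, not_forall, not_le] at hn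
      obtain ⟨u, hu, k, hk⟩ := hn
      exact ⟨u k, mem_iUnion₂.2 ⟨u, hu, Or.inr ⟨k, rfl⟩⟩, hk.le⟩
  · intro φ hφ C hC δ hδ hs
    rcases hd (.inr C) with h | h
    · obtain ⟨F, hF, δ', hδ', h⟩ := h δ hδ
      obtain ⟨g, hg⟩ := (f (.inr C)).1.dual_between (h1 _) (P_anti (h2 _))
        (φ := fun x => φ (chr x)) (fun a ha b hb => by
          simp only [map_add]; exact hφ _ ⟨a, ha, rfl⟩ _ ⟨b, hb, rfl⟩) hF hδ' fun x hx hsm =>
          (hs _ ⟨x, hx, rfl⟩ (h x (P_anti (h2 _) hx) hsm)).trans (by norm_num)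
      exact ⟨g, by rintro _ ⟨x, hx, rfl⟩; exact hg x hx⟩
    · refine absurd ?_ h
      have := @IsCompact.image ℤ ℤ (tau _) (tau (chr '' (f (.inr C)).1.H)) C id hC
        (continuous_id_iff_le.2 (tau_anti (image_mono (h1 _))))
      rwa [image_id] at this

end Pool.Agent.Lib.MP_a74260_al
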