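import Mathlib

/-! Definitions: the set `s_S`, the topology `τ_{bS}`, Pontryagin reflexivity, precompactness. -/

namespace Pool.Agent.Lib.MP_a74260_al

open Filter Topology

/-- `s_S`: the homomorphisms `χ : G → 𝕋` with `χ (u n) → 1` for every sequence `u ∈ S`. -/
def sSet {G : Type} [CommGroup G] (S : Set (ℕ → G)) : Set (G →* Circle) :=
  {χ | ∀ u ∈ S, Tendsto (fun n => χ (u n)) atTop (𝓝 1)}

/-- `τ_{bS}`: the initial topology on `G` induced by the characters in `s_S`. -/
@[reducible] noncomputable def tauB {G : Type} [CommGroup G] (S : Set (ℕ → G)) : TopologicalSpace G :=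
  ⨅ χ ∈ sSet S, TopologicalSpace.induced χ inferInstance

/-- The evaluation map `G → G^∧∧` is a topological isomorphism (duals carry the compact-open
topology). -/
def IsReflexive (G : Type) [CommGroup G] [TopologicalSpace G] : Prop :=
  ∃ e : G ≃ₜ* PontryaginDual (PontryaginDual G), ∀ (g : G) (χ : PontryaginDual G), e g χ = χ g

/-- Finitely many translates of any neighbourhood of the identity cover the group. -/
def IsPrecompact (G : Type) [CommGroup G] [TopologicalSpace G] : Prop :=
  ∀ U ∈ 𝓝 (1 : G), ∃ F : Finset G, ∀ g : G, ∃ z ∈ F, z⁻¹ * g ∈ U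

end Pool.Agent.Lib.MP_a74260_al
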