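import Pool.Agent.Lib.MP_a74260_al.Kron
import Pool.Agent.Lib.MP_a74260_al.Defs

/-! A criterion for Pontryagin reflexivity of a countable precompact group. -/

namespace Pool.Agent.Lib.MP_a74260_al

open Filter Topology Set

variable {G : Type} [AddCommGroup G]

/-- The initial topology of a set of characters. -/
@[reducible] def tau (H : Set (G →+ T)) : TopologicalSpace G :=
  TopologicalSpace.induced (fun g (χ : H) => χ.1 g) inferInstance

theorem cont_tau {H : Set (G →+ T)} {χ : G →+ T} (h : χ ∈ H) : Continuous[tau H, _] χ := by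
  letI := tau H
  have h1 : Continuous (fun g (χ : H) => χ.1 g) := continuous_induced_dom
  exact (continuous_apply (⟨χ, h⟩ : H)).comp h1

theorem tau_anti {H H' : Set (G →+ T)} (h : H ⊆ H') : tau H' ≤ tau H := by
  letI := tau H'
  rw [← continuous_id_iff_le]
  exact continuous_induced_rng.2 (continuous_pi fun χ => cont_tau (h χ.2))

theorem tendsto_tau {H : Set (G →+ T)} {ι : Type*} {l : Filter ι} {u : ι → G} {a : G} :
    Tendsto u l (@nhds G (tau H) a) ↔ ∀ χ ∈ H, Tendsto (fun i => χ (u i)) l (𝓝 (χ a)) := by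
  rw [nhds_induced, tendsto_comap_iff, tendsto_pi_nhds]
  exact ⟨fun h χ hχ => h ⟨χ, hχ⟩, fun h χ => h χ.1 χ.2⟩

theorem mem_nhds_tau {H : Set (G →+ T)} {U : Set G} (hU : U ∈ @nhds G (tau H) 0) :
    ∃ F : Finset (G →+ T), (∀ χ ∈ F, χ ∈ H) ∧ ∃ δ > 0, ∀ g, (∀ χ ∈ F, ‖χ g‖ < δ) → g ∈ U := by
  classical
  rw [nhds_induced, mem_comap] at hU
  obtain ⟨V, hV, hVU⟩ := hU
  rw [nhds_pi, Filter.mem_pi] at hV
  obtain ⟨I, hI, t, ht, hIV⟩ := hV
  have : ∀ χ : H, ∃ δ > 0, ∀ x : T, ‖x‖ < δ → x ∈ t χ := fun χ => by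
    obtain ⟨δ, hδ, h⟩ := Metric.mem_nhds_iff.1 (ht χ)
    exact ⟨δ, hδ, fun x hx => h (by simpa using hx)⟩
  choose d hd hdt using this
  obtain ⟨δ, hδ, hle⟩ : ∃ δ > 0, ∀ χ ∈ I, δ ≤ d χ := by
    rcases I.eq_empty_or_nonempty with rfl | hne
    · exact ⟨1, one_pos, by simp⟩
    · obtain ⟨χ, -, h⟩ := hI.exists_minimalFor d I hne |>.imp fun χ h => (⟨h.1, fun b hb =>
        le_of_not_gt fun hlt => (h.2 hb hlt.le).not_gt hlt⟩ : χ ∈ I ∧ ∀ b ∈ I, d χ ≤ d b)
      exact ⟨d χ, hd χ, h⟩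
  refine ⟨hI.toFinset.image Subtype.val, by simp +contextual, δ, hδ, fun g hg => hVU (hIV ?_)⟩
  intro χ hχ
  exact hdt χ _ ((hg χ.1 (Finset.mem_image_of_mem _ (by simpa using hχ))).trans_le (hle χ hχ))

theorem mem_of_continuous (H : AddSubgroup (G →+ T)) (ψ : G →+ T)
    (h : Continuous[tau (H : Set (G →+ T)), _] ψ) : ψ ∈ H := by
  refine mem_of_cont H ψ fun ε hε => ?_
  letI := tau (H : Set (G →+ T))
  have : {g | ‖ψ g‖ < ε} ∈ 𝓝 (0 : G) :=
    (isOpen_lt h.norm continuous_const).mem_nhds (by simpa using hε)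
  exact mem_nhds_tau this

noncomputable def ee : T ≃ₜ Circle := AddCircle.homeomorphCircle one_ne_zero

theorem ee_add (a b : T) : ee (a + b) = ee a * ee b := by
  simp [ee, AddCircle.homeomorphCircle_apply, AddCircle.toCircle_add]

theorem ee_zero : ee 0 = 1 := by simp [ee, AddCircle.homeomorphCircle_apply]

theorem ee_symm_mul (a b : Circle) : ee.symm (a * b) = ee.symm a + ee.symm b := by
  apply ee.injective; simp [ee_add]

theorem ee_symm_one : ee.symm 1 = 0 := by apply ee.injective; simp [ee_zero]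

/-- Additive version of a multiplicative character. -/
noncomputable def lg (χ : Multiplicative G →* Circle) : G →+ T :=
  AddMonoidHom.mk' (fun g => ee.symm (χ (Multiplicative.ofAdd g))) fun a b => by
    rw [ofAdd_add, map_mul, ee_symm_mul]

/-- Multiplicative version of an additive character. -/
noncomputable def ex (χ : G →+ T) : Multiplicative G →* Circle :=
  MonoidHom.mk' (fun g => ee (χ g.toAdd)) fun a b => by rw [toAdd_mul, map_add, ee_add]

theorem lg_ex (χ : G →+ T) : lg (ex χ) = χ := by ext g; simp [lg, ex]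

theorem ex_lg (χ : Multiplicative G →* Circle) : ex (lg χ) = χ := by ext g; simp [lg, ex]

variable {H : AddSubgroup (G →+ T)}

/-- No non-trivial sequence of `H` converges uniformly on compact sets. -/
def NoSeq (H : AddSubgroup (G →+ T)) : Prop :=
  ∀ ψ : ℕ → (G →+ T), (∀ n, ψ n ∈ H) → (∀ n, ψ n ≠ 0) →
    (∀ g, Tendsto (fun n => ψ n g) atTop (𝓝 0)) →
    ∃ C : Set G, @IsCompact G (tau (H : Set (G →+ T))) C ∧ ∃ c > 0,
      ∃ᶠ n in atTop, ∃ g ∈ C, c ≤ ‖ψ n g‖

/-- Every character of `H` that is continuous for uniform convergence on a compact set is an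
evaluation. -/
def OnlyEval (H : AddSubgroup (G →+ T)) : Prop :=
  ∀ φ : (G →+ T) → T, (∀ a ∈ H, ∀ b ∈ H, φ (a + b) = φ a + φ b) →
    ∀ C : Set G, @IsCompact G (tau (H : Set (G →+ T))) C → ∀ δ > 0,
      (∀ χ ∈ H, (∀ g ∈ C, ‖χ g‖ ≤ δ) → ‖φ χ‖ ≤ 1 / 8) → ∃ g, ∀ χ ∈ H, φ χ = χ g

variable [t : TopologicalSpace G]

/-- The dual group. -/
abbrev D (G : Type) [AddCommGroup G] [TopologicalSpace G] := PontryaginDual (Multiplicative G)

noncomputable def lgd (χ : D G) : G →+ T := lg χ.toMonoidHom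

theorem lgd_apply (χ : D G) (g : G) : lgd χ g = ee.symm (χ (Multiplicative.ofAdd g)) := rfl

theorem lgd_cont (χ : D G) : Continuous (lgd χ) :=
  ee.symm.continuous.comp ((map_continuous χ).comp continuous_ofAdd)

noncomputable def exd (χ : G →+ T) (h : Continuous χ) : D G :=
  ⟨ex χ, ee.continuous.comp (h.comp continuous_toAdd)⟩

theorem exd_apply (χ : G →+ T) (h : Continuous χ) (g : Multiplicative G) :
    exd χ h g = ee (χ g.toAdd) := rfl

theorem lgd_exd (χ : G →+ T) (h : Continuous χ) : lgd (exd χ h) = χ := lg_ex χ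

theorem exd_lgd (χ : D G) : exd (lgd χ) (lgd_cont χ) = χ :=
  PontryaginDual.ext fun g => by rw [exd_apply, lgd_apply]; simp

theorem lgd_injective : Function.Injective (lgd (G := G)) := fun a b h => by
  rw [← exd_lgd a, ← exd_lgd b]; congr 1

/-- The dual group mapped to continuous maps into `ℝ / ℤ`. -/
noncomputable def toC (χ : D G) : C(Multiplicative G, T) :=
  (⟨ee.symm, ee.symm.continuous⟩ : C(Circle, T)).comp χ.toContinuousMap

theorem isInducing_toC : IsInducing (toC (G := G)) :=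
  (ContinuousMap.isInducing_postcomp _ ee.symm.isInducing).comp
    (ContinuousMonoidHom.isInducing_toContinuousMap (Multiplicative G) Circle)

theorem tendsto_dual {ι : Type*} {l : Filter ι} {u : ι → D G} {a : D G} :
    Tendsto u l (𝓝 a) ↔ ∀ C : Set G, IsCompact C → ∀ ε > 0, ∀ᶠ i in l, ∀ g ∈ C,
        ‖lgd (u i) g - lgd a g‖ < ε := by
  rw [isInducing_toC.tendsto_nhds_iff,
    ContinuousMap.tendsto_iff_forall_isCompact_tendstoUniformlyOn]
  have : ∀ K : Set (Multiplicative G),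
      TendstoUniformlyOn (fun i a => ((toC ∘ u) i) a) (⇑(toC a)) l K ↔ ∀ ε > 0, ∀ᶠ i in l,
        ∀ g ∈ K, ‖lgd (u i) g.toAdd - lgd a g.toAdd‖ < ε := fun K => by
    rw [Metric.tendstoUniformlyOn_iff]
    refine forall₂_congr fun ε _ => eventually_congr (.of_forall fun i => ?_)
    refine forall₂_congr fun g _ => ?_
    rw [dist_comm, dist_eq_norm]; rfl
  simp only [this]
  constructor
  · intro h C hC ε hε
    filter_upwards [h _ (hC.image continuous_ofAdd) ε hε] with i hi g hg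
    exact hi _ ⟨g, hg, rfl⟩
  · intro h C hC ε hε
    filter_upwards [h _ (hC.image continuous_toAdd) ε hε] with i hi g hg
    exact hi _ ⟨g, hg, rfl⟩

theorem exists_of_mem_nhds_one {U : Set (D G)} (hU : U ∈ 𝓝 1) :
    ∃ C : Set G, IsCompact C ∧ ∃ δ > 0, ∀ χ : D G, (∀ g ∈ C, ‖lgd χ g‖ ≤ δ) → χ ∈ U := by
  let s : Set G × ℝ → Set (D G) := fun p => {χ | ∀ g ∈ p.1, ‖lgd χ g‖ ≤ p.2}
  have hb : IsBasis (fun p : Set G × ℝ => IsCompact p.1 ∧ 0 < p.2) s := by
    refine ⟨⟨(∅, 1), isCompact_empty, one_pos⟩, ?_⟩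
    rintro ⟨C, a⟩ ⟨D, b⟩ ⟨hC, ha⟩ ⟨hD, hb⟩
    refine ⟨(C ∪ D, min a b), ⟨hC.union hD, lt_min ha hb⟩, fun χ hχ => ⟨fun g hg => ?_,
      fun g hg => ?_⟩⟩
    · exact (hχ g (Or.inl hg)).trans (min_le_left _ _)
    · exact (hχ g (Or.inr hg)).trans (min_le_right _ _)
  have hle : hb.filter ≤ 𝓝 1 := by
    rw [← tendsto_id', tendsto_dual]
    intro C hC ε hε
    refine hb.hasBasis.eventually_iff.2 ⟨(C, ε / 2), ⟨hC, half_pos hε⟩, fun χ hχ g hg => ?_⟩
    have : lgd (1 : D G) g = 0 := ee_symm_one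
    rw [this, sub_zero]
    exact (hχ g hg).trans_lt (half_lt_self hε)
  obtain ⟨⟨C, δ⟩, ⟨hC, hδ⟩, h⟩ := hb.hasBasis.mem_iff.1 (hle hU)
  exact ⟨C, hC, δ, hδ, fun χ hχ => h hχ⟩

theorem finite_of_isCompact [Countable G] (ht : t = tau (H : Set (G →+ T))) (h1 : NoSeq H)
    {K : Set (D G)} (hK : IsCompact K) : K.Finite := by
  have lgd_mem : ∀ χ : D G, lgd χ ∈ H := fun χ => mem_of_continuous H _ (ht ▸ lgd_cont χ)
  by_contra hinf
  have hinf : K.Infinite := hinf
  let χ := hinf.natEmbedding K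
  obtain ⟨ξ, -, φ, hφ, hξ⟩ := (isCompact_univ (X := G → T)).tendsto_subseq
    (x := fun n g => lgd (χ n).1 g) fun _ => mem_univ _
  rw [tendsto_pi_nhds] at hξ
  have key : ∀ l : Filter ℕ, l ≤ atTop → l.NeBot → ∃ 𝒰 : Ultrafilter ℕ, ↑𝒰 ≤ l ∧ ∃ κ ∈ K,
      Tendsto (fun n => (χ (φ n)).1) 𝒰 (𝓝 κ) ∧ ∀ g, lgd κ g = ξ g := by
    intro l hl hne
    obtain ⟨𝒰, h𝒰⟩ := Ultrafilter.exists_le l
    obtain ⟨κ, hκ, ht⟩ := hK.ultrafilter_le_nhds (𝒰.map fun n => (χ (φ n)).1)
      (le_principal_iff.2 (mem_map.2 (univ_mem' fun n => (χ (φ n)).2)))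
    refine ⟨𝒰, h𝒰, κ, hκ, ht, fun g => ?_⟩
    refine tendsto_nhds_unique (l := 𝒰) ?_ ((hξ g).mono_left (h𝒰.trans hl))
    rw [Metric.tendsto_nhds]
    intro ε hε
    filter_upwards [tendsto_dual.1 ht {g} isCompact_singleton ε hε] with n hn
    rw [dist_eq_norm]; exact hn g rfl
  obtain ⟨-, -, κ, -, -, hκ⟩ := key atTop le_rfl inferInstance
  obtain ⟨N, hN⟩ : ∃ N, ∀ n, (χ (φ (n + N))).1 ≠ κ := by
    by_cases h : ∃ m, (χ (φ m)).1 = κ
    · obtain ⟨m, hm⟩ := h
      refine ⟨m + 1, fun n hn => ?_⟩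
      have := hφ.injective (χ.injective (Subtype.ext (hn.trans hm.symm)))
      omega
    · exact ⟨0, fun n hn => h ⟨_, hn⟩⟩
  obtain ⟨C, hC, c, hc, hfr⟩ := h1 (fun n => lgd (χ (φ (n + N))).1 - lgd κ)
    (fun n => H.sub_mem (lgd_mem _) (lgd_mem _))
    (fun n h => hN n (lgd_injective (sub_eq_zero.1 h))) (fun g => by
      have := ((hξ g).comp (tendsto_add_atTop_nat N)).sub_const (ξ g)
      simpa [hκ, Function.comp_def] using this)
  have hfr' : ∃ᶠ n in atTop, ∃ g ∈ C, c ≤ ‖lgd (χ (φ n)).1 g - lgd κ g‖ :=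
    (tendsto_add_atTop_nat N).frequently hfr
  obtain ⟨𝒰, h𝒰, κ', -, ht', hκ'⟩ := key _ inf_le_left (frequently_iff_neBot.1 hfr')
  have e1 := tendsto_dual.1 ht' C (ht ▸ hC) c hc
  have e2 : ∀ᶠ n in (𝒰 : Filter ℕ), ∃ g ∈ C, c ≤ ‖lgd (χ (φ n)).1 g - lgd κ g‖ :=
    h𝒰 (mem_inf_of_right (mem_principal_self _))
  obtain ⟨n, hn, g, hg, hn'⟩ := (e1.and e2).exists
  have := hn g hg
  rw [hκ', ← hκ] at this
  linarith

theorem continuous_ev {A : Type} [CommGroup A] [TopologicalSpace A] (g : A) :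
    Continuous fun χ : PontryaginDual A => χ g :=
  (continuous_eval_const (F := C(A, Circle)) g).comp
    (ContinuousMonoidHom.isInducing_toContinuousMap A Circle).continuous

/-- Evaluation. -/
noncomputable def evalHom {A : Type} [CommGroup A] [TopologicalSpace A] :
    A →* PontryaginDual (PontryaginDual A) :=
  MonoidHom.mk' (fun g => ⟨MonoidHom.mk' (fun χ => χ g) fun _ _ => rfl, continuous_ev g⟩)
    fun a b => PontryaginDual.ext fun χ => map_mul χ a b

theorem evalHom_apply {A : Type} [CommGroup A] [TopologicalSpace A] (g : A)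
    (χ : PontryaginDual A) : evalHom g χ = χ g := rfl

theorem isReflexive [Countable G] (ht : t = tau (H : Set (G →+ T)))
    (hsep : ∀ g : G, g ≠ 0 → ∃ χ ∈ H, χ g ≠ 0) (h1 : NoSeq H)
    (h2 : OnlyEval H) : IsReflexive (Multiplicative G) := by
  classical
  have lgd_mem : ∀ χ : D G, lgd χ ∈ H := fun χ => mem_of_continuous H _ (ht ▸ lgd_cont χ)
  have hc : ∀ {χ}, χ ∈ H → Continuous χ := fun h => ht ▸ cont_tau h
  have hinj : Function.Injective (evalHom (A := Multiplicative G)) := by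
    rw [injective_iff_map_eq_one]
    intro g hg
    by_contra hne
    obtain ⟨χ, hχ, h⟩ := hsep g.toAdd hne
    apply h
    apply ee.injective
    rw [ee_zero, ← exd_apply χ (hc hχ), ← evalHom_apply, hg]; rfl
  have hsurj : Function.Surjective (evalHom (A := Multiplicative G)) := by
    intro Φ
    have hU : {χ | ‖ee.symm (Φ χ)‖ < 1 / 8} ∈ 𝓝 (1 : D G) := by
      refine (isOpen_lt (ee.symm.continuous.comp (map_continuous Φ)).norm
        continuous_const).mem_nhds ?_
      simp [ee_symm_one]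
    obtain ⟨C, hC, δ, hδ, h⟩ := exists_of_mem_nhds_one hU
    obtain ⟨g, hg⟩ := h2 (fun ψ => if h : ψ ∈ H then ee.symm (Φ (exd ψ (hc h))) else 0) (by
      intro a ha b hb
      rw [dif_pos ha, dif_pos hb, dif_pos (H.add_mem ha hb), ← ee_symm_mul, ← map_mul]
      congr 2
      exact PontryaginDual.ext fun g => ee_add _ _) C (ht ▸ hC) δ hδ (by
      intro χ hχ hs
      rw [dif_pos hχ]
      exact (h (exd χ (hc hχ)) (by rwa [lgd_exd])).le)
    refine ⟨Multiplicative.ofAdd g, PontryaginDual.ext fun χ => ?_⟩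
    have := hg (lgd χ) (lgd_mem χ)
    rw [dif_pos (lgd_mem χ), exd_lgd, lgd_apply] at this
    exact (ee.symm.injective this).symm
  have hcont : Continuous (evalHom (A := Multiplicative G)) := by
    refine (ContinuousMonoidHom.isInducing_toContinuousMap (D G) Circle).continuous_iff.2
      (ContinuousMap.continuous_compactOpen.2 fun K hK U hU => ?_)
    have h3 := (finite_of_isCompact ht h1 hK).isOpen_biInter
      fun (χ : D G) _ => hU.preimage (map_continuous χ)
    have h4 : {x | MapsTo (⇑((ContinuousMonoidHom.toContinuousMap ∘ ⇑evalHom) x)) K U} =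
        ⋂ χ ∈ K, χ ⁻¹' U := by
      ext g; simp only [mem_setOf_eq, mem_iInter]; rfl
    exact h4 ▸ h3
  let e := MulEquiv.ofBijective (evalHom (A := Multiplicative G)) ⟨hinj, hsurj⟩
  refine ⟨⟨e, hcont, ?_⟩, fun g χ => rfl⟩
  have h4 : Continuous fun Φ => (e.symm Φ).toAdd := by
    suffices h5 : Continuous[_, tau (H : Set (G →+ T))] fun Φ => (e.symm Φ).toAdd from ht ▸ h5
    refine continuous_induced_rng.2 (continuous_pi fun χ => ?_)
    have : (fun Φ => χ.1 (e.symm Φ).toAdd) = fun Φ => ee.symm (Φ (exd χ.1 (hc χ.2))) := by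
      funext Φ
      obtain ⟨g, rfl⟩ := e.surjective Φ
      rw [MulEquiv.symm_apply_apply]
      exact (ee.symm_apply_apply _).symm
    have h6 : Continuous fun Φ : PontryaginDual (D G) => ee.symm (Φ (exd χ.1 (hc χ.2))) :=
      ee.symm.continuous.comp (continuous_ev _)
    exact (this ▸ h6 :)
  exact continuous_ofAdd.comp h4

end Pool.Agent.Lib.MP_a74260_al
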