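import Pool.Agent.Lib.MP_a74260_al.Kron

/-! The recurrence `x (n + 2) = 3 x (n + 1) - x n` on the circle. -/

namespace Pool.Agent.Lib.MP_a74260_al

open Filter Topology Set

noncomputable def mu : ℝ := (3 - √5) / 2

theorem mu_sq : mu ^ 2 = 3 * mu - 1 := by
  have : √5 ^ 2 = 5 := Real.sq_sqrt (by norm_num)
  unfold mu; nlinarith

theorem mu_pos : 0 < mu := by
  have : √5 < 3 := (Real.sqrt_lt' (by norm_num)).2 (by norm_num)
  unfold mu; linarith

theorem mu_le : mu ≤ 1 / 2 := by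
  have : 2 ≤ √5 := Real.le_sqrt_of_sq_le (by norm_num)
  unfold mu; linarith

theorem mu_irr : Irrational mu := by
  have h : Irrational √5 := by simpa using Nat.Prime.irrational_sqrt (p := 5) (by norm_num)
  simpa [mu] using (h.natCast_sub 3).div_natCast (m := 2) two_ne_zero

theorem mu_pow_le (n : ℕ) : mu ^ n ≤ (1 / 2) ^ n := pow_le_pow_left₀ mu_pos.le mu_le n

theorem mu_pow_pos (n : ℕ) : 0 < mu ^ n := pow_pos mu_pos n

/-- Integer solutions of the recurrence. -/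
def rs (a b : ℤ) : ℕ → ℤ
  | 0 => a
  | 1 => b
  | n + 2 => 3 * rs a b (n + 1) - rs a b n

abbrev fe : ℕ → ℤ := rs 0 1

abbrev lu : ℕ → ℤ := rs 2 3

/-- Solutions on the circle. -/
def Rec (θ : ℕ → T) : Prop := ∀ n, θ (n + 2) = (3 : ℤ) • θ (n + 1) - θ n

theorem rec_rs (a b : ℤ) (τ : T) : Rec fun n => rs a b n • τ := fun n => by
  simp only [rs, sub_smul, mul_smul]

noncomputable def dd (n : ℕ) : T := ((mu ^ n : ℝ) : T)

theorem rec_dd : Rec dd := fun n => by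
  unfold dd
  rw [← AddCircle.coe_zsmul, ← AddCircle.coe_sub]
  congr 1
  rw [pow_add, mu_sq, zsmul_eq_mul]; push_cast; ring

theorem Rec.smul {θ : ℕ → T} (h : Rec θ) (g : ℤ) : Rec fun n => g • θ n := fun n => by
  simp only [h n, smul_sub, smul_comm g (3 : ℤ)]

theorem Rec.ext {θ θ' : ℕ → T} (h : Rec θ) (h' : Rec θ') (h0 : θ 0 = θ' 0) (h1 : θ 1 = θ' 1)
    (n : ℕ) : θ n = θ' n := by
  induction n using Nat.twoStepInduction with
  | zero => exact h0
  | one => exact h1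
  | more n a b => rw [h, h', a, b]

theorem dd_eq (n : ℕ) : dd n = fe n • dd 1 :=
  rec_dd.ext (rec_rs 0 1 _) (by simpa [dd, rs] using coe_int 1) (by simp [rs]) n

theorem fe_mul (n : ℕ) : (fe (n + 1) : ℝ) * mu = fe n + mu ^ (n + 1) := by
  induction n using Nat.twoStepInduction with
  | zero => simp [rs]
  | one => simp only [rs]; push_cast; linarith [mu_sq]
  | more n a b =>
    have h1 : (fe (n + 3) : ℝ) = 3 * fe (n + 2) - fe (n + 1) := by simp only [rs]; push_cast; ring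
    have h2 : (fe (n + 2) : ℝ) = 3 * fe (n + 1) - fe n := by simp only [rs]; push_cast; ring
    have h3 : mu ^ (n + 3) = 3 * mu ^ (n + 2) - mu ^ (n + 1) := by
      rw [show n + 3 = n + 1 + 2 by ring, pow_add _ (n + 1), mu_sq]; ring
    rw [h1, h3]
    linear_combination 3 * b - a - h2

theorem fe_bound (n : ℕ) : 0 ≤ (fe n : ℝ) * mu ^ n ∧ (fe n : ℝ) * mu ^ n ≤ 1 - mu ^ n := by
  induction n with
  | zero => simp [rs]
  | succ n ih =>
    have h1 : (fe (n + 1) : ℝ) * mu ^ (n + 1) = fe n * mu ^ n + mu ^ (n + 1) * mu ^ n := by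
      rw [pow_succ, mul_comm (mu ^ n), ← mul_assoc, fe_mul]; ring
    have h2 := mu_pow_pos n
    have h3 : mu ^ (n + 1) ≤ mu ^ n * (1 / 2) := by rw [pow_succ]; gcongr; exact mu_le
    have h4 : mu ^ n ≤ 1 := pow_le_one₀ mu_pos.le (by linarith [mu_le])
    have h5 := mu_pow_pos (n + 1)
    rw [h1]
    constructor <;> nlinarith [ih.1, ih.2]

theorem norm_fe_dd (n m : ℕ) : ‖fe n • dd m‖ ≤ (1 / 2) ^ Nat.dist n m := by
  wlog h : n ≤ m generalizing n m
  · rw [dd_eq, smul_comm, ← dd_eq, Nat.dist_comm]; exact this m n (by omega)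
  obtain ⟨k, rfl⟩ := Nat.exists_eq_add_of_le h
  rw [Nat.dist_eq_sub_of_le h, Nat.add_sub_cancel_left, dd, ← AddCircle.coe_zsmul]
  refine (norm_coe_le _).trans ?_
  have h1 := fe_bound n
  have h2 := mu_pow_pos n
  have h3 := mu_pow_pos k
  rw [zsmul_eq_mul, pow_add, ← mul_assoc, abs_of_nonneg (by nlinarith)]
  nlinarith [mu_pow_le k]

theorem lu_mul (r n : ℕ) : (lu r : ℝ) * mu ^ (n + r) = mu ^ n + mu ^ (n + r + r) := by
  suffices h : (lu r : ℝ) * mu ^ r = 1 + mu ^ (r + r) by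
    rw [pow_add, add_assoc, pow_add]; linear_combination mu ^ n * h
  induction r using Nat.twoStepInduction with
  | zero => simp only [rs]; norm_num
  | one => simp only [rs]; push_cast; linarith [mu_sq]
  | more r a b =>
    have h1 : (lu (r + 2) : ℝ) = 3 * lu (r + 1) - lu r := by simp only [rs]; push_cast; ring
    rw [h1]
    simp only [pow_add] at a b ⊢
    linear_combination 3 * mu * b - mu ^ 2 * a - (1 + mu ^ 2 * (mu ^ r) ^ 2) * mu_sq

theorem dd_ne {g : ℤ} (hg : g ≠ 0) : g • dd 1 ≠ 0 := fun h => by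
  rw [dd, ← AddCircle.coe_zsmul, AddCircle.coe_eq_zero_iff] at h
  obtain ⟨k, hk⟩ := h
  exact (mu_irr.intCast_mul hg).ne_int k (by simpa using hk.symm)

/-- The size of two consecutive terms. -/
noncomputable def sn (θ : ℕ → T) (n : ℕ) : ℝ := ‖θ n‖ + ‖θ (n + 1)‖

theorem sn_nonneg (θ : ℕ → T) (n : ℕ) : 0 ≤ sn θ n := by unfold sn; positivity

theorem Rec.sn_le {θ : ℕ → T} (h : Rec θ) (n m : ℕ) : sn θ n ≤ 4 ^ Nat.dist n m * sn θ m := by
  have h3 : ∀ x : T, ‖(3 : ℤ) • x‖ ≤ 3 * ‖x‖ := fun x =>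
    (norm_zsmul_le 3 x).trans_eq (by rw [Int.norm_eq_abs]; norm_num)
  have h1 : ∀ n, sn θ (n + 1) ≤ 4 * sn θ n := fun n => by
    have := norm_sub_le ((3 : ℤ) • θ (n + 1)) (θ n)
    have := h3 (θ (n + 1))
    have := norm_nonneg (θ n)
    unfold sn; rw [h]; linarith
  have h2 : ∀ n, sn θ n ≤ 4 * sn θ (n + 1) := fun n => by
    have h4 : θ n = (3 : ℤ) • θ (n + 1) - θ (n + 2) := by rw [h]; abel
    have := norm_sub_le ((3 : ℤ) • θ (n + 1)) (θ (n + 2))
    have := h3 (θ (n + 1))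
    have := norm_nonneg (θ (n + 2))
    unfold sn; rw [h4]; linarith
  rcases le_total n m with hnm | hnm <;> obtain ⟨k, rfl⟩ := Nat.exists_eq_add_of_le hnm
  · rw [Nat.dist_eq_sub_of_le hnm, Nat.add_sub_cancel_left]
    clear hnm
    induction k with
    | zero => simp
    | succ k ih =>
      have := mul_le_mul_of_nonneg_left (h2 (n + k)) (show (0 : ℝ) ≤ 4 ^ k by positivity)
      rw [pow_succ, ← add_assoc]; linarith
  · rw [Nat.dist_eq_sub_of_le_right hnm, Nat.add_sub_cancel_left]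
    clear hnm
    induction k with
    | zero => simp
    | succ k ih => rw [pow_succ, ← add_assoc]; linarith [h1 (m + k)]

/-- A representative of least absolute value. -/
noncomputable def lf (x : T) : ℝ := (exists_rep x).choose

theorem lf_coe (x : T) : (lf x : T) = x := (exists_rep x).choose_spec.1

theorem lf_abs (x : T) : |lf x| = ‖x‖ := (exists_rep x).choose_spec.2.1

theorem lf_le (x : T) : |lf x| ≤ 1 / 2 := (exists_rep x).choose_spec.2.2

/-- The tail of the expansion in powers of `mu`. -/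
noncomputable def Ph (θ : ℕ → T) (N : ℕ) : ℝ := mu ^ N * (lf (θ (N + 1)) - mu * lf (θ N))

/-- The digits of the expansion. -/
noncomputable def dg (θ : ℕ → T) (n : ℕ) : ℤ :=
  round (3 * lf (θ (n + 1)) - lf (θ n) - lf (θ (n + 2)))

theorem Rec.dg_eq {θ : ℕ → T} (h : Rec θ) (n : ℕ) :
    (dg θ n : ℝ) = 3 * lf (θ (n + 1)) - lf (θ n) - lf (θ (n + 2)) := by
  have : ((3 * lf (θ (n + 1)) - lf (θ n) - lf (θ (n + 2)) : ℝ) : T) = 0 := by
    rw [AddCircle.coe_sub, AddCircle.coe_sub, lf_coe, lf_coe, h,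
      show (3 : ℝ) * lf (θ (n + 1)) = (3 : ℤ) • lf (θ (n + 1)) by simp, AddCircle.coe_zsmul,
      lf_coe, sub_self]
  obtain ⟨k, hk⟩ := (AddCircle.coe_eq_zero_iff _).1 this
  rw [dg, ← hk]; simp

theorem Rec.dg_le {θ : ℕ → T} (h : Rec θ) (n : ℕ) : |(dg θ n : ℝ)| ≤ 3 := by
  have h1 := abs_le.1 (lf_le (θ n))
  have h2 := abs_le.1 (lf_le (θ (n + 1)))
  have h3 := abs_le.1 (lf_le (θ (n + 2)))
  rw [h.dg_eq, abs_le]; constructor <;> linarith

theorem Rec.dg_zero {θ : ℕ → T} (h : Rec θ) {n : ℕ} (hs : ∀ i ≤ 2, ‖θ (n + i)‖ ≤ 1 / 6) :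
    dg θ n = 0 := by
  have h1 := abs_le.1 ((lf_abs _).trans_le (hs 0 (by norm_num)))
  have h2 := abs_le.1 ((lf_abs _).trans_le (hs 1 (by norm_num)))
  have h3 := abs_le.1 ((lf_abs _).trans_le (hs 2 le_rfl))
  have : |(dg θ n : ℝ)| < 1 := by
    rw [h.dg_eq, abs_lt]; rw [add_zero] at h1; constructor <;> linarith
  exact Int.abs_lt_one_iff.1 (by exact_mod_cast this)

theorem Rec.Ph_eq {θ : ℕ → T} (h : Rec θ) {N M : ℕ} (hM : N ≤ M) :
    Ph θ N = Ph θ M + ∑ n ∈ Finset.Ico N M, dg θ n * mu ^ (n + 1) := by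
  induction M, hM using Nat.le_induction with
  | base => simp
  | succ M hM ih =>
    rw [Finset.sum_Ico_succ_top hM, ih, h.dg_eq]
    unfold Ph
    linear_combination mu ^ M * lf (θ (M + 1)) * mu_sq

theorem Ph_tendsto (θ : ℕ → T) : Tendsto (Ph θ) atTop (𝓝 0) := by
  refine squeeze_zero_norm (fun N => ?_)
    (tendsto_pow_atTop_nhds_zero_of_lt_one mu_pos.le (mu_le.trans_lt (by norm_num)))
  have h1 := abs_le.1 (lf_le (θ N))
  have h2 := abs_le.1 (lf_le (θ (N + 1)))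
  have h3 : |lf (θ (N + 1)) - mu * lf (θ N)| ≤ 1 := by
    rw [abs_le]; constructor <;> nlinarith [mu_pos, mu_le]
  rw [Ph, Real.norm_eq_abs, abs_mul, abs_of_pos (mu_pow_pos N)]
  nlinarith [mu_pow_pos N]

theorem Rec.Ph_zero {θ : ℕ → T} (h : Rec θ) {N : ℕ} (hs : ∀ n ≥ N, ‖θ n‖ ≤ 1 / 6) :
    Ph θ N = 0 := by
  refine tendsto_nhds_unique tendsto_const_nhds ((Ph_tendsto θ).congr' ?_)
  filter_upwards [eventually_ge_atTop N] with M hM
  rw [h.Ph_eq hM, Finset.sum_eq_zero, add_zero]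
  intro n hn
  rw [h.dg_zero fun i _ => hs _ (by have := (Finset.mem_Ico.1 hn).1; omega)]; simp

theorem Rec.decay {θ : ℕ → T} (h : Rec θ) {N : ℕ} (hs : ∀ n ≥ N, ‖θ n‖ ≤ 1 / 6) (j : ℕ) :
    ‖θ (N + j)‖ ≤ (1 / 2) ^ j := by
  induction j with
  | zero => linarith [hs (N + 0) le_rfl, show ((1 : ℝ) / 2) ^ 0 = 1 by simp]
  | succ j ih =>
    have h1 := h.Ph_zero (N := N + j) fun n hn => hs n (by omega)
    have h2 := sub_eq_zero.1 ((mul_eq_zero.1 h1).resolve_left (mu_pow_pos _).ne')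
    rw [← add_assoc, ← lf_abs, h2, abs_mul, lf_abs, abs_of_pos mu_pos, pow_succ']
    exact mul_le_mul mu_le ih (norm_nonneg _) (by norm_num)

theorem Ph_coe (τ : T) (N : ℕ) : ∃ k : ℤ, (Ph (fun n => fe n • τ) N : T) = τ + k • dd 1 := by
  induction N with
  | zero =>
    have : lf 0 = 0 := abs_eq_zero.1 ((lf_abs 0).trans norm_zero)
    exact ⟨0, by simp [Ph, rs, this, lf_coe]⟩
  | succ N ih =>
    obtain ⟨k, hk⟩ := ih
    refine ⟨k - dg (fun n => fe n • τ) N * fe (N + 1), ?_⟩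
    rw [(rec_rs 0 1 τ).Ph_eq N.le_succ, Nat.Ico_succ_singleton, Finset.sum_singleton,
      AddCircle.coe_add, ← zsmul_eq_mul, AddCircle.coe_zsmul] at hk
    rw [sub_smul, mul_smul, ← dd_eq, ← add_sub_assoc, ← hk]
    exact (add_sub_cancel_right _ _).symm

theorem mem_of_small {τ : T} (h : ∀ᶠ n in atTop, ‖fe n • τ‖ ≤ 1 / 6) : ∃ k : ℤ, τ = k • dd 1 := by
  obtain ⟨N, hN⟩ := eventually_atTop.1 h
  obtain ⟨k, hk⟩ := Ph_coe τ N
  rw [(rec_rs 0 1 τ).Ph_zero hN] at hk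
  exact ⟨-k, by rw [neg_smul, eq_neg_iff_add_eq_zero, ← hk]; rfl⟩

theorem exists_big_fe {τ : T} (h : τ ≠ 0) : ∃ n, 1 / 6 < ‖fe n • τ‖ := by
  by_contra hc
  push Not at hc
  have h1 := (rec_rs 0 1 τ).Ph_zero (N := 0) fun n _ => hc n
  have : lf 0 = 0 := abs_eq_zero.1 ((lf_abs 0).trans norm_zero)
  simp only [Ph, rs, this, pow_zero, zero_smul, one_smul, mul_zero, sub_zero, one_mul] at h1
  exact h (by rw [← lf_coe τ, h1]; rfl)

theorem Rec.tail_le {θ : ℕ → T} (h : Rec θ) (g : ℤ) {r N : ℕ} (hr : r ≤ N) {β : ℝ}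
    (hβ : ∀ W : Finset ℕ, (∀ n ∈ W, N ≤ n ∧ dg θ n ≠ 0) →
      ∑ n ∈ W, (‖g • dd (n + 1 - r)‖ + ‖g • dd (n + 1 + r)‖) ≤ β) :
    ‖g • lu r • (Ph θ N : T)‖ ≤ 3 * β := by
  have h0 : Tendsto (fun M => ‖g • lu r • (Ph θ M : T)‖ + 3 * β) atTop (𝓝 (3 * β)) := by
    have h1 : Continuous fun x : ℝ => ‖g • lu r • (x : T)‖ + 3 * β := by
      have : Continuous fun x : ℝ => (x : T) := AddCircle.continuous_mk' 1
      fun_prop
    simpa [Function.comp_def] using (h1.tendsto 0).comp (Ph_tendsto θ)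
  refine ge_of_tendsto h0 ?_
  filter_upwards [eventually_ge_atTop N] with M hM
  rw [h.Ph_eq hM, AddCircle.coe_add, smul_add, smul_add]
  refine (norm_add_le _ _).trans (add_le_add le_rfl ?_)
  have h2 : g • lu r • ((∑ n ∈ Finset.Ico N M, dg θ n * mu ^ (n + 1) : ℝ) : T) =
      ∑ n ∈ (Finset.Ico N M).filter (dg θ · ≠ 0),
        dg θ n • (g • dd (n + 1 - r) + g • dd (n + 1 + r)) := by
    rw [Finset.sum_filter_of_ne (p := (dg θ · ≠ 0)) fun n _ hn (h' : dg θ n = 0) =>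
      hn (by rw [h', zero_smul]), QuotientAddGroup.mk_sum, Finset.smul_sum, Finset.smul_sum]
    refine Finset.sum_congr rfl fun n hn => ?_
    obtain ⟨k, hk⟩ : ∃ k, n + 1 = k + r := ⟨n + 1 - r, by have := Finset.mem_Ico.1 hn; omega⟩
    rw [← smul_add, smul_comm (dg θ n), hk, Nat.add_sub_cancel, dd, dd, ← AddCircle.coe_add,
      ← lu_mul, ← AddCircle.coe_zsmul, ← AddCircle.coe_zsmul (n := dg θ n)]
    congr 2
    simp only [zsmul_eq_mul]; ring
  rw [h2]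
  refine (norm_sum_le _ _).trans (le_trans ?_ (mul_le_mul_of_nonneg_left
    (hβ ((Finset.Ico N M).filter (dg θ · ≠ 0)) fun n hn => ?_) (by norm_num)))
  · rw [Finset.mul_sum]
    refine Finset.sum_le_sum fun n _ => (norm_zsmul_le _ _).trans ?_
    exact mul_le_mul (h.dg_le n) (norm_add_le _ _) (norm_nonneg _) (by norm_num)
  · exact ⟨(Finset.mem_Ico.1 (Finset.mem_filter.1 hn).1).1, (Finset.mem_filter.1 hn).2⟩

theorem sum_geom (I : Finset ℕ) (k₁ : ℕ) (h : ∀ k ∈ I, k₁ ≤ k) :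
    ∑ k ∈ I, (1 / 2 : ℝ) ^ k ≤ 2 * (1 / 2) ^ k₁ := by
  have h1 : I ⊆ Finset.Ico k₁ (I.sup id + 1) := fun k hk =>
    Finset.mem_Ico.2 ⟨h k hk, Nat.lt_succ_of_le (Finset.le_sup (f := id) hk)⟩
  refine (Finset.sum_le_sum_of_subset_of_nonneg h1 fun _ _ _ => by positivity).trans ?_
  refine (geom_sum_Ico_le_of_lt_one (by norm_num) (by norm_num)).trans_eq ?_
  ring

theorem sum_fiber (W : Finset ℕ) (f : ℕ → ℕ) (F : ℕ → ℝ) (hF : ∀ j, 0 ≤ F j) (c : ℕ)
    (hc : ∀ j, ∃ I : Finset ℕ, I.card ≤ c ∧ ∀ n ∈ W, f n = j → n ∈ I) :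
    ∑ n ∈ W, F (f n) ≤ c * ∑ j ∈ W.image f, F j := by
  rw [Finset.sum_comp F f, Finset.mul_sum]
  refine Finset.sum_le_sum fun j _ => ?_
  obtain ⟨I, h1, h2⟩ := hc j
  rw [nsmul_eq_mul]
  refine mul_le_mul_of_nonneg_right (Nat.cast_le.2 (le_trans (Finset.card_le_card ?_) h1)) (hF j)
  exact fun n hn => h2 n (Finset.mem_filter.1 hn).1 (Finset.mem_filter.1 hn).2

/-- If all sub-sums are small on the circle, the sum of the norms is small. -/
theorem sum_norm_le {θ : ℕ → T} {p : ℕ → Prop} {ε : ℝ} (hε : ε ≤ 1 / 4)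
    (h : ∀ J : Finset ℕ, (∀ n ∈ J, p n) → ‖∑ n ∈ J, θ n‖ ≤ ε) (J : Finset ℕ) (hJ : ∀ n ∈ J, p n) :
    ∑ n ∈ J, ‖θ n‖ ≤ 2 * ε := by
  have key : ∀ σ : ℝ, |σ| = 1 → ∀ J : Finset ℕ, (∀ n ∈ J, p n ∧ ‖θ n‖ = σ * lf (θ n)) →
      ∑ n ∈ J, ‖θ n‖ ≤ ε := fun σ hσ J => by
    induction J using Finset.induction_on with
    | empty => intro _; simpa using h ∅ (by simp)
    | insert a J ha ih =>
      intro hJ
      have h1 := ih fun n hn => hJ n (Finset.mem_insert_of_mem hn)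
      have h2 := h {a} (by simpa using (hJ a (Finset.mem_insert_self _ _)).1)
      have h3 := h _ fun n hn => (hJ n hn).1
      have h4 : ∑ n ∈ insert a J, ‖θ n‖ = |∑ n ∈ insert a J, lf (θ n)| := by
        rw [← abs_of_nonneg (Finset.sum_nonneg fun n _ => norm_nonneg (θ n)),
          Finset.sum_congr rfl fun n hn => (hJ n hn).2, ← Finset.mul_sum, abs_mul, hσ, one_mul]
      have h5 : ∑ n ∈ insert a J, θ n = ((∑ n ∈ insert a J, lf (θ n) : ℝ) : T) := by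
        rw [QuotientAddGroup.mk_sum]; simp only [lf_coe]
      rw [h5, norm_coe_of_le, ← h4] at h3
      · exact h3
      · rw [← h4, Finset.sum_insert ha]; rw [Finset.sum_singleton] at h2; linarith
  rw [← Finset.sum_filter_add_sum_filter_not J fun n => 0 ≤ lf (θ n), two_mul]
  refine add_le_add (key 1 (by simp) _ fun n hn => ?_) (key (-1) (by simp) _ fun n hn => ?_) <;>
    obtain ⟨h1, h2⟩ := Finset.mem_filter.1 hn <;> refine ⟨hJ n h1, ?_⟩ <;> rw [← lf_abs]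
  · rw [abs_of_nonneg h2, one_mul]
  · rw [abs_of_neg (not_le.1 h2), neg_one_mul]

end Pool.Agent.Lib.MP_a74260_al
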