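import Mathlib

/-! An almost disjoint family of sparse sets of naturals, coded by branches of a tree. -/

namespace Pool.Agent.Lib.MP_a74260_al

open Filter Set

/-- The code of the initial segment of length `m` of `x`. -/
def cd (x : ℕ → ℕ) : ℕ → ℕ
  | 0 => 0
  | m + 1 => Nat.pair (cd x m) (x m) + 1

theorem le_cd (x : ℕ → ℕ) (m : ℕ) : m ≤ cd x m := by
  induction m with
  | zero => exact le_rfl
  | succ m ih => exact Nat.succ_le_succ (ih.trans (Nat.left_le_pair _ _))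

theorem cd_congr {x y : ℕ → ℕ} {m : ℕ} (h : ∀ l < m, x l = y l) : cd x m = cd y m := by
  induction m with
  | zero => rfl
  | succ m ih => simp only [cd, ih fun l hl => h l (by omega), h m (by omega)]

theorem cd_inj {x y : ℕ → ℕ} {m m' : ℕ} (h : cd x m = cd y m') : m = m' ∧ ∀ l < m, x l = y l := by
  induction m generalizing m' with
  | zero => cases m' <;> simp_all [cd]
  | succ m ih =>
    cases m' with
    | zero => simp [cd] at h
    | succ m' =>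
      simp only [cd, add_left_inj, Nat.pair_eq_pair] at h
      obtain ⟨rfl, h1⟩ := ih h.1
      exact ⟨rfl, fun l hl => (Nat.lt_succ_iff_lt_or_eq.1 hl).elim (h1 l) fun e => e ▸ h.2⟩

theorem cd_ad {x y : ℕ → ℕ} (h : y ≠ x) : ∃ V, ∀ m m', cd y m = cd x m' → cd y m < V := by
  obtain ⟨l, hl⟩ := Function.ne_iff.1 h
  refine ⟨(Finset.range (l + 1)).sup (cd y) + 1, fun m m' e => Nat.lt_succ_of_le ?_⟩
  refine Finset.le_sup (f := cd y) (Finset.mem_range.2 (Nat.lt_succ_of_le ?_))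
  exact le_of_not_gt fun hm => hl ((cd_inj e).2 l hm)

/-- The 2-adic valuation. -/
def vl (b : ℤ) : ℕ := padicValInt 2 b

theorem dvd_iff_vl (V : ℕ) (b : ℤ) : 2 ^ V ∣ b ↔ b = 0 ∨ V ≤ vl b := padicValInt_dvd_iff (p := 2) V b

theorem vl_lt {V : ℕ} {b : ℤ} (h : ¬2 ^ V ∣ b) : vl b < V :=
  lt_of_not_ge fun h' => h ((dvd_iff_vl V b).2 (Or.inr h'))

theorem vl_congr {V : ℕ} {b b' : ℤ} (h : ¬2 ^ V ∣ b) (h' : 2 ^ V ∣ b' - b) : vl b' = vl b := by
  have key : ∀ {b b' : ℤ}, ¬2 ^ V ∣ b → ¬2 ^ V ∣ b' → 2 ^ V ∣ b' - b → vl b ≤ vl b' :=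
    fun {b b'} h1 h2 h3 => by
      have h4 := ((pow_dvd_pow 2 (vl_lt h1).le).trans h3).add ((dvd_iff_vl _ b).2 (Or.inr le_rfl))
      rw [sub_add_cancel, dvd_iff_vl] at h4
      exact h4.resolve_left fun e => h2 (e ▸ dvd_zero _)
  have h2 : ¬2 ^ V ∣ b' := fun e => h (by simpa using e.sub h')
  exact le_antisymm (key h2 h (by simpa using h'.neg_right)) (key h h2 h')

/-- The label of a position. -/
def lab (n : ℕ) : ℕ := vl (n / 2 : ℕ)

theorem lab_le (n : ℕ) : lab n ≤ n := by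
  rw [lab, vl, padicValInt.of_nat]
  exact (padicValNat_le_nat_log _).trans ((Nat.log_le_self _ _).trans (Nat.div_le_self _ _))

/-- Pairs of consecutive positions with label `ν` start at these points. -/
def cen (ν j : ℕ) : ℕ := 2 ^ (ν + 1) * (2 * j + 1)

theorem lab_cen (ν j : ℕ) {i : ℕ} (hi : i ≤ 1) : lab (cen ν j + i) = ν := by
  have h1 : (cen ν j + i) / 2 = 2 ^ ν * (2 * j + 1) := by
    rw [cen, pow_succ', mul_assoc]; omega
  rw [lab, h1, vl, padicValInt.of_nat, padicValNat.mul (by positivity) (by omega),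
    padicValNat.prime_pow, padicValNat.eq_zero_of_not_dvd (by omega), add_zero]

theorem cen_inj (ν : ℕ) : Function.Injective (cen ν) := fun a b h => by
  have := Nat.eq_of_mul_eq_mul_left (by positivity) h
  omega

/-- An enumeration of the finite sets. -/
def fs (k : ℕ) : Finset ℕ := Denumerable.ofNat (Finset ℕ) k

theorem fs_surj (J : Finset ℕ) : ∃ k, fs k = J := ⟨_, Denumerable.ofNat_encode J⟩

/-- The set attached to a branch. -/
def AA (x : ℕ → ℕ) : Set ℕ := {n | ∃ m, lab n = cd x m ∧ n ∈ fs (x m)}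

theorem AA_bdd (x : ℕ → ℕ) (V : ℕ) : ∃ B, ∀ n ∈ AA x, lab n < V → n < B := by
  refine ⟨((Finset.range V).biUnion fun m => fs (x m)).sup id + 1, ?_⟩
  rintro n ⟨m, h1, h2⟩ h3
  refine Nat.lt_succ_of_le (Finset.le_sup (f := id) (Finset.mem_biUnion.2 ⟨m, ?_, h2⟩))
  exact Finset.mem_range.2 ((le_cd x m).trans_lt (h1 ▸ h3))

theorem AA_congr {x y : ℕ → ℕ} {n : ℕ} (h : ∀ l ≤ n, x l = y l) (hn : n ∈ AA x) : n ∈ AA y := by
  obtain ⟨m, h1, h2⟩ := hn
  have h3 : m ≤ n := (le_cd x m).trans (h1 ▸ lab_le n)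
  exact ⟨m, h1.trans (cd_congr fun l hl => h l (by omega)), h m h3 ▸ h2⟩

/-- Labels near `h k` that lie on the branch `y` stay bounded. -/
def Bd (h : ℕ → ℤ) (y : ℕ → ℕ) : Prop :=
  ∀ s : ℤ, ∃ V, ∀ᶠ k in atTop, ∀ m, vl (h k + s) = cd y m → vl (h k + s) < V

theorem exists_bd (h : ℕ → ℤ) :
    ∃ φ : ℕ → ℕ, StrictMono φ ∧ ∃ y₀, ∀ y ≠ y₀, Bd (fun k => h (φ k)) y := by
  obtain ⟨φ, hφ, s₀, h1⟩ : ∃ φ : ℕ → ℕ, StrictMono φ ∧ ∃ s₀ : ℤ, ∀ s ≠ s₀, ∃ V,
      ∀ᶠ k in atTop, vl (h (φ k) + s) < V := by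
    by_cases hc : ∃ s₀ : ℤ, ∀ V, ∃ᶠ k in atTop, 2 ^ V ∣ h k + s₀
    · obtain ⟨s₀, hc⟩ := hc
      obtain ⟨φ, hφ, h1⟩ := extraction_forall_of_frequently hc
      refine ⟨φ, hφ, s₀, fun s hs => ⟨vl (s - s₀) + 1, ?_⟩⟩
      filter_upwards [eventually_ge_atTop (vl (s - s₀) + 1)] with k hk
      refine vl_lt fun e => ?_
      have h2 := e.sub ((pow_dvd_pow 2 hk).trans (h1 k))
      rw [add_sub_add_left_eq_sub, dvd_iff_vl] at h2
      rcases h2 with h2 | h2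
      exacts [hs (sub_eq_zero.1 h2), by omega]
    · simp only [not_exists, not_forall, not_frequently] at hc
      exact ⟨id, strictMono_id, 0, fun s _ => (hc s).imp fun V hV => hV.mono fun k => vl_lt⟩
  obtain ⟨ψ, hψ, y₀, h2⟩ : ∃ ψ : ℕ → ℕ, StrictMono ψ ∧ ∃ y₀, ∀ y ≠ y₀, ∃ V,
      ∀ᶠ k in atTop, ∀ m, vl (h (φ (ψ k)) + s₀) = cd y m → vl (h (φ (ψ k)) + s₀) < V := by
    by_cases hc : ∃ y₀, ∃ᶠ k in atTop, ∃ m, vl (h (φ k) + s₀) = cd y₀ m
    · obtain ⟨y₀, hc⟩ := hc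
      obtain ⟨ψ, hψ, h2⟩ := extraction_of_frequently_atTop hc
      refine ⟨ψ, hψ, y₀, fun y hy => (cd_ad hy).imp fun V hV => .of_forall fun k m e => ?_⟩
      obtain ⟨m', e'⟩ := h2 k
      exact e ▸ hV m m' (e.symm.trans e')
    · simp only [not_exists, not_frequently] at hc
      exact ⟨id, strictMono_id, 0, fun y _ => ⟨0, (hc y).mono fun k hk m e => absurd e (hk m)⟩⟩
  refine ⟨φ ∘ ψ, hφ.comp hψ, y₀, fun y hy s => ?_⟩
  rcases eq_or_ne s s₀ with rfl | hs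
  · exact h2 y hy
  · exact (h1 s hs).imp fun V hV => (hψ.tendsto_atTop.eventually hV).mono fun k hk _ _ => hk

/-- The sequence `n` moves away from the set attached to `y`. -/
def Far (n : ℕ → ℕ) (y : ℕ → ℕ) : Prop := ∀ ρ, ∀ᶠ k in atTop, ∀ a ∈ AA y, ρ ≤ Nat.dist (n k) a

theorem far_of_bd {n : ℕ → ℕ} (hn : Tendsto n atTop atTop) {y : ℕ → ℕ}
    (h : Bd (fun k => (n k / 2 : ℕ)) y) : Far n y := by
  intro ρ
  choose V hV using h
  obtain ⟨B, hB⟩ := AA_bdd y ((Finset.Icc (-ρ : ℤ) ρ).sup V)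
  filter_upwards [(eventually_all_finset (Finset.Icc (-ρ : ℤ) ρ)).2 fun s _ => hV s,
    hn.eventually_ge_atTop (B + ρ)] with k h1 h2 a ha
  refine le_of_not_gt fun hd => ?_
  have h3 : ((a / 2 : ℕ) : ℤ) - (n k / 2 : ℕ) ∈ Finset.Icc (-ρ : ℤ) ρ := by
    rw [Finset.mem_Icc]; unfold Nat.dist at hd; omega
  obtain ⟨m, h4, -⟩ := id ha
  have h5 := h1 _ h3 m
  rw [add_sub_cancel] at h5
  have := hB a ha ((h5 h4).trans_le (Finset.le_sup h3))
  unfold Nat.dist at hd; omega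

theorem exists_far {n : ℕ → ℕ} (hn : Tendsto n atTop atTop) :
    ∃ φ : ℕ → ℕ, StrictMono φ ∧ ∃ y₀, ∀ y ≠ y₀, Far (fun k => n (φ k)) y := by
  obtain ⟨φ, hφ, y₀, h⟩ := exists_bd fun k => (n k / 2 : ℕ)
  exact ⟨φ, hφ, y₀, fun y hy => far_of_bd (hn.comp hφ.tendsto_atTop) (h y hy)⟩

theorem exists_rho {p : ℕ → Prop}
    (hp : ∀ n : ℕ → ℕ, Tendsto n atTop atTop → (∀ y, Far n y) → ∃ k, ¬p (n k)) :
    ∃ ρ : ℕ, ∀ V, ∀ᶠ n in atTop, p n → ∃ s : ℤ, |s| ≤ ρ ∧ 2 ^ V ∣ (n / 2 : ℕ) + s := by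
  classical
  by_contra hc
  simp only [not_exists, not_forall, not_eventually, not_and, exists_prop] at hc
  choose V hV using hc
  have h1 : ∀ k : ℕ, ∃ r : ℤ, (∀ s : ℤ, |s| ≤ k → ¬2 ^ V k ∣ r + s) ∧
      ∃ᶠ n in atTop, p n ∧ 2 ^ V k ∣ (n / 2 : ℕ) - r := fun k => by
    by_contra hc
    simp only [not_exists, not_and, not_frequently] at hc
    have h2 := (eventually_all_finset ((Finset.Ico (0 : ℤ) (2 ^ V k)).filter fun r =>
      ∀ s : ℤ, |s| ≤ k → ¬2 ^ V k ∣ r + s)).2 fun r hr => hc r (Finset.mem_filter.1 hr).2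
    obtain ⟨n, ⟨h3, h4⟩, h5⟩ := ((hV k).and_eventually h2).exists
    have h6 : (2 : ℤ) ^ V k ∣ (n / 2 : ℕ) - (n / 2 : ℕ) % 2 ^ V k := Int.dvd_self_sub_emod
    refine h5 _ (Finset.mem_filter.2 ⟨Finset.mem_Ico.2 ⟨Int.emod_nonneg _ (by positivity),
      Int.emod_lt_of_pos _ (by positivity)⟩, fun s hs e => h4 s hs ?_⟩) h3 h6
    simpa only [← add_assoc, sub_add_cancel] using h6.add e
  choose r hr hf using h1
  obtain ⟨φ, hφ, y₀, h⟩ := exists_bd r
  choose B hB using AA_bdd y₀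
  choose n hn hn' using fun k => ((hf k).and_eventually (eventually_ge_atTop (B (V k) + k))).exists
  have ht : Tendsto (fun k => n (φ k)) atTop atTop :=
    tendsto_atTop_mono (fun k => by have := hn' (φ k); omega) hφ.tendsto_atTop
  have hv : ∀ k : ℕ, ∀ s : ℤ, |s| ≤ k → vl ((n k / 2 : ℕ) + s) = vl (r k + s) := fun k s hs =>
    vl_congr (hr k s hs) (by simpa only [add_sub_add_right_eq_sub] using (hn k).2)
  obtain ⟨k, hk⟩ := hp _ ht fun y => by
    rcases eq_or_ne y y₀ with rfl | hy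
    · intro ρ
      filter_upwards [hφ.tendsto_atTop.eventually_ge_atTop ρ] with k hk a ha
      refine le_of_not_gt fun hd => ?_
      have h3 : |((a / 2 : ℕ) : ℤ) - (n (φ k) / 2 : ℕ)| ≤ φ k := by
        rw [abs_le]; unfold Nat.dist at hd; omega
      have h4 := (hv _ _ h3).trans_lt (vl_lt (hr _ _ h3))
      rw [add_sub_cancel] at h4
      have := hB _ a ha h4
      have := hn' (φ k)
      unfold Nat.dist at hd; omega
    · refine far_of_bd ht fun s => (h y hy s).imp fun W hW => ?_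
      filter_upwards [hW, hφ.tendsto_atTop.eventually_ge_atTop s.natAbs] with k h1 h2
      rwa [hv _ s (by rw [Int.abs_eq_natAbs]; exact_mod_cast h2)]
  exact hk (hn _).1

end Pool.Agent.Lib.MP_a74260_al
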