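import Pool.Agent.Lib.MP_a74260_al.Fib
import Pool.Agent.Lib.MP_a74260_al.Tree
import Pool.Agent.Lib.MP_a74260_al.Dual

/-! The family of sequences, and the structure of compact sets. -/

namespace Pool.Agent.Lib.MP_a74260_al

open Filter Topology Set

/-- The points of the circle killed in the limit by all sequences of `S`. -/
def Pn (S : Set (ℕ → ℤ)) : AddSubgroup T where
  carrier := {x | ∀ u ∈ S, Tendsto (fun k => u k • x) atTop (𝓝 0)}
  zero_mem' := fun u _ => by simp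
  add_mem' := fun ha hb u hu => by simpa using (ha u hu).add (hb u hu)
  neg_mem' := fun ha u hu => by simpa using (ha u hu).neg

/-- The character of `ℤ` given by a point of the circle. -/
def cz : T →+ (ℤ →+ T) :=
  AddMonoidHom.mk' (fun x => zmultiplesHom T x) fun a b => by ext; simp

@[simp] theorem cz_apply (x : T) (g : ℤ) : cz x g = g • x := rfl

/-- The point attached to a branch. -/
noncomputable def al (x : ℕ → ℕ) : ℝ := ∑' n, (AA x).indicator (mu ^ ·) n

/-- All sequences that are null for `mu` and for the points attached to branches. -/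
def SS : Set (ℕ → ℤ) := {u | Tendsto (fun k => u k • dd 1) atTop (𝓝 0) ∧
  ∀ x, Tendsto (fun k => u k • (al x : T)) atTop (𝓝 0)}

abbrev HH : AddSubgroup (ℤ →+ T) := (Pn SS).map cz

theorem dd_one_mem : dd 1 ∈ Pn SS := fun _ hu => hu.1

theorem dd_mem (n : ℕ) : dd n ∈ Pn SS := dd_eq n ▸ (Pn SS).zsmul_mem dd_one_mem _

theorem al_mem (x : ℕ → ℕ) : (al x : T) ∈ Pn SS := fun _ hu => hu.2 x

theorem cont_smul {y : T} (hy : y ∈ Pn SS) :
    Continuous[tau (HH : Set (ℤ →+ T)), _] fun g : ℤ => g • y :=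
  cont_tau (χ := cz y) ⟨y, hy, rfl⟩

theorem summable_mu : Summable fun n : ℕ => mu ^ n :=
  summable_geometric_of_lt_one mu_pos.le (mu_le.trans_lt (by norm_num))

theorem smul_coe_sum (g : ℤ) (J : Finset ℕ) :
    g • ((∑ n ∈ J, mu ^ n : ℝ) : T) = ∑ n ∈ J, g • dd n := by
  rw [QuotientAddGroup.mk_sum, Finset.smul_sum]; rfl

theorem norm_al_le (x : ℕ → ℕ) (g : ℤ) {β : ℝ}
    (h : ∀ W : Finset ℕ, (∀ n ∈ W, n ∈ AA x) → ∑ n ∈ W, ‖g • dd n‖ ≤ β) : ‖g • (al x : T)‖ ≤ β := by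
  classical
  have h1 : Continuous fun t : ℝ => ‖g • (t : T)‖ := by
    have : Continuous fun x : ℝ => (x : T) := AddCircle.continuous_mk' 1
    fun_prop
  refine le_of_tendsto' ((h1.tendsto _).comp
    (summable_mu.indicator (AA x)).hasSum.tendsto_sum_nat) fun N => ?_
  have h2 : ∑ n ∈ Finset.range N, (AA x).indicator (mu ^ ·) n =
      ∑ n ∈ (Finset.range N).filter (· ∈ AA x), mu ^ n := by
    simp only [Finset.sum_filter, indicator_apply]
  show ‖g • ((∑ n ∈ Finset.range N, (AA x).indicator (mu ^ ·) n : ℝ) : T)‖ ≤ β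
  rw [h2, smul_coe_sum]
  exact (norm_sum_le _ _).trans (h _ fun n hn => (Finset.mem_filter.1 hn).2)

theorem exists_pow_lt {η : ℝ} (hη : 0 < η) (c : ℝ) : ∃ ρ : ℕ, ∀ m ≥ ρ, c * (1 / 2) ^ m < η := by
  have h := (tendsto_pow_atTop_nhds_zero_of_lt_one (r := (1 / 2 : ℝ)) (by norm_num)
    (by norm_num)).const_mul c
  rw [mul_zero] at h
  exact eventually_atTop.1 (h.eventually (gt_mem_nhds hη))

theorem Far.null {n : ℕ → ℕ} {y : ℕ → ℕ} (h : Far n y) :
    Tendsto (fun k => fe (n k) • (al y : T)) atTop (𝓝 0) := by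
  refine NormedAddGroup.tendsto_nhds_zero.2 fun η hη => ?_
  obtain ⟨ρ, hρ⟩ := exists_pow_lt hη 4
  filter_upwards [h ρ] with k hk
  refine (norm_al_le _ _ fun W hW => ?_).trans_lt (hρ ρ le_rfl)
  refine (Finset.sum_le_sum fun a _ => norm_fe_dd _ a).trans ((sum_fiber W (Nat.dist (n k))
    (fun j => (1 / 2) ^ j) (fun _ => by positivity) 2 fun j => ⟨{n k + j, n k - j},
      Finset.card_le_two, fun a _ ha => ?_⟩).trans ?_)
  · simp only [Finset.mem_insert, Finset.mem_singleton]; unfold Nat.dist at ha; omega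
  · have := sum_geom (W.image (Nat.dist (n k))) ρ (Finset.forall_mem_image.2 fun a ha =>
      hk a (hW a ha))
    push_cast; linarith

theorem fe_null {n : ℕ → ℕ} (h : Tendsto n atTop atTop) :
    Tendsto (fun k => fe (n k) • dd 1) atTop (𝓝 0) := by
  simp only [← dd_eq]
  exact ((AddCircle.continuous_mk' 1).tendsto 0).comp (summable_mu.tendsto_atTop_zero.comp h)

theorem noSeq : NoSeq HH := by
  intro ψ hψ hne hz
  choose x hx he using hψ
  obtain rfl : ψ = fun n => cz (x n) := funext fun n => (he n).symm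
  choose n hn using fun k => exists_big_fe (τ := x k) fun h => hne k (by simp only [h, map_zero])
  have hs : ∀ g : ℤ, ∀ η > 0, ∀ᶠ k in atTop, ‖g • x k‖ < η := fun g =>
    NormedAddGroup.tendsto_nhds_zero.1 (hz g)
  have ht : Tendsto n atTop atTop := tendsto_atTop.2 fun B => by
    filter_upwards [(eventually_all_finset (Finset.range B)).2 fun j _ =>
      hs (fe j) (1 / 6) (by norm_num)] with k hk
    exact le_of_not_gt fun h => (hn k).not_gt (hk _ (Finset.mem_range.2 h))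
  obtain ⟨φ, hφ, y₀, hf⟩ := exists_far ht
  obtain ⟨L, σ, hσ, hL⟩ := CompactSpace.tendsto_subseq fun k => fe (n (φ k)) • (al y₀ : T)
  have h1 := (hφ.comp hσ).tendsto_atTop
  choose κ hκ hκ' using fun l => ((h1.eventually (hs (fe (n (φ (σ l)))) (1 / 12)
    (by norm_num))).and (eventually_ge_atTop l)).exists
  have h2 : Tendsto κ atTop atTop := tendsto_atTop_mono hκ' tendsto_id
  let u : ℕ → ℤ := fun l => fe (n (φ (σ (κ l)))) - fe (n (φ (σ l)))
  have h3 : ∀ {y L : T}, Tendsto (fun k => fe (n (φ (σ k))) • y) atTop (𝓝 L) →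
      Tendsto (fun k => u k • y) atTop (𝓝 0) := fun h => by
    simpa [u, sub_smul] using (h.comp h2).sub h
  have hu : u ∈ SS := ⟨h3 (fe_null (ht.comp h1)), fun y => by
    rcases eq_or_ne y y₀ with rfl | hy
    exacts [h3 hL, h3 ((hf y hy).null.comp hσ.tendsto_atTop)]⟩
  letI := tau (HH : Set (ℤ →+ T))
  refine ⟨insert 0 (range u), Tendsto.isCompact_insert_range (tendsto_tau.2 ?_), 1 / 12,
    by norm_num, frequently_atTop.2 fun N => ⟨φ (σ (κ N)),
      (hκ' N).trans (hφ.comp hσ).le_apply, u N, Or.inr ⟨N, rfl⟩, ?_⟩⟩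
  · rintro _ ⟨y, hy, rfl⟩
    simpa using hy u hu
  · have h4 := norm_sub_norm_le (fe (n (φ (σ (κ N)))) • x (φ (σ (κ N))))
      (fe (n (φ (σ N))) • x (φ (σ (κ N))))
    have h5 := hn (φ (σ (κ N)))
    have h6 := hκ N
    simp only [u, cz_apply, sub_smul, Function.comp] at h6 ⊢
    linarith

theorem cont_al : Continuous al := by
  classical
  refine continuous_tsum (fun n => continuous_iff_continuousAt.2 fun x => ?_) summable_mu
    fun n x => ?_
  · refine (continuousAt_const (y := (AA x).indicator (mu ^ ·) n)).congr ?_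
    have : ∀ᶠ y in 𝓝 x, ∀ l ∈ Finset.range (n + 1), y l = x l :=
      (eventually_all_finset _).2 fun l _ =>
        ((continuous_apply l).tendsto x).eventually (p := (· = x l))
          (by rw [nhds_discrete]; exact eventually_pure.2 rfl)
    filter_upwards [this] with y hy
    have h1 : ∀ l ≤ n, y l = x l := fun l hl => hy l (Finset.mem_range.2 (by omega))
    have h2 : n ∈ AA x ↔ n ∈ AA y := ⟨AA_congr fun l hl => (h1 l hl).symm, AA_congr h1⟩
    simp only [indicator_apply, h2]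
  · exact (norm_indicator_le_norm_self _ _).trans_eq (Real.norm_of_nonneg (mu_pow_pos n).le)

theorem al_update (x : ℕ → ℕ) (m : ℕ) (hm : fs (x m) = ∅) (k : ℕ)
    (hx : ∀ l > m, fs (x l) = ∅) (hk : ∀ n ∈ fs k, lab n = cd x m) :
    al (Function.update x m k) = al x + ∑ n ∈ fs k, mu ^ n := by
  classical
  have h0 : ∀ l ≤ m, cd (Function.update x m k) l = cd x l := fun l hl =>
    cd_congr fun i hi => Function.update_of_ne (by omega) _ _
  have h1 : AA (Function.update x m k) = AA x ∪ fs k := by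
    ext n
    constructor
    · rintro ⟨l, h1, h2⟩
      rcases lt_trichotomy l m with h | rfl | h
      · exact Or.inl ⟨l, h0 l h.le ▸ h1, by rwa [Function.update_of_ne h.ne] at h2⟩
      · exact Or.inr (by simpa using h2)
      · rw [Function.update_of_ne h.ne', hx l h] at h2; simp at h2
    · rintro (⟨l, h1, h2⟩ | h)
      · rcases lt_trichotomy l m with h | rfl | h
        · exact ⟨l, (h0 l h.le).symm ▸ h1, by rwa [Function.update_of_ne h.ne]⟩
        · rw [hm] at h2; simp at h2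
        · rw [hx l h] at h2; simp at h2
      · exact ⟨m, (h0 m le_rfl).symm ▸ hk n h, by simpa using h⟩
  have h2 : Disjoint (AA x) (fs k) := disjoint_left.2 fun n ⟨l, h1, h2⟩ h => by
    rw [(cd_inj (h1.symm.trans (hk n h))).1, hm] at h2; simp at h2
  unfold al
  simp only [h1, indicator_union_of_disjoint h2]
  rw [(summable_mu.indicator _).tsum_add (summable_mu.indicator _), ← tsum_subtype (fs k : Set ℕ),
    Finset.tsum_subtype']

theorem exists_unif {C : Set ℤ} (hC : @IsCompact ℤ (tau (HH : Set (ℤ →+ T))) C) {ε : ℝ}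
    (hε : 0 < ε) {y : T} (hy : y ∈ Pn SS) : ∃ j : ℕ, ∀ g ∈ C, ∀ g' ∈ C,
      ‖(g - g') • dd 1‖ < 1 / (j + 1) → ‖(g - g') • y‖ ≤ ε := by
  letI := tau (HH : Set (ℤ →+ T))
  have hcont : ∀ y ∈ Pn SS, Continuous fun p : ℤ × ℤ => ‖(p.1 - p.2) • y‖ := fun y hy => by
    simp only [sub_smul]
    exact (((cont_smul hy).comp continuous_fst).sub ((cont_smul hy).comp continuous_snd)).norm
  have h1 : IsCompact (C ×ˢ C ∩ {p : ℤ × ℤ | ε ≤ ‖(p.1 - p.2) • y‖}) :=
    (hC.prod hC).inter_right (isClosed_le continuous_const (hcont _ hy))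
  obtain ⟨γ, hγ, h⟩ := h1.exists_forall_le' (hcont _ dd_one_mem).continuousOn (a := 0)
    fun p hp => norm_pos_iff.2 (dd_ne fun e => by
      have := hp.2
      simp only [mem_setOf_eq, e, zero_smul, norm_zero] at this
      linarith)
  obtain ⟨j, hj⟩ := exists_nat_one_div_lt hγ
  refine ⟨j, fun g hg g' hg' h2 => le_of_not_gt fun h3 => ?_⟩
  exact (h (g, g') ⟨⟨hg, hg'⟩, h3.le⟩).not_gt (h2.trans hj)

theorem exists_cyl {C : Set ℤ} (hC : @IsCompact ℤ (tau (HH : Set (ℤ →+ T))) C) {ε : ℝ}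
    (hε : 0 < ε) : ∃ (j m : ℕ) (x₀ : ℕ → ℕ), ∀ x, (∀ l < m, x l = x₀ l) → ∀ g ∈ C, ∀ g' ∈ C,
      ‖(g - g') • dd 1‖ < 1 / (j + 1) → ‖(g - g') • (al x : T)‖ ≤ ε := by
  let E : ℕ → Set (ℕ → ℕ) := fun j => {x | ∀ g ∈ C, ∀ g' ∈ C,
    ‖(g - g') • dd 1‖ < 1 / (j + 1) → ‖(g - g') • (al x : T)‖ ≤ ε}
  have hc : Continuous (Y := T) fun x => (al x : T) := (AddCircle.continuous_mk' 1).comp cont_al
  obtain ⟨j, x₀, hx₀⟩ := nonempty_interior_of_iUnion_of_closed (f := E) (fun j => by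
    simp only [E, setOf_forall]
    exact isClosed_iInter fun g => isClosed_iInter fun _ => isClosed_iInter fun g' =>
      isClosed_iInter fun _ => isClosed_iInter fun _ =>
        isClosed_le (hc.zsmul _).norm continuous_const)
    (eq_univ_of_forall fun x => mem_iUnion.2 (exists_unif hC hε (al_mem x)))
  obtain ⟨I, u, hu, hI⟩ := isOpen_pi_iff.1 isOpen_interior x₀ hx₀
  refine ⟨j, I.sup id + 1, x₀, fun x hx => (interior_subset (hI fun l hl => ?_) : x ∈ E j)⟩
  rw [hx l (Nat.lt_succ_of_le (Finset.le_sup (f := id) hl))]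
  exact (hu l hl).2

/-- Elements of a compact set are uniformly small at the positions of some label. -/
theorem key {C : Set ℤ} (hC : @IsCompact ℤ (tau (HH : Set (ℤ →+ T))) C) {ε : ℝ} (hε : 0 < ε) :
    ∃ ν, ∀ g ∈ C, ∀ J : Finset ℕ, (∀ n ∈ J, lab n = ν) → ∑ n ∈ J, ‖g • dd n‖ ≤ ε := by
  wlog h1 : ε ≤ 1 / 2 generalizing ε
  · exact (this (ε := 1 / 2) (by norm_num) le_rfl).imp fun ν h g hg J hJ =>
      (h g hg J hJ).trans (by linarith)
  obtain ⟨j, m₀, x₀, hx₀⟩ := exists_cyl hC (ε := ε / 6) (by positivity)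
  obtain ⟨Z, hZ, hZ'⟩ := exists_net {cz (dd 1)} (Nat.one_div_pos_of_nat (n := j)) C
  obtain ⟨ρ, hρ⟩ := exists_pow_lt (η := ε / 6) (by positivity) ((∑ z ∈ Z, ‖z‖) * 2)
  obtain ⟨k₀, hk₀⟩ := fs_surj ∅
  obtain ⟨m, hm, hm'⟩ : ∃ m, m₀ ≤ m ∧ ρ ≤ m := ⟨m₀ + ρ, by omega, by omega⟩
  obtain ⟨x, hx, hx'⟩ : ∃ x : ℕ → ℕ, (∀ l < m, x l = x₀ l) ∧ ∀ l ≥ m, fs (x l) = ∅ :=
    ⟨fun l => if l < m then x₀ l else k₀, fun l hl => if_pos hl,
      fun l hl => by simp only [if_neg hl.not_gt, hk₀]⟩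
  refine ⟨cd x m, fun g hg J hJ => (sum_norm_le (θ := fun n => g • dd n) (ε := ε / 2)
    (by linarith) (fun J hJ => ?_) J hJ).trans_eq (by ring)⟩
  obtain ⟨k, rfl⟩ := fs_surj J
  obtain ⟨z, hz, h2⟩ := hZ' g hg
  have h3 := h2 _ (Finset.mem_singleton_self _)
  have h4 := hx₀ (Function.update x m k) (fun l hl => by
    rw [Function.update_of_ne (by omega), hx l (by omega)]) g hg z (hZ z hz) h3
  have h5 := hx₀ x (fun l hl => hx l (by omega)) g hg z (hZ z hz) h3
  rw [al_update x m (hx' m le_rfl) k (fun l hl => hx' l hl.le) hJ, AddCircle.coe_add,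
    smul_add] at h4
  have h6 : ‖z • ((∑ n ∈ fs k, mu ^ n : ℝ) : T)‖ ≤ ε / 6 := by
    refine (norm_zsmul_le _ _).trans (le_trans ?_ (hρ m hm').le)
    rw [mul_assoc]
    refine mul_le_mul (Finset.single_le_sum (f := fun z : ℤ => ‖z‖) (fun _ _ => norm_nonneg _) hz)
      ((norm_coe_le _).trans ?_) (norm_nonneg _) (Finset.sum_nonneg fun _ _ => norm_nonneg _)
    rw [abs_of_nonneg (Finset.sum_nonneg fun n _ => (mu_pow_pos n).le)]
    exact (Finset.sum_le_sum fun n _ => mu_pow_le n).trans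
      (sum_geom _ _ fun n hn => (le_cd x m).trans (hJ n hn ▸ lab_le n))
  rw [← smul_coe_sum]
  generalize ((∑ n ∈ fs k, mu ^ n : ℝ) : T) = w at h4 h6 ⊢
  have h7 := norm_add_le ((g - z) • w) (z • w)
  rw [← add_smul, sub_add_cancel] at h7
  have h8 := norm_sub_le ((g - z) • (al x : T) + (g - z) • w) ((g - z) • (al x : T))
  rw [add_sub_cancel_left] at h8
  linarith

theorem Rec.near {θ : ℕ → T} (h : Rec θ) {ν : ℕ} {β : ℝ}
    (hβ : ∀ J : Finset ℕ, (∀ n ∈ J, lab n = ν) → ∑ n ∈ J, ‖θ n‖ ≤ β) (R : ℕ) (W : Finset ℕ)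
    (hW : ∀ n ∈ W, ∃ j, Nat.dist n (cen ν j) ≤ R) :
    ∑ n ∈ W, ‖θ n‖ ≤ 4 ^ R * ((2 * R + 1 : ℕ) * (2 * β)) := by
  choose! j hj using hW
  have h1 : ∀ n ∈ W, ‖θ n‖ ≤ 4 ^ R * sn θ (cen ν (j n)) := fun n hn =>
    (le_add_of_nonneg_right (norm_nonneg _)).trans ((h.sn_le n _).trans
      (mul_le_mul_of_nonneg_right (pow_le_pow_right₀ (by norm_num) (hj n hn)) (sn_nonneg _ _)))
  refine (Finset.sum_le_sum h1).trans ?_
  rw [← Finset.mul_sum]
  refine mul_le_mul_of_nonneg_left ((sum_fiber W j (fun i => sn θ (cen ν i))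
    (fun _ => sn_nonneg _ _) (2 * R + 1) fun i => ⟨Finset.Icc (cen ν i - R) (cen ν i + R),
      by rw [Nat.card_Icc]; omega, fun n hn e => ?_⟩).trans
    (mul_le_mul_of_nonneg_left ?_ (by positivity))) (by positivity)
  · have := hj n hn
    rw [e] at this; rw [Finset.mem_Icc]; unfold Nat.dist at this; omega
  · have h2 : ∀ i ≤ 1, ∑ a ∈ W.image j, ‖θ (cen ν a + i)‖ ≤ β := fun i hi => by
      rw [← Finset.sum_image (f := fun n => ‖θ n‖) (g := fun a => cen ν a + i)
        fun a _ b _ e => cen_inj ν (Nat.add_right_cancel e)]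
      exact hβ _ (Finset.forall_mem_image.2 fun a _ => lab_cen ν a hi)
    simp only [sn, Finset.sum_add_distrib, two_mul]
    exact add_le_add (h2 0 zero_le_one) (h2 1 le_rfl)

theorem near_cen (ν n : ℕ) : ∃ j, Nat.dist n (cen ν j) ≤ 2 ^ (ν + 1) := by
  refine ⟨n / (2 * 2 ^ (ν + 1)), ?_⟩
  have h1 := Nat.div_add_mod n (2 * 2 ^ (ν + 1))
  have h2 := Nat.mod_lt n (show 0 < 2 * 2 ^ (ν + 1) by positivity)
  have h3 : cen ν (n / (2 * 2 ^ (ν + 1))) =
      2 * 2 ^ (ν + 1) * (n / (2 * 2 ^ (ν + 1))) + 2 ^ (ν + 1) := by unfold cen; ring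
  unfold Nat.dist; omega

end Pool.Agent.Lib.MP_a74260_al
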