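import Mathlib

/-! Kronecker approximation, and elementary facts on the circle `ℝ / ℤ`. -/

namespace Pool.Agent.Lib.MP_a74260_al

open Filter Topology Set MeasureTheory

abbrev T := UnitAddCircle

theorem exists_rep (x : T) : ∃ r : ℝ, (r : T) = x ∧ |r| = ‖x‖ ∧ |r| ≤ 1 / 2 := by
  obtain ⟨s, rfl⟩ := QuotientAddGroup.mk_surjective x
  refine ⟨s - round s, ?_, (UnitAddCircle.norm_eq).symm, abs_sub_round s⟩
  rw [AddCircle.coe_sub]
  have : ((round s : ℝ) : T) = 0 := by
    rw [AddCircle.coe_eq_zero_iff]; exact ⟨round s, by simp⟩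
  rw [this, sub_zero]

theorem norm_coe_le (r : ℝ) : ‖(r : T)‖ ≤ |r| := by
  rw [UnitAddCircle.norm_eq]
  simpa using round_le r 0

theorem norm_coe_of_le {r : ℝ} (h : |r| ≤ 1 / 2) : ‖(r : T)‖ = |r| :=
  (AddCircle.norm_coe_eq_abs_iff 1 one_ne_zero).2 (by simpa using h)

theorem coe_int (m : ℤ) : ((m : ℝ) : T) = 0 := by
  rw [AddCircle.coe_eq_zero_iff]; exact ⟨m, by simp⟩

theorem norm_two_smul {x : T} (h : ‖x‖ ≤ 1 / 4) : ‖x + x‖ = 2 * ‖x‖ := by
  obtain ⟨r, rfl, h1, -⟩ := exists_rep x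
  rw [← AddCircle.coe_add, norm_coe_of_le, ← h1]
  · rw [← two_mul, abs_mul]; simp
  · rw [← two_mul, abs_mul]; simp only [abs_two]; linarith

/-- If the multiples `k • x`, `k ≤ 2 ^ m`, have norm at most `c ≤ 1 / 4`, then `‖x‖ ≤ c / 2 ^ m`. -/
theorem norm_le_of_multiples {c : ℝ} (hc : c ≤ 1 / 4) (m : ℕ) :
    ∀ x : T, (∀ k : ℕ, k ≤ 2 ^ m → ‖k • x‖ ≤ c) → ‖x‖ ≤ c / 2 ^ m := by
  induction m with
  | zero => intro x h; simpa using h 1 (by simp)
  | succ m ih =>
    intro x h
    have h1 : ‖x‖ ≤ 1 / 4 := by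
      have := h 1 Nat.one_le_two_pow
      rw [one_smul] at this; linarith
    have h2 := ih (x + x) (fun k hk => by
      have := h (k * 2) (by rw [pow_succ]; omega)
      rwa [mul_smul, two_smul] at this)
    rw [norm_two_smul h1] at h2
    rw [pow_succ, ← div_div]; linarith

theorem eq_zero_of_multiples {x : T} (h : ∀ k : ℕ, ‖k • x‖ ≤ 1 / 4) : x = 0 := by
  have h1 : ∀ m : ℕ, ‖x‖ ≤ (1 / 4) / 2 ^ m := fun m =>
    norm_le_of_multiples le_rfl m x fun k _ => h k
  have h2 : Tendsto (fun m : ℕ => (1 / 4 : ℝ) / 2 ^ m) atTop (𝓝 0) :=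
    tendsto_const_nhds.div_atTop (tendsto_pow_atTop_atTop_of_one_lt one_lt_two)
  exact norm_le_zero_iff.1 (ge_of_tendsto' h2 h1)

theorem hom_eq_zero {G : Type*} [AddCommGroup G] (χ : G →+ T) (h : ∀ g, ‖χ g‖ ≤ 1 / 4) : χ = 0 := by
  ext g
  exact eq_zero_of_multiples fun k => by rw [← map_nsmul]; exact h _

/-- The complex exponential of a continuous homomorphism into the circle. -/
noncomputable def cexp {X : Type*} [AddCommGroup X] [TopologicalSpace X] (κ : X →+ T)
    (hκ : Continuous κ) : C(X, ℂ) :=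
  ⟨fun p => (AddCircle.toCircle (κ p) : ℂ),
    continuous_subtype_val.comp (AddCircle.continuous_toCircle.comp hκ)⟩

theorem integral_char_eq_zero {M : Type*} [AddCommGroup M] [TopologicalSpace M]
    [IsTopologicalAddGroup M] [MeasurableSpace M] [BorelSpace M] (μ : Measure M)
    [μ.IsAddLeftInvariant] (κ : M →+ T) (a : M) (ha : κ a ≠ 0) :
    ∫ m, (AddCircle.toCircle (κ m) : ℂ) ∂μ = 0 := by
  have h1 := integral_add_left_eq_self (μ := μ) (fun m => (AddCircle.toCircle (κ m) : ℂ)) a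
  simp only [map_add, AddCircle.toCircle_add, Circle.coe_mul] at h1
  rw [integral_const_mul] at h1
  have h2 : (AddCircle.toCircle (κ a) : ℂ) ≠ 1 := by
    intro h
    apply ha
    apply AddCircle.injective_toCircle one_ne_zero
    rw [AddCircle.toCircle_zero]
    exact Circle.ext h
  have h3 : ((AddCircle.toCircle (κ a) : ℂ) - 1) * ∫ m, (AddCircle.toCircle (κ m) : ℂ) ∂μ = 0 := by
    rw [sub_mul, h1]; ring
  exact (mul_eq_zero.1 h3).resolve_left (sub_ne_zero.2 h2)

/-- A point outside a closed subgroup is detected by a character from any separating group of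
characters. -/
theorem exists_char_sep {X : Type*} [AddCommGroup X] [TopologicalSpace X] [IsTopologicalAddGroup X]
    [CompactSpace X] [T2Space X] (K : AddSubgroup (X →+ T)) (hK : ∀ κ ∈ K, Continuous κ)
    (hsep : ∀ p : X, p ≠ 0 → ∃ κ ∈ K, κ p ≠ 0) (M : AddSubgroup X) (hM : IsClosed (M : Set X))
    (x : X) (hx : x ∉ M) : ∃ κ ∈ K, (∀ m ∈ M, κ m = 0) ∧ κ x ≠ 0 := by
  by_contra hcon
  push Not at hcon
  haveI : CompactSpace M := isCompact_iff_compactSpace.1 hM.isCompact
  borelize (↥M)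
  let μ : Measure M := Measure.addHaar
  let E : Set C(X, ℂ) := range fun κ : K => cexp κ.1 (hK κ.1 κ.2)
  let A : StarSubalgebra ℂ C(X, ℂ) :=
    { toSubalgebra := Algebra.adjoin ℂ E
      star_mem' := by
        change Algebra.adjoin ℂ E ≤ star (Algebra.adjoin ℂ E)
        refine Algebra.adjoin_le ?_
        rintro - ⟨κ, rfl⟩
        refine Algebra.subset_adjoin ⟨-κ, ContinuousMap.ext fun p => ?_⟩
        simp [cexp, AddCircle.toCircle_neg, ← Circle.coe_inv_eq_conj] }
  have hA : Subalgebra.toSubmodule A.toSubalgebra = Submodule.span ℂ E := by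
    apply Algebra.adjoin_eq_span_of_subset
    refine Subset.trans ?_ Submodule.subset_span
    intro f hf
    refine Submonoid.closure_induction (fun _ => id) ⟨0, ?_⟩ ?_ hf
    · ext1 p; simp [cexp]
    · rintro - - - - ⟨a, rfl⟩ ⟨b, rfl⟩
      refine ⟨a + b, ?_⟩
      ext1 p; simp [cexp, AddCircle.toCircle_add]
  have hAs : A.SeparatesPoints := by
    intro p q hpq
    obtain ⟨κ, hκ, h⟩ := hsep (p - q) (sub_ne_zero.2 hpq)
    refine ⟨_, ⟨cexp κ (hK κ hκ), Algebra.subset_adjoin ⟨⟨κ, hκ⟩, rfl⟩, rfl⟩, ?_⟩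
    intro he
    apply h
    rw [map_sub, sub_eq_zero]
    exact AddCircle.injective_toCircle one_ne_zero (Circle.ext he)
  have hd := ContinuousMap.starSubalgebra_topologicalClosure_eq_top_of_separatesPoints A hAs
  have hd' : closure (Submodule.span ℂ E : Set C(X, ℂ)) = univ := by
    rw [← hA]
    have := congrArg (fun S : StarSubalgebra ℂ C(X, ℂ) => (S : Set C(X, ℂ))) hd
    simpa using this
  -- the functional
  let i1 : C(M, X) := ⟨fun m => x + m, continuous_const.add continuous_subtype_val⟩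
  let i0 : C(M, X) := ⟨fun m => m, continuous_subtype_val⟩
  let I : C(M, ℂ) → ℂ := fun f => ∫ m, f m ∂μ
  have hint : ∀ f : C(M, ℂ), Integrable f μ := fun f =>
    f.continuous.integrable_of_hasCompactSupport (HasCompactSupport.of_compactSpace _)
  have hI : Continuous I := by
    refine (LipschitzWith.of_dist_le_mul (K := (μ univ).toNNReal) fun f g => ?_).continuous
    simp only [I, dist_eq_norm]
    rw [← integral_sub (hint f) (hint g)]
    refine (norm_integral_le_of_norm_le_const (C := ‖f - g‖) (.of_forall fun m => ?_)).trans ?_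
    · exact (f - g).norm_coe_le_norm m
    · rw [mul_comm]; rfl
  have hcl : IsClosed {f : C(X, ℂ) | I (f.comp i1) = I (f.comp i0)} :=
    isClosed_eq (hI.comp i1.continuous_precomp) (hI.comp i0.continuous_precomp)
  have hsub : (Submodule.span ℂ E : Set C(X, ℂ)) ⊆ {f | I (f.comp i1) = I (f.comp i0)} := by
    intro f hf
    induction hf using Submodule.span_induction with
    | mem f hf =>
      obtain ⟨κ, rfl⟩ := hf
      simp only [mem_setOf_eq, I, ContinuousMap.comp_apply, i1, i0, cexp, ContinuousMap.coe_mk,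
        map_add, AddCircle.toCircle_add, Circle.coe_mul]
      rw [integral_const_mul]
      by_cases h : ∀ m ∈ M, κ.1 m = 0
      · rw [hcon κ.1 κ.2 h]; simp
      · push Not at h
        obtain ⟨a, ha, h⟩ := h
        have := integral_char_eq_zero μ (κ.1.comp M.subtype) ⟨a, ha⟩ h
        simp only [AddMonoidHom.coe_comp, Function.comp, AddSubgroup.coe_subtype] at this
        rw [this, mul_zero]
    | zero => simp [I]
    | add f g _ _ hf hg =>
      simp only [mem_setOf_eq, I, ContinuousMap.add_comp, ContinuousMap.add_apply] at hf hg ⊢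
      rw [integral_add (hint _) (hint _), integral_add (hint _) (hint _), hf, hg]
    | smul c f _ hf =>
      simp only [mem_setOf_eq, I, ContinuousMap.smul_comp, ContinuousMap.smul_apply] at hf ⊢
      rw [integral_smul, integral_smul, hf]
  have hall : ∀ f : C(X, ℂ), I (f.comp i1) = I (f.comp i0) := fun f =>
    closure_minimal hsub hcl (hd' ▸ mem_univ f)
  have hdis : Disjoint (M : Set X) ((fun m => x + m) '' M) := by
    rw [Set.disjoint_left]
    rintro _ h1 ⟨m, hm, rfl⟩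
    exact hx (by simpa using M.sub_mem h1 hm)
  obtain ⟨f, hf0, hf1, -⟩ := exists_continuous_zero_one_of_isClosed hM
    ((Homeomorph.addLeft x).isClosedMap _ hM) hdis
  have := hall ((⟨Complex.ofReal, Complex.continuous_ofReal⟩ : C(ℝ, ℂ)).comp f)
  have e1 : ∀ m : M, f (x + m) = 1 := fun m => hf1 ⟨m, m.2, rfl⟩
  have e0 : ∀ m : M, f m = 0 := fun m => hf0 m.2
  simp only [I, ContinuousMap.comp_apply, i1, i0, ContinuousMap.coe_mk, e1, e0] at this
  simp only [Complex.ofReal_one, integral_const, Complex.ofReal_zero, integral_zero,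
    Complex.real_smul, mul_one, mul_zero, Complex.ofReal_eq_zero] at this
  have hpos : μ univ ≠ 0 := isOpen_univ.measure_ne_zero μ univ_nonempty
  rw [Measure.real, ENNReal.toReal_eq_zero_iff] at this
  exact this.elim hpos (measure_ne_top μ _)

variable {G : Type*} [AddCommGroup G]

/-- Kronecker approximation for one extra character. -/
theorem kron_one (B : AddSubgroup (G →+ T)) (η : G →+ T) (θ : T)
    (hc : ∀ m : ℤ, m • η ∈ B → m • θ = 0) (F : Finset (G →+ T)) (hF : ∀ χ ∈ F, χ ∈ B) {δ : ℝ}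
    (hδ : 0 < δ) : ∃ g, (∀ χ ∈ F, ‖χ g‖ < δ) ∧ ‖η g - θ‖ < δ := by
  let X := (B → T) × T
  let ι : G →+ X := (AddMonoidHom.pi fun χ : B => χ.1).prod η
  let x : X := (0, θ)
  let K : AddSubgroup (X →+ T) :=
    { carrier := {κ | Continuous κ ∧ ∃ χ ∈ B, ∃ m : ℤ, (∀ g, κ (ι g) = χ g + m • η g) ∧ κ x = m • θ}
      zero_mem' := ⟨continuous_const, 0, B.zero_mem, 0, by simp, by simp⟩
      add_mem' := by
        rintro a b ⟨ha, χ, hχ, m, h1, h2⟩ ⟨hb, χ', hχ', m', h1', h2'⟩
        refine ⟨ha.add hb, χ + χ', B.add_mem hχ hχ', m + m', fun g => ?_, ?_⟩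
        · simp only [AddMonoidHom.add_apply, h1, h1', add_smul]; abel
        · simp only [AddMonoidHom.add_apply, h2, h2', add_smul]
      neg_mem' := by
        rintro a ⟨ha, χ, hχ, m, h1, h2⟩
        refine ⟨ha.neg, -χ, B.neg_mem hχ, -m, fun g => ?_, ?_⟩
        · simp only [AddMonoidHom.neg_apply, h1, neg_smul]; abel
        · simp only [AddMonoidHom.neg_apply, h2, neg_smul] }
  have hx : x ∈ ι.range.topologicalClosure := by
    by_contra hx
    obtain ⟨κ, ⟨-, χ, hχ, m, h1, h2⟩, h3, h4⟩ := exists_char_sep K (fun κ h => h.1) (by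
      rintro ⟨p, q⟩ hpq
      by_cases hq : q = 0
      · subst hq
        have : p ≠ 0 := fun h => hpq (by rw [h]; rfl)
        obtain ⟨χ, hχ⟩ := Function.ne_iff.1 this
        exact ⟨(Pi.evalAddMonoidHom _ χ).comp (AddMonoidHom.fst _ _),
          ⟨(continuous_apply χ).comp continuous_fst, χ, χ.2, 0, fun g => by
            rw [zero_smul, add_zero]; rfl, by rw [zero_smul]; rfl⟩, hχ⟩
      · exact ⟨AddMonoidHom.snd _ _, ⟨continuous_snd, 0, B.zero_mem, 1, fun g => by
          rw [one_smul, AddMonoidHom.zero_apply, zero_add]; rfl, by rw [one_smul]; rfl⟩, hq⟩) _ (AddSubgroup.isClosed_topologicalClosure _) x hx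
    apply h4
    rw [h2]
    apply hc
    have : m • η = -χ := by
      ext g
      have := h3 (ι g) (AddSubgroup.le_topologicalClosure _ ⟨g, rfl⟩)
      rw [h1] at this
      simpa [eq_neg_iff_add_eq_zero, add_comm] using this
    rw [this]; exact B.neg_mem hχ
  have hU : {p : X | (∀ χ : B, χ.1 ∈ F → ‖p.1 χ‖ < δ) ∧ ‖p.2 - θ‖ < δ} ∈ 𝓝 x := by
    refine IsOpen.mem_nhds ?_ ⟨by simp [x, hδ], by simp [x, hδ]⟩
    refine IsOpen.and ?_ (isOpen_lt (by fun_prop) continuous_const)
    have : {p : X | ∀ χ : B, χ.1 ∈ F → ‖p.1 χ‖ < δ} =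
        ⋂ χ ∈ (Subtype.val ⁻¹' (F : Set (G →+ T)) : Set B), {p : X | ‖p.1 χ‖ < δ} := by
      ext p; simp
    rw [this]
    exact Set.Finite.isOpen_biInter (F.finite_toSet.preimage Subtype.val_injective.injOn)
      fun χ _ => isOpen_lt ((continuous_apply χ).comp continuous_fst).norm continuous_const
  obtain ⟨_, ⟨h1, h2⟩, g, rfl⟩ := mem_closure_iff_nhds.1 hx _ hU
  exact ⟨g, fun χ hχ => h1 ⟨χ, hF χ hχ⟩ hχ, h2⟩

/-- A character that is continuous for the topology generated by the group `B` lies in `B`. -/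
theorem mem_of_cont (B : AddSubgroup (G →+ T)) (ψ : G →+ T)
    (h : ∀ ε > 0, ∃ F : Finset (G →+ T), (∀ χ ∈ F, χ ∈ B) ∧ ∃ δ > 0,
      ∀ g, (∀ χ ∈ F, ‖χ g‖ < δ) → ‖ψ g‖ < ε) : ψ ∈ B := by
  by_contra hψ
  obtain ⟨n, hn⟩ := Int.subgroup_cyclic (B.comap (zmultiplesHom _ ψ))
  have hmem : ∀ m : ℤ, m • ψ ∈ B ↔ n ∣ m := fun m => by
    have h1 : m ∈ B.comap (zmultiplesHom _ ψ) ↔ m ∈ AddSubgroup.zmultiples n := by
      rw [hn, AddSubgroup.zmultiples_eq_closure]
    exact h1.trans Int.mem_zmultiples_iff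
  obtain ⟨θ, hθ, hθ'⟩ : ∃ θ : T, θ ≠ 0 ∧ n • θ = 0 := by
    by_cases h0 : n = 0
    · refine ⟨((1 / 2 : ℝ) : T), fun h => ?_, by simp [h0]⟩
      have := norm_coe_of_le (r := 1 / 2) (by norm_num [abs_of_pos])
      rw [h] at this; norm_num at this
    · have h2 : (2 : ℤ) ≤ |n| := by
        by_contra hlt
        have h1 : |n| = 1 := by have := abs_pos.2 h0; omega
        apply hψ
        have := (hmem 1).2 (by rcases abs_eq (by norm_num) |>.1 h1 with h | h <;> simp [h])
        simpa using this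
      have h2' : (2 : ℝ) ≤ |(n : ℝ)| := by exact_mod_cast h2
      refine ⟨((1 / n : ℝ) : T), fun h => ?_, ?_⟩
      · have := norm_coe_of_le (r := 1 / n) (by
          rw [abs_div, abs_one]; exact one_div_le_one_div_of_le two_pos h2')
        rw [h, norm_zero, eq_comm, abs_eq_zero] at this
        simp [h0] at this
      · rw [← AddCircle.coe_zsmul, zsmul_eq_mul, mul_one_div_cancel (by exact_mod_cast h0)]
        simpa using coe_int 1
  have hp : 0 < ‖θ‖ / 2 := half_pos (norm_pos_iff.2 hθ)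
  obtain ⟨F, hF, δ, hδ, hs⟩ := h _ hp
  obtain ⟨g, h1, h2⟩ := kron_one B ψ θ (fun m hm => by
    obtain ⟨k, rfl⟩ := (hmem m).1 hm
    rw [mul_comm, mul_smul, hθ', smul_zero]) F hF (lt_min hδ hp)
  have h3 := hs g fun χ hχ => (h1 χ hχ).trans_le (min_le_left _ _)
  have h4 := h2.trans_le (min_le_right _ _)
  have := norm_sub_le (ψ g) (ψ g - θ)
  rw [sub_sub_cancel] at this
  linarith

/-- Precompactness. -/
theorem exists_net (F : Finset (G →+ T)) {δ : ℝ} (hδ : 0 < δ) (C : Set G) :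
    ∃ Z : Finset G, (∀ z ∈ Z, z ∈ C) ∧ ∀ g ∈ C, ∃ z ∈ Z, ∀ χ ∈ F, ‖χ (g - z)‖ < δ := by
  classical
  let ι : G → (F → T) := fun g χ => χ.1 g
  have : TotallyBounded (ι '' C) := isCompact_univ.totallyBounded.subset (subset_univ _)
  obtain ⟨t, ht, hfin, hcov⟩ := Metric.finite_approx_of_totallyBounded this δ hδ
  obtain ⟨Z, hZ, hZf, hcov'⟩ := (Set.exists_subset_image_finite_and
    (p := fun s => ι '' C ⊆ ⋃ y ∈ s, Metric.ball y δ)).1 ⟨t, ht, hfin, hcov⟩
  refine ⟨hZf.toFinset, fun z hz => hZ (by simpa using hz), fun g hg => ?_⟩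
  have := hcov' ⟨g, hg, rfl⟩
  simp only [mem_iUnion, Metric.mem_ball, exists_prop] at this
  obtain ⟨_, ⟨z, hz, rfl⟩, hd⟩ := this
  refine ⟨z, by simpa using hz, fun χ hχ => ?_⟩
  rw [map_sub, ← dist_eq_norm]
  exact (dist_le_pi_dist (ι g) (ι z) ⟨χ, hχ⟩).trans_lt hd

end Pool.Agent.Lib.MP_a74260_al
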