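import Pool.Agent.Lib.MP_a74260_al.Key

/-! Every continuous character of the dual group is an evaluation. -/

namespace Pool.Agent.Lib.MP_a74260_al

open Filter Topology Set

variable {C : Set ℤ}

theorem gap (hC : @IsCompact ℤ (tau (HH : Set (ℤ →+ T))) C) {θ : ℕ → T} (hθ : Rec θ) (r : ℕ)
    (hm : ∀ N, (Ph θ N : T) ∈ Pn SS) {η : ℝ} (hη : 0 < η) (N₀ N₁ : ℕ) :
    ∃ N ≥ N₀, ∃ N₂ ≥ N₁, ∀ g ∈ C, η ≤ ‖g • lu r • (Ph θ N : T)‖ →
      ∃ n ∈ Finset.Ico N₁ N₂, 1 / 6 < ‖g • dd n‖ := by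
  obtain ⟨ρ, hρ⟩ := exists_pow_lt hη 12
  refine ⟨N₁ + r + (ρ + N₀), by omega, ?_⟩
  letI := tau (HH : Set (ℤ →+ T))
  have h1 : IsCompact (C ∩ {g | η ≤ ‖g • lu r • (Ph θ (N₁ + r + (ρ + N₀)) : T)‖}) :=
    hC.inter_right (isClosed_le continuous_const
      (cont_smul ((Pn SS).zsmul_mem (hm _) _)).norm)
  obtain ⟨t, ht⟩ := h1.elim_finite_subcover (fun n => {g : ℤ | 1 / 6 < ‖g • dd (N₁ + n)‖})
    (fun n => isOpen_lt continuous_const (cont_smul (dd_mem _)).norm) (fun g hg => by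
      by_contra hc
      simp only [mem_iUnion, mem_setOf_eq, not_exists, not_lt] at hc
      have h2 := (rec_dd.smul g).decay (N := N₁) fun n hn => by
        obtain ⟨k, rfl⟩ := Nat.exists_eq_add_of_le hn; exact hc k
      have h3 : ∀ n a, N₁ + a ≤ n → ‖g • dd n‖ ≤ (1 / 2) ^ a := fun n a h => by
        obtain ⟨k, rfl⟩ := Nat.exists_eq_add_of_le h
        rw [add_assoc]
        exact (h2 _).trans (pow_le_pow_of_le_one (by norm_num) (by norm_num) (by omega))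
      have h4 := hθ.tail_le g (r := r) (N := N₁ + r + (ρ + N₀)) (by omega)
        (β := 4 * (1 / 2) ^ (ρ + N₀)) fun W hW => by
        have h5 := sum_fiber W (· - (N₁ + r)) (fun j => (1 / 2) ^ j) (fun _ => by positivity) 1
          fun j => ⟨{N₁ + r + j}, by simp, fun n hn e => by
            have := (hW n hn).1; rw [Finset.mem_singleton]; omega⟩
        have h6 := sum_geom (W.image (· - (N₁ + r))) (ρ + N₀)
          (Finset.forall_mem_image.2 fun n hn => by have := (hW n hn).1; omega)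
        have h7 : ∑ n ∈ W, (‖g • dd (n + 1 - r)‖ + ‖g • dd (n + 1 + r)‖) ≤
            ∑ n ∈ W, ((1 / 2 : ℝ) ^ (n - (N₁ + r)) + (1 / 2) ^ (n - (N₁ + r))) :=
          Finset.sum_le_sum fun n hn => by
            have := (hW n hn).1
            exact add_le_add (h3 _ _ (by omega)) (h3 _ _ (by omega))
        rw [Finset.sum_add_distrib (f := fun n => (1 / 2 : ℝ) ^ (n - (N₁ + r)))] at h7
        push_cast at h5; linarith
      have h5 : η ≤ _ := hg.2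
      linarith [hρ (ρ + N₀) (by omega)])
  refine ⟨N₁ + t.sup id + 1, by omega, fun g hg h => ?_⟩
  obtain ⟨n, hn, h2⟩ := mem_iUnion₂.1 (ht ⟨hg, h⟩)
  have : n ≤ t.sup id := Finset.le_sup (f := id) hn
  exact ⟨N₁ + n, Finset.mem_Ico.2 ⟨by omega, by omega⟩, h2⟩

theorem near_of_dvd {ν R n i : ℕ} {s : ℤ} (hs : |s| ≤ R) (hd : 2 ^ (ν + 1) ∣ ((n + i) / 2 : ℕ) + s)
    (hi : i ≤ 2) (hn : 2 * R + 2 ^ (ν + 1) + 2 ≤ n) {r : ℕ} (h1 : 2 ^ (ν + 1) ≤ r)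
    (h2 : r ≤ 2 ^ (ν + 1) + 1) : (∃ j, Nat.dist (n + 1 - r) (cen ν j) ≤ 2 * R + 3) ∧
      ∃ j, Nat.dist (n + 1 + r) (cen ν j) ≤ 2 * R + 3 := by
  obtain ⟨q, hq⟩ := hd
  rw [abs_le] at hs
  have hp : 0 < 2 ^ (ν + 1) := by positivity
  have h3 : (0 : ℤ) < 2 ^ (ν + 1) * q := by rw [← hq]; omega
  obtain ⟨j, rfl⟩ : ∃ j : ℕ, q = j + 1 :=
    ⟨(q - 1).toNat, by have := (mul_pos_iff_of_pos_left (by positivity)).1 h3; omega⟩
  have h4 : (cen ν j : ℤ) + 2 ^ (ν + 1) = 2 * (2 ^ (ν + 1) * (j + 1)) := by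
    unfold cen; push_cast; ring
  have h5 : (cen ν (j + 1) : ℤ) = 2 * (2 ^ (ν + 1) * (j + 1)) + 2 ^ (ν + 1) := by
    unfold cen; push_cast; ring
  have h6 : (2 : ℤ) ^ (ν + 1) = (2 ^ (ν + 1) : ℕ) := by push_cast; rfl
  rw [← hq, h6] at h4 h5
  exact ⟨⟨j, by unfold Nat.dist; omega⟩, j + 1, by unfold Nat.dist; omega⟩

theorem small_tail (hC : @IsCompact ℤ (tau (HH : Set (ℤ →+ T))) C) {x : T} (hx : x ∈ Pn SS)
    {ε : ℝ} (hε : 0 < ε) : ∃ r₀, ∀ r, r₀ ≤ r → r ≤ r₀ + 1 → ∃ N₀, ∀ N ≥ N₀, ∀ g ∈ C,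
      ‖g • lu r • (Ph (fun n => fe n • x) N : T)‖ ≤ ε := by
  obtain ⟨R, hR⟩ := exists_rho (p := fun n => 1 / 6 < ‖fe n • x‖) fun n hn hf => by
    obtain ⟨k, hk⟩ := (NormedAddGroup.tendsto_nhds_zero.1
      (hx _ ⟨fe_null hn, fun y => (hf y).null⟩) (1 / 6) (by norm_num)).exists
    exact ⟨k, hk.not_gt⟩
  obtain ⟨c, hc, hc'⟩ : ∃ c : ℝ, 0 < c ∧ c = 4 ^ (2 * R + 3) * ((2 * (2 * R + 3) + 1 : ℕ) * 2) :=
    ⟨_, by positivity, rfl⟩
  obtain ⟨ν, hν⟩ := key hC (ε := ε / (6 * c)) (by positivity)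
  obtain ⟨N₀, hN⟩ := eventually_atTop.1 (hR (ν + 1))
  refine ⟨2 ^ (ν + 1), fun r h1 h2 => ⟨N₀ + (2 * R + 2 ^ (ν + 1) + 2), fun N hN' g hg => ?_⟩⟩
  refine ((rec_rs 0 1 x).tail_le g (by omega) (β := ε / 3) fun W hW => ?_).trans_eq (by ring)
  have h3 : ∀ n ∈ W, (∃ j, Nat.dist (n + 1 - r) (cen ν j) ≤ 2 * R + 3) ∧
      ∃ j, Nat.dist (n + 1 + r) (cen ν j) ≤ 2 * R + 3 := fun n hn => by
    have h3 := mt (rec_rs 0 1 x).dg_zero (hW n hn).2
    push Not at h3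
    obtain ⟨i, hi, h3⟩ := h3
    have := (hW n hn).1
    obtain ⟨s, hs, hd⟩ := hN (n + i) (by omega) h3
    exact near_of_dvd hs hd hi (by omega) h1 h2
  have h4 : ∀ q : ℕ → ℕ, InjOn q W → (∀ n ∈ W, ∃ j, Nat.dist (q n) (cen ν j) ≤ 2 * R + 3) →
      ∑ n ∈ W, ‖g • dd (q n)‖ ≤ ε / 6 := fun q hq h => by
    rw [← Finset.sum_image (f := fun n => ‖g • dd n‖) hq]
    refine ((rec_dd.smul g).near (hν g hg) _ _ (Finset.forall_mem_image.2 h)).trans_eq ?_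
    rw [← mul_assoc, ← mul_assoc, mul_assoc (4 ^ _), ← hc']; field_simp
  rw [Finset.sum_add_distrib]
  linarith [h4 (· + 1 - r) (fun a ha b hb (e : a + 1 - r = b + 1 - r) => by
    have := (hW a ha).1; have := (hW b hb).1; omega) fun n hn => (h3 n hn).1,
    h4 (· + 1 + r) (fun a _ b _ (e : a + 1 + r = b + 1 + r) => by omega) fun n hn => (h3 n hn).2]

theorem exists_l1 (ν : ℕ) (β : ℝ) : ∃ K > 0, ∀ θ, Rec θ →
    (∀ J : Finset ℕ, (∀ n ∈ J, lab n = ν) → ∑ n ∈ J, ‖θ n‖ ≤ β) →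
      ∀ W : Finset ℕ, ∑ n ∈ W, ‖θ n‖ ≤ K :=
  ⟨_, lt_max_of_lt_left one_pos, fun _ h hβ W =>
    (h.near hβ _ W fun n _ => near_cen ν n).trans (le_max_right _ _)⟩

theorem vanish (hC : @IsCompact ℤ (tau (HH : Set (ℤ →+ T))) C) {δ : ℝ} (hδ : 0 < δ)
    (F : Pn SS →+ T) (h0 : F ⟨dd 1, dd_one_mem⟩ = 0)
    (hs : ∀ x : Pn SS, (∀ g ∈ C, ‖g • x.1‖ ≤ δ) → ‖F x‖ ≤ 1 / 4) (x : Pn SS) : F x = 0 := by
  obtain ⟨ν, hν⟩ := key hC one_pos
  obtain ⟨K, hK, hK'⟩ := exists_l1 ν 1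
  obtain ⟨ε, hε, hε'⟩ : ∃ ε > 0, 6 * ε * K = δ / 2 := ⟨δ / (12 * K), by positivity, by
    field_simp; norm_num⟩
  obtain ⟨r₀, hr⟩ := small_tail hC x.2 hε
  have h1 : ∀ N, ∃ y : Pn SS, y.1 = Ph (fun n => fe n • x.1) N ∧ F y = F x := fun N => by
    obtain ⟨k, hk⟩ := Ph_coe x.1 N
    exact ⟨x + k • ⟨dd 1, dd_one_mem⟩, hk.symm, by rw [map_add, map_zsmul, h0]; simp⟩
  choose y hy hy' using h1
  have h2 : ∀ r, r₀ ≤ r → r ≤ r₀ + 1 → lu r • F x = 0 := fun r h1 h2 => by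
    obtain ⟨N₀, hN⟩ := hr r h1 h2
    have h3 : ∀ η > 0, ∀ M : ℕ, ∃ (N : ℕ) (z : Pn SS), F z = M • lu r • F x ∧
        ∀ g ∈ C, ‖g • z.1‖ ≤ M * η + 6 * ε * ∑ n ∈ Finset.range N, ‖g • dd n‖ := fun η hη M => by
      induction M with
      | zero => exact ⟨0, 0, by simp, by simp⟩
      | succ M ih =>
        obtain ⟨N₁, z, h3, h4⟩ := ih
        obtain ⟨N, h5, N₂, h6, h7⟩ := gap hC (rec_rs 0 1 x.1) r (fun N => hy N ▸ (y N).2) hη N₀ N₁
        refine ⟨N₂, z + lu r • y N, by rw [map_add, map_zsmul, h3, hy', succ_nsmul],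
          fun g hg => ?_⟩
        have h8 : ‖g • lu r • (y N).1‖ ≤ η + 6 * ε * ∑ n ∈ Finset.Ico N₁ N₂, ‖g • dd n‖ := by
          rw [hy]
          refine (le_total _ η).elim (fun h => h.trans (le_add_of_nonneg_right (by positivity)))
            fun h => ?_
          obtain ⟨n, hn, h8⟩ := h7 g hg h
          have := Finset.single_le_sum (f := fun n => ‖g • dd n‖) (fun _ _ => norm_nonneg _) hn
          nlinarith [hN N h5 g hg]
        rw [← Finset.sum_range_add_sum_Ico _ h6, AddSubgroup.coe_add, smul_add,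
          AddSubgroupClass.coe_zsmul]
        refine (norm_add_le _ _).trans ?_
        push_cast; linarith [h4 g hg]
    refine eq_zero_of_multiples fun M => ?_
    obtain ⟨N, z, h4, h5⟩ := h3 (δ / (2 * (M + 1))) (by positivity) M
    refine h4 ▸ hs z fun g hg => (h5 g hg).trans ?_
    have h6 := mul_le_mul_of_nonneg_left (hK' _ (rec_dd.smul g) (hν g hg) (Finset.range N))
      (show 0 ≤ 6 * ε by positivity)
    have h7 : M * (δ / (2 * (M + 1))) ≤ δ / 2 := by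
      rw [mul_div_assoc', div_le_div_iff₀ (by positivity) (by positivity)]; nlinarith
    linarith
  have h3 := (rec_rs 2 3 (F x)).sn_le 0 r₀
  simp only [sn, h2 r₀ le_rfl (by omega), h2 (r₀ + 1) (by omega) le_rfl, norm_zero, add_zero,
    mul_zero, rs, zero_add] at h3
  have h4 := norm_nonneg ((2 : ℤ) • F x)
  have h5 := norm_nonneg ((3 : ℤ) • F x)
  have h6 : (3 : ℤ) • F x - (2 : ℤ) • F x = 0 := by
    rw [norm_eq_zero.1 (by linarith : ‖(2 : ℤ) • F x‖ = 0),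
      norm_eq_zero.1 (by linarith : ‖(3 : ℤ) • F x‖ = 0), sub_zero]
  rw [← h6]; abel

theorem exists_eval (hC : @IsCompact ℤ (tau (HH : Set (ℤ →+ T))) C) {δ : ℝ} (hδ : 0 < δ)
    (F : Pn SS →+ T) (hF : ∀ x : Pn SS, (∀ g ∈ C, ‖g • x.1‖ ≤ δ) → ‖F x‖ ≤ 1 / 8) :
    ∃ g₀ : ℤ, F ⟨dd 1, dd_one_mem⟩ = g₀ • dd 1 := by
  obtain ⟨ν, hν⟩ := key hC hδ
  obtain ⟨K, -, hK⟩ := exists_l1 ν (2 * (1 / 8))
  have h1 := hK _ (rec_rs 0 1 (F ⟨dd 1, dd_one_mem⟩)) (sum_norm_le (by norm_num) fun J hJ => by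
    simp only [← map_zsmul, ← map_sum]
    refine hF _ fun g hg => le_trans ?_ (hν g hg J hJ)
    simp only [AddSubmonoidClass.coe_finsetSum, AddSubgroupClass.coe_zsmul, ← dd_eq, Finset.smul_sum]
    exact norm_sum_le _ _)
  have h2 := (summable_of_sum_le (fun _ => norm_nonneg _) h1).tendsto_atTop_zero
  exact mem_of_small (h2.eventually (eventually_le_nhds (by norm_num)))

theorem exists_eval' (hC : @IsCompact ℤ (tau (HH : Set (ℤ →+ T))) C) {δ : ℝ} (hδ : 0 < δ)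
    (F : Pn SS →+ T) (hF : ∀ x : Pn SS, (∀ g ∈ C, ‖g • x.1‖ ≤ δ) → ‖F x‖ ≤ 1 / 8) :
    ∃ g₀ : ℤ, ∀ x, F x = g₀ • x.1 := by
  obtain ⟨g₀, h0⟩ := exists_eval hC hδ F hF
  have hC' := @IsCompact.insert ℤ (tau (HH : Set (ℤ →+ T))) C hC g₀
  obtain ⟨F', h3⟩ : ∃ F' : Pn SS →+ T, ∀ y, F' y = F y - g₀ • y.1 :=
    ⟨AddMonoidHom.mk' (fun y => F y - g₀ • y.1) fun a b => by
      rw [map_add, AddSubgroup.coe_add, smul_add]; abel, fun _ => rfl⟩
  refine ⟨g₀, fun x => sub_eq_zero.1 ((h3 x).symm.trans (vanish hC'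
    (lt_min hδ (by norm_num : (0 : ℝ) < 1 / 8)) F' (by rw [h3, h0, sub_self]) (fun y hy => ?_) x))⟩
  have h1 := hF y fun g hg => (hy g (Or.inr hg)).trans (min_le_left _ _)
  have h2 := (hy g₀ (Or.inl rfl)).trans (min_le_right _ _)
  rw [h3]
  exact (norm_sub_le (F y) (g₀ • y.1)).trans (by linarith)

theorem onlyEval : OnlyEval HH := by
  intro φ hφ C hC δ hδ hs
  obtain ⟨g₀, h⟩ := exists_eval' hC hδ (AddMonoidHom.mk' (fun x => φ (cz x.1)) fun a b => by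
    rw [AddSubgroup.coe_add, map_add]; exact hφ _ ⟨_, a.2, rfl⟩ _ ⟨_, b.2, rfl⟩)
    fun x => hs (cz x.1) ⟨_, x.2, rfl⟩
  refine ⟨g₀, ?_⟩
  rintro _ ⟨x, hx, rfl⟩
  exact h ⟨x, hx⟩

/-- The family of sequences, written multiplicatively. -/
def toMul' (S : Set (ℕ → ℤ)) : Set (ℕ → Multiplicative ℤ) :=
  (fun u n => Multiplicative.ofAdd (u n)) '' S

theorem ex_mem_sSet {S : Set (ℕ → ℤ)} {χ : ℤ →+ T} :
    ex χ ∈ sSet (toMul' S) ↔ χ ∈ (Pn S).map cz := by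
  have key : ∀ u : ℕ → ℤ, Tendsto (fun n => ex χ (Multiplicative.ofAdd (u n))) atTop (𝓝 1) ↔
      Tendsto (fun n => u n • χ 1) atTop (𝓝 0) := fun u => by
    rw [← ee_zero]
    have : (fun n => ex χ (Multiplicative.ofAdd (u n))) = ee ∘ fun n => u n • χ 1 := by
      funext n
      show ee (χ (u n)) = ee (u n • χ 1)
      rw [← map_zsmul, smul_eq_mul, mul_one]
    rw [this]
    exact ee.isInducing.tendsto_nhds_iff.symm
  constructor
  · exact fun h => ⟨χ 1, fun u hu => (key u).1 (h _ ⟨u, hu, rfl⟩), by ext; simp⟩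
  · rintro ⟨x, hx, h⟩ _ ⟨u, hu, rfl⟩
    refine (key u).2 ?_
    rw [← h]
    simpa using hx u hu

theorem tauB_toMul (S : Set (ℕ → ℤ)) : tauB (toMul' S) =
    @instTopologicalSpaceMultiplicative ℤ (tau ((Pn S).map cz : Set (ℤ →+ T))) := by
  apply le_antisymm
  · letI := tauB (toMul' S)
    have h : Continuous fun (g : Multiplicative ℤ) (χ : ((Pn S).map cz : Set (ℤ →+ T))) =>
        χ.1 g.toAdd := continuous_pi fun χ => by
      have h1 : Continuous (ex χ.1) :=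
        continuous_iff_le_induced.2 (iInf₂_le (ex χ.1) (ex_mem_sSet.2 χ.2))
      exact (ee.symm.continuous.comp h1).congr fun g => by simp [ex]
    exact continuous_iff_le_induced.1 h
  · refine le_iInf₂ fun χ hχ => ?_
    rw [← ex_lg χ] at hχ ⊢
    letI := tau ((Pn S).map cz : Set (ℤ →+ T))
    rw [← continuous_iff_le_induced]
    exact ee.continuous.comp ((cont_tau (ex_mem_sSet.1 hχ)).comp continuous_toAdd)

end Pool.Agent.Lib.MP_a74260_al
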