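import Pool.Agent.Lib.MP_a74260_al.Dual

/-! Countable approximations `(H, S)` and the complete group `s_S`. -/

namespace Pool.Agent.Lib.MP_a74260_al

open Filter Topology Set

/-- The points of the circle on which all sequences of `S` are null. -/
def P (S : Set (ℕ → ℤ)) : AddSubgroup T where
  carrier := {x | ∀ u ∈ S, Tendsto (fun k => u k • x) atTop (𝓝 0)}
  zero_mem' := fun u _ => by simp
  add_mem' := fun ha hb u hu => by simpa using (ha u hu).add (hb u hu)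
  neg_mem' := fun ha u hu => by simpa using (ha u hu).neg

theorem P_anti {S S' : Set (ℕ → ℤ)} (h : S ⊆ S') : P S' ≤ P S := fun _ hx u hu => hx u (h hu)

/-- Uniform smallness on finitely many sequences. -/
def Sm (F : Finset (ℕ → ℤ)) (δ : ℝ) (x : T) : Prop := ∀ u ∈ F, ∀ k, ‖u k • x‖ ≤ δ

theorem Sm.mono {F F' : Finset (ℕ → ℤ)} {δ δ' : ℝ} {x : T} (h : Sm F δ x) (hF : F' ⊆ F)
    (hδ : δ ≤ δ') : Sm F' δ' x := fun u hu k => (h u (hF hu) k).trans hδ

theorem Sm.add {F : Finset (ℕ → ℤ)} {a b : ℝ} {x y : T} (h : Sm F a x) (h' : Sm F b y) :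
    Sm F (a + b) (x + y) := fun u hu k => by
  rw [smul_add]; exact (norm_add_le _ _).trans (add_le_add (h u hu k) (h' u hu k))

theorem Sm.neg {F : Finset (ℕ → ℤ)} {a : ℝ} {x : T} (h : Sm F a x) : Sm F a (-x) :=
  fun u hu k => by rw [smul_neg, norm_neg]; exact h u hu k

theorem Sm.zsmul {F : Finset (ℕ → ℤ)} {a : ℝ} {x : T} (h : Sm F a x) (j : ℤ) :
    Sm F (|(j : ℝ)| * a) (j • x) := fun u hu k => by
  rw [smul_comm]
  exact (norm_zsmul_le _ _).trans (mul_le_mul_of_nonneg_left (h u hu k) (norm_nonneg _))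

def e0 : ℕ → ℤ := fun k => if k = 0 then 1 else 0

theorem Sm.norm_le {F : Finset (ℕ → ℤ)} {a : ℝ} {x : T} (h : Sm F a x) (h0 : e0 ∈ F) :
    ‖x‖ ≤ a := by simpa [e0] using h e0 h0 0

def AddOn (B : AddSubgroup T) (φ : T → T) : Prop := ∀ a ∈ B, ∀ b ∈ B, φ (a + b) = φ a + φ b

theorem AddOn.exists_hom {B : AddSubgroup T} {φ : T → T} (h : AddOn B φ) :
    ∃ f : B →+ T, ∀ x : B, f x = φ x :=
  ⟨AddMonoidHom.mk' (fun x => φ x) fun a b => h a a.2 b b.2, fun _ => rfl⟩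

theorem AddOn.zsmul {B : AddSubgroup T} {φ : T → T} (h : AddOn B φ) {x : T} (hx : x ∈ B) (j : ℤ) :
    φ (j • x) = j • φ x := by
  obtain ⟨f, hf⟩ := h.exists_hom
  exact (hf (j • ⟨x, hx⟩)).symm.trans ((map_zsmul f _ _).trans (by rw [hf]))

theorem AddOn.sub {B : AddSubgroup T} {φ : T → T} (h : AddOn B φ) {x y : T} (hx : x ∈ B)
    (hy : y ∈ B) : φ (x - y) = φ x - φ y := by
  obtain ⟨f, hf⟩ := h.exists_hom
  exact (hf (⟨x, hx⟩ - ⟨y, hy⟩)).symm.trans ((map_sub f _ _).trans (by rw [hf, hf]))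

theorem AddOn.sum {B : AddSubgroup T} {φ : T → T} (h : AddOn B φ) {ι : Type*} (I : Finset ι)
    {x : ι → T} (hx : ∀ i, x i ∈ B) : φ (∑ i ∈ I, x i) = ∑ i ∈ I, φ (x i) := by
  obtain ⟨f, hf⟩ := h.exists_hom
  have := map_sum f (fun i => ⟨x i, hx i⟩) I
  simp only [hf] at this
  rw [← this]; simp

theorem AddOn.modulus {B : AddSubgroup T} {φ : T → T} (h : AddOn B φ) {F : Finset (ℕ → ℤ)}
    {δ c : ℝ} (hc : c ≤ 1 / 4) (hs : ∀ x ∈ B, Sm F δ x → ‖φ x‖ ≤ c) (m : ℕ) {x : T} (hx : x ∈ B)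
    (hm : Sm F (δ / 2 ^ m) x) (hδ : 0 ≤ δ) : ‖φ x‖ ≤ c / 2 ^ m := by
  refine norm_le_of_multiples hc m _ fun k hk => ?_
  rw [← natCast_zsmul, ← h.zsmul hx]
  refine hs _ (B.zsmul_mem hx _) ((hm.zsmul k).mono le_rfl ?_)
  have : |((k : ℤ) : ℝ)| ≤ 2 ^ m := by
    rw [Int.cast_natCast, Nat.abs_cast]; exact_mod_cast hk
  calc _ ≤ 2 ^ m * (δ / 2 ^ m) := by gcongr
    _ = δ := by field_simp

/-- A countable approximation. -/
structure St where
  H : AddSubgroup T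
  S : Set (ℕ → ℤ)
  hH : (H : Set T).Countable
  hS : S.Countable
  one : e0 ∈ S
  null : H ≤ P S
  dense : ∀ x ∈ P S, ∀ F : Finset (ℕ → ℤ), ↑F ⊆ S → ∀ δ > 0, ∃ h ∈ H, Sm F δ (x - h)
  dual : ∀ φ : T → T, AddOn H φ → ∀ F : Finset (ℕ → ℤ), ↑F ⊆ S → ∀ δ > 0,
    (∀ x ∈ H, Sm F δ x → ‖φ x‖ ≤ 1 / 4) → ∃ g : ℤ, ∀ x ∈ H, φ x = g • x

theorem St.dual_between (s : St) {B : AddSubgroup T} (h1 : s.H ≤ B) (h2 : B ≤ P s.S) {φ : T → T}
    (hφ : AddOn B φ) {F : Finset (ℕ → ℤ)} (hF : ↑F ⊆ s.S) {δ : ℝ} (hδ : 0 < δ)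
    (hs : ∀ x ∈ B, Sm F δ x → ‖φ x‖ ≤ 1 / 4) : ∃ g : ℤ, ∀ x ∈ B, φ x = g • x := by
  classical
  obtain ⟨g, hg⟩ := s.dual φ (fun a ha b hb => hφ a (h1 ha) b (h1 hb)) F hF δ hδ
    fun x hx => hs x (h1 hx)
  refine ⟨g, fun x hx => ?_⟩
  have key : ∀ m : ℕ, ‖φ x - g • x‖ ≤ (1 / 4 + |(g : ℝ)| * δ) / 2 ^ m := by
    intro m
    obtain ⟨h, hh, hsm⟩ := s.dense x (h2 hx) (insert e0 F)
      (by rw [Finset.coe_insert]; exact insert_subset s.one hF) (δ / 2 ^ m) (by positivity)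
    have e1 := hφ.modulus le_rfl hs m (B.sub_mem hx (h1 hh))
      (hsm.mono (Finset.subset_insert _ _) le_rfl) hδ.le
    have e2 := (hsm.zsmul g).norm_le (Finset.mem_insert_self _ _)
    have : φ x - g • x = φ (x - h) - g • (x - h) := by
      rw [hφ.sub hx (h1 hh), hg h hh, smul_sub]; abel
    rw [this, add_div, mul_div_assoc]
    exact (norm_sub_le _ _).trans (add_le_add e1 e2)
  have h2 : Tendsto (fun m : ℕ => (1 / 4 + |(g : ℝ)| * δ) / 2 ^ m) atTop (𝓝 0) :=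
    tendsto_const_nhds.div_atTop (tendsto_pow_atTop_atTop_of_one_lt one_lt_two)
  exact sub_eq_zero.1 (norm_le_zero_iff.1 (ge_of_tendsto' h2 key))

/-- Enlarging the group inside `s_S`. -/
def St.enlarge (s : St) (B : AddSubgroup T) (hB : (B : Set T).Countable) (h1 : s.H ≤ B)
    (h2 : B ≤ P s.S) : St where
  H := B
  S := s.S
  hH := hB
  hS := s.hS
  one := s.one
  null := h2
  dense := fun x hx F hF δ hδ => (s.dense x hx F hF δ hδ).imp fun _ h => ⟨h1 h.1, h.2⟩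
  dual := fun _ hφ _ hF _ hδ hs => s.dual_between h1 h2 hφ hF hδ hs

/-- An enumeration of a family of sequences starting with `e0`. -/
structure Enum where
  e : ℕ → ℕ → ℤ
  h0 : e 0 = e0

theorem St.exists_enum (s : St) : ∃ E : Enum, range E.e = s.S := by
  obtain ⟨f, hf⟩ := s.hS.exists_eq_range ⟨_, s.one⟩
  refine ⟨⟨fun n => n.casesOn e0 f, rfl⟩, Subset.antisymm ?_ ?_⟩
  · rintro _ ⟨n, rfl⟩
    cases n with
    | zero => exact s.one
    | succ n => rw [hf]; exact ⟨n, rfl⟩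
  · rw [hf]; rintro _ ⟨n, rfl⟩; exact ⟨n + 1, rfl⟩

/-- The group `s_S` with its complete group norm. -/
def PS (E : Enum) : Type := P (range E.e)

instance (E : Enum) : AddCommGroup (PS E) := inferInstanceAs (AddCommGroup (P (range E.e)))

def PS.val {E : Enum} : PS E →+ T := (P (range E.e)).subtype

def PS.mk {E : Enum} (x : T) (hx : x ∈ P (range E.e)) : PS E := ⟨x, hx⟩

theorem PS.val_mem {E : Enum} (x : PS E) : PS.val x ∈ P (range E.e) := Subtype.property x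

theorem PS.val_injective {E : Enum} : Function.Injective (PS.val (E := E)) :=
  Subtype.val_injective

noncomputable def rho (E : Enum) (x : T) : ℝ :=
  ⨆ p : ℕ × ℕ, min (1 / 2 ^ p.1 : ℝ) ‖E.e p.1 p.2 • x‖

theorem le_rho (E : Enum) (x : T) (i k : ℕ) : min (1 / 2 ^ i : ℝ) ‖E.e i k • x‖ ≤ rho E x := by
  refine le_ciSup (f := fun p : ℕ × ℕ => min (1 / 2 ^ p.1 : ℝ) ‖E.e p.1 p.2 • x‖) ⟨1, ?_⟩ (i, k)
  rintro _ ⟨p, rfl⟩
  exact (min_le_left _ _).trans (by rw [div_le_one (by positivity)]; exact one_le_pow₀ one_le_two)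

theorem rho_le (E : Enum) (x : T) {r : ℝ}
    (h : ∀ i k, min (1 / 2 ^ i : ℝ) ‖E.e i k • x‖ ≤ r) : rho E x ≤ r :=
  ciSup_le fun p => h p.1 p.2

theorem norm_le_rho (E : Enum) (x : T) : ‖x‖ ≤ rho E x := by
  have := le_rho E x 0 0
  rw [E.h0, min_eq_right] at this
  · simpa [e0] using this
  · have := AddCircle.norm_le_half_period (1 : ℝ) (x := e0 0 • x) one_ne_zero
    norm_num at this ⊢; linarith

noncomputable instance (E : Enum) : NormedAddCommGroup (PS E) :=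
  AddGroupNorm.toNormedAddCommGroup
    { toFun := fun x => rho E (PS.val x)
      map_zero' := le_antisymm (rho_le _ _ fun i k => by simp)
        ((norm_nonneg _).trans (norm_le_rho _ _))
      add_le' := fun a b => rho_le _ _ fun i k => by
        have h1 := le_rho E (PS.val a) i k
        have h2 := le_rho E (PS.val b) i k
        have h3 : ‖E.e i k • PS.val (a + b)‖ ≤ ‖E.e i k • PS.val a‖ + ‖E.e i k • PS.val b‖ := by
          rw [map_add, smul_add]; exact norm_add_le _ _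
        have h4 := (norm_nonneg _).trans (norm_le_rho E (PS.val a))
        have h5 := (norm_nonneg _).trans (norm_le_rho E (PS.val b))
        rw [min_le_iff] at h1 h2 ⊢
        rcases h1 with h1 | h1
        · left; linarith
        · rcases h2 with h2 | h2
          · left; linarith
          · right; linarith
      neg' := fun a => by simp [rho]
      eq_zero_of_map_eq_zero' := fun a h => PS.val_injective (by
        rw [map_zero]; exact norm_le_zero_iff.1 ((norm_le_rho E _).trans h.le)) }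

theorem PS.norm_def {E : Enum} (x : PS E) : ‖x‖ = rho E (PS.val x) := rfl

theorem PS.continuous_val {E : Enum} : Continuous (PS.val (E := E)) :=
  (AddMonoidHomClass.lipschitz_of_bound PS.val 1 fun x => by
    rw [one_mul]; exact norm_le_rho _ _).continuous

instance (E : Enum) : CompleteSpace (PS E) := by
  refine Metric.complete_of_cauchySeq_tendsto fun u hu => ?_
  obtain ⟨y, hy⟩ := cauchySeq_tendsto_of_complete
    ((AddMonoidHomClass.lipschitz_of_bound PS.val 1 fun x : PS E => by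
      rw [one_mul]; exact norm_le_rho _ _).uniformContinuous.comp_cauchySeq hu)
  have key : ∀ ε > 0, ∃ N, ∀ m ≥ N, rho E (PS.val (u m) - y) ≤ ε := by
    intro ε hε
    obtain ⟨N, hN⟩ := Metric.cauchySeq_iff.1 hu ε hε
    refine ⟨N, fun m hm => rho_le _ _ fun i k => ?_⟩
    have ht : Tendsto (fun n => min (1 / 2 ^ i : ℝ) ‖E.e i k • (PS.val (u m) - PS.val (u n))‖)
        atTop (𝓝 (min (1 / 2 ^ i : ℝ) ‖E.e i k • (PS.val (u m) - y)‖)) :=
      tendsto_const_nhds.min ((tendsto_const_nhds.sub hy).const_smul _).norm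
    refine le_of_tendsto ht (eventually_atTop.2 ⟨N, fun n hn => ?_⟩)
    have := hN m hm n hn
    rw [dist_eq_norm, PS.norm_def, map_sub] at this
    exact (le_rho _ _ _ _).trans this.le
  have hmem : y ∈ P (range E.e) := by
    rintro _ ⟨i, rfl⟩
    rw [Metric.tendsto_nhds]
    intro ε hε
    obtain ⟨N, hN⟩ := key (min (ε / 3) (1 / 2 ^ (i + 1))) (by positivity)
    have h1 := Metric.tendsto_nhds.1 (PS.val_mem (u N) _ ⟨i, rfl⟩) (ε / 3) (by positivity)
    filter_upwards [h1] with k hk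
    rw [dist_zero_right] at hk ⊢
    have h2 := (le_rho _ _ i k).trans (hN N le_rfl)
    have h3 : (1 / 2 ^ (i + 1) : ℝ) < 1 / 2 ^ i :=
      one_div_lt_one_div_of_lt (by positivity) (pow_lt_pow_right₀ one_lt_two (Nat.lt_succ_self i))
    rw [min_le_iff, le_min_iff, le_min_iff] at h2
    have h4 : ‖E.e i k • (PS.val (u N) - y)‖ ≤ ε / 3 := h2.elim (fun h => by linarith [h.2])
      fun h => h.1
    have h5 := norm_sub_le (E.e i k • PS.val (u N)) (E.e i k • (PS.val (u N) - y))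
    rw [← smul_sub, sub_sub_cancel] at h5
    linarith
  refine ⟨PS.mk y hmem, Metric.tendsto_atTop.2 fun ε hε => ?_⟩
  obtain ⟨N, hN⟩ := key (ε / 2) (half_pos hε)
  refine ⟨N, fun n hn => ?_⟩
  rw [dist_eq_norm, PS.norm_def, map_sub]
  exact (hN n hn).trans_lt (half_lt_self hε)

theorem exists_rho_sm (E : Enum) (F : Finset (ℕ → ℤ)) (hF : ↑F ⊆ range E.e) {δ : ℝ} (hδ : 0 < δ) :
    ∃ r > 0, ∀ x, rho E x < r → Sm F δ x := by
  classical
  induction F using Finset.induction_on with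
  | empty => exact ⟨1, one_pos, fun x _ u hu => by simp at hu⟩
  | insert u F _ ih =>
    rw [Finset.coe_insert, insert_subset_iff] at hF
    obtain ⟨⟨i, rfl⟩, hF⟩ := hF
    obtain ⟨r, hr, h⟩ := ih hF
    refine ⟨min r (min δ (1 / 2 ^ i)), by positivity, fun x hx v hv k => ?_⟩
    rw [lt_min_iff, lt_min_iff] at hx
    rcases Finset.mem_insert.1 hv with rfl | hv
    · rcases min_le_iff.1 (le_rho E x i k) with h' | h' <;> linarith [hx.2.1, hx.2.2]
    · exact h x hx.1 v hv k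

theorem exists_sm_rho (E : Enum) {r : ℝ} (hr : 0 < r) :
    ∃ F : Finset (ℕ → ℤ), ↑F ⊆ range E.e ∧ ∀ x, Sm F r x → rho E x ≤ r := by
  classical
  obtain ⟨N, hN⟩ := exists_pow_lt_of_lt_one hr (by norm_num : (1 / 2 : ℝ) < 1)
  refine ⟨(Finset.range N).image E.e, by simp, fun x hx => rho_le _ _ fun i k => ?_⟩
  by_cases hi : i < N
  · exact (min_le_right _ _).trans (hx _ (Finset.mem_image_of_mem _ (Finset.mem_range.2 hi)) k)
  · refine (min_le_left _ _).trans (le_trans ?_ hN.le)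
    rw [one_div_pow]
    exact one_div_le_one_div_of_le (by positivity) (pow_le_pow_right₀ one_le_two (not_lt.1 hi))

/-- Small elements of `s_S` avoiding a countable set. -/
theorem St.exists_avoid (s : St) {χ : ℕ → T} (h1 : ∀ n, χ n ∈ P s.S) (h2 : ∀ n, χ n ≠ 0)
    (h3 : ∀ F : Finset (ℕ → ℤ), ↑F ⊆ s.S → ∀ δ > 0, ∀ᶠ n in atTop, Sm F δ (χ n))
    {B : Set T} (hB : B.Countable) (F : Finset (ℕ → ℤ)) (hF : ↑F ⊆ s.S) {δ : ℝ} (hδ : 0 < δ) :
    ∃ η ∈ P s.S, Sm F δ η ∧ η ∉ B := by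
  obtain ⟨E, hE⟩ := s.exists_enum
  rw [← hE] at h1 h3 hF ⊢
  have ht : Tendsto (fun n => PS.mk (χ n) (h1 n)) atTop (𝓝 (0 : PS E)) := by
    rw [Metric.tendsto_nhds]
    intro ε hε
    obtain ⟨F, hF, h⟩ := exists_sm_rho E (half_pos hε)
    filter_upwards [h3 F hF _ (half_pos hε)] with n hn
    rw [dist_zero_right]
    exact (h _ hn).trans_lt (half_lt_self hε)
  have hd : Dense (⋂ b ∈ PS.val (E := E) ⁻¹' B, ({b}ᶜ : Set (PS E))) := by
    refine dense_biInter_of_isOpen (fun _ _ => isOpen_compl_singleton)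
      (hB.preimage PS.val_injective) fun b _ x => ?_
    by_cases hx : x = b
    · subst hx
      refine mem_closure_of_tendsto (by simpa using ht.const_add x) (.of_forall fun n h => h2 n ?_)
      have := congrArg PS.val (add_eq_left.1 h)
      rwa [map_zero] at this
    · exact subset_closure hx
  obtain ⟨r, hr, h⟩ := exists_rho_sm E F hF hδ
  obtain ⟨η, hη1, hη2⟩ := hd.exists_mem_open Metric.isOpen_ball ⟨0, Metric.mem_ball_self hr⟩
  refine ⟨PS.val η, PS.val_mem η, h _ (by simpa [PS.norm_def] using hη2), fun hb => ?_⟩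
  exact mem_iInter₂.1 hη1 η hb rfl

/-- Baire category in `s_S`. -/
theorem St.baire (s : St) (A : ℕ → Set T) (hA : ∀ n, IsClosed (A n))
    (hc : ∀ x ∈ P s.S, ∃ n, x ∈ A n) : ∃ n, ∃ x₀ ∈ A n, ∃ F : Finset (ℕ → ℤ), ↑F ⊆ s.S ∧
      ∃ δ > 0, ∀ x ∈ P s.S, Sm F δ x → x₀ + x ∈ A n := by
  obtain ⟨E, hE⟩ := s.exists_enum
  rw [← hE] at hc ⊢
  obtain ⟨n, x₀, hx₀⟩ := nonempty_interior_of_iUnion_of_closed
    (f := fun n => PS.val (E := E) ⁻¹' A n) (fun n => (hA n).preimage PS.continuous_val)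
    (eq_univ_of_forall fun x => mem_iUnion.2 (hc _ (PS.val_mem x)))
  obtain ⟨r, hr, hb⟩ := Metric.mem_nhds_iff.1 (mem_interior_iff_mem_nhds.1 hx₀)
  obtain ⟨F, hF, h⟩ := exists_sm_rho E (half_pos hr)
  refine ⟨n, PS.val x₀, (interior_subset hx₀ :), F, hF, _, half_pos hr, fun x hx hs => ?_⟩
  have : x₀ + PS.mk x hx ∈ Metric.ball x₀ r := by
    rw [mem_ball_iff_norm, add_sub_cancel_left]
    exact (h x hs).trans_lt (half_lt_self hr)
  exact hb this

end Pool.Agent.Lib.MP_a74260_al
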