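import Pool.Agent.Lib.MP_a74260_al.Build

/-! Killing a sequence of characters while keeping the dual group equal to `ℤ`. -/

namespace Pool.Agent.Lib.MP_a74260_al

open Filter Topology Set

theorem AddOn.lin {B : AddSubgroup T} {φ : T → T} (h : AddOn B φ) {F : Finset (ℕ → ℤ)}
    {δ : ℝ} (hδ : 0 < δ) (hs : ∀ x ∈ B, Sm F δ x → ‖φ x‖ ≤ 1 / 4) {x : T} (hx : x ∈ B) {t : ℝ}
    (ht : 0 < t) (hm : Sm F t x) : ‖φ x‖ ≤ t / (2 * δ) := by
  by_cases h1 : t ≤ δ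
  · obtain ⟨m, hm1, hm2⟩ := exists_nat_pow_near_of_lt_one (div_pos ht hδ)
      ((div_le_one hδ).2 h1) (by norm_num : (0 : ℝ) < 1 / 2) (by norm_num)
    have e1 := h.modulus le_rfl hs m hx (hm.mono le_rfl (by
      rw [div_le_iff₀ hδ, one_div_pow] at hm2
      rw [div_eq_mul_one_div, mul_comm]; exact hm2)) hδ.le
    rw [pow_succ, one_div_pow] at hm1
    have : t / (2 * δ) = t / δ / 2 := by field_simp
    have e2 : (1 / 4 : ℝ) / 2 ^ m = 1 / 2 ^ m * (1 / 2) / 2 := by field_simp; norm_num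
    rw [this]; linarith
  · have := AddCircle.norm_le_half_period (1 : ℝ) (x := φ x) one_ne_zero
    refine this.trans ?_
    rw [abs_one, div_le_div_iff₀ two_pos (by positivity)]
    linarith

variable {s : St} {χ : ℕ → T} (Y : Sys s χ)

theorem mul_sz {j : ℤ} {k : ℕ} (hj : |(j : ℝ)| ≤ 2 ^ (k + 2)) :
    |(j : ℝ)| * ((1 / 2) ^ k / 2 ^ (k + 2)) ≤ (1 / 2) ^ k :=
  calc _ ≤ 2 ^ (k + 2) * ((1 / 2 : ℝ) ^ k / 2 ^ (k + 2)) := by gcongr
    _ = _ := by field_simp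

theorem Sys.est_sm (I : Finset ℕ) (k₁ : ℕ) (hI : ∀ k ∈ I, k₁ ≤ k) (j : ℕ → ℤ)
    (hj : ∀ k ∈ I, |(j k : ℝ)| ≤ 2 ^ (k + 2)) :
    Sm (Y.F k₁) (2 * (1 / 2) ^ k₁) (∑ k ∈ I, j k • Y.η k) := by
  intro v hv i
  rw [Finset.smul_sum]
  refine (norm_sum_le_of_le _ fun k hk => ?_).trans (sum_geom_le I k₁ hI)
  exact (((Y.hsm k).zsmul (j k)).mono (Y.mono (hI k hk)) (mul_sz (hj k hk))) v hv i

theorem Sys.est_u (I : Finset ℕ) (k₁ : ℕ) (hI : ∀ k ∈ I, k₁ ≤ k) (j : ℕ → ℤ)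
    (hj : ∀ k ∈ I, |(j k : ℝ)| ≤ 2 ^ (k + 2)) (m : ℕ) :
    ‖Y.u m • ∑ k ∈ I, j k • Y.η k - (if m ∈ I then ((j m * Y.r m : ℝ) : T) else 0)‖ ≤
      2 * (1 / 2) ^ k₁ := by
  have h1 : Y.u m • ∑ k ∈ I, j k • Y.η k - (if m ∈ I then ((j m * Y.r m : ℝ) : T) else 0) =
      ∑ k ∈ I.erase m, j k • Y.u m • Y.η k := by
    rw [Finset.smul_sum]
    simp_rw [smul_comm (Y.u m)]
    split_ifs with h
    · rw [← Finset.add_sum_erase _ _ h, ← Y.hr, ← AddCircle.coe_zsmul, zsmul_eq_mul]; abel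
    · rw [Finset.erase_eq_of_notMem h, sub_zero]
  rw [h1]
  refine (norm_sum_le_of_le _ fun k hk => ?_).trans
    (sum_geom_le _ k₁ fun k hk => hI k (Finset.mem_of_mem_erase hk))
  refine (norm_zsmul_le _ _).trans (le_trans ?_ (mul_sz (hj k (Finset.mem_of_mem_erase hk))))
  exact mul_le_mul_of_nonneg_left (Y.cross k m (Finset.ne_of_mem_erase hk).symm) (norm_nonneg _)

theorem Sys.exists_round (k : ℕ) {t : ℝ} (ht : |t| ≤ 1) :
    ∃ j : ℤ, |(j : ℝ)| ≤ 2 ^ (k + 2) ∧ |t - j * Y.r k| ≤ (1 / 2) ^ k / 2 := by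
  have h1 := Y.r1 k
  have h2 := Y.r2 k
  have h0 : 0 < Y.r k := lt_of_lt_of_le (by positivity) h1
  have h3 := abs_sub_round (t / Y.r k)
  have h4 : |t / Y.r k| ≤ 2 ^ (k + 1) := by
    rw [abs_div, abs_of_pos h0, div_le_iff₀ h0]
    calc _ ≤ 1 := ht
      _ = 2 ^ (k + 1) * ((1 / 2) ^ k / 2) := by rw [one_div_pow]; field_simp; ring
      _ ≤ _ := by gcongr
  refine ⟨round (t / Y.r k), ?_, ?_⟩
  · have h5 := abs_sub_abs_le_abs_sub (round (t / Y.r k) : ℝ) (t / Y.r k)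
    rw [abs_sub_comm] at h5
    have h6 : (1 : ℝ) ≤ 2 ^ (k + 1) := one_le_pow₀ one_le_two
    rw [pow_succ _ (k + 1)]; linarith
  · have : t - round (t / Y.r k) * Y.r k = (t / Y.r k - round (t / Y.r k)) * Y.r k := by
      field_simp
    rw [this, abs_mul, abs_of_pos h0]
    nlinarith [abs_nonneg (t / Y.r k - round (t / Y.r k))]

/-- Correction of a `u`-null element by the test elements. -/
theorem Sys.corr {y : T} (hy : Tendsto (fun k => Y.u k • y) atTop (𝓝 0)) (k₁ : ℕ) {δ : ℝ}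
    (hδ : 0 < δ) (hy' : ∀ m < k₁, ‖Y.u m • y‖ ≤ δ) : ∃ (I : Finset ℕ) (j : ℕ → ℤ),
      (∀ k ∈ I, k₁ ≤ k) ∧ (∀ k, |(j k : ℝ)| ≤ 2 ^ (k + 2)) ∧
      ∀ m, ‖Y.u m • (y - ∑ k ∈ I, j k • Y.η k)‖ ≤ δ + 3 * (1 / 2) ^ k₁ := by
  obtain ⟨N, hN⟩ := eventually_atTop.1 (hy.norm.eventually (ge_mem_nhds (by simpa using hδ)))
  choose t ht ht1 ht2 using fun k => exists_rep (Y.u k • y)
  choose j hj hj' using fun k => Y.exists_round k ((ht2 k).trans (by norm_num))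
  have hI : ∀ k ∈ Finset.Ico k₁ N, k₁ ≤ k := fun k hk => (Finset.mem_Ico.1 hk).1
  refine ⟨Finset.Ico k₁ N, j, hI, hj, fun m => ?_⟩
  have h1 := Y.est_u _ k₁ hI j (fun k _ => hj k) m
  have h0 : (0 : ℝ) < (1 / 2) ^ k₁ := by positivity
  rw [smul_sub]
  split_ifs at h1 with h
  · have h2 : ‖Y.u m • y - ((j m * Y.r m : ℝ) : T)‖ ≤ (1 / 2) ^ k₁ := by
      rw [← ht, ← AddCircle.coe_sub]
      refine (norm_coe_le _).trans ((hj' m).trans ((half_le_self (by positivity)).trans ?_))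
      exact pow_le_pow_of_le_one (by norm_num) (by norm_num) (hI m h)
    have h3 := norm_sub_le (Y.u m • y - ((j m * Y.r m : ℝ) : T))
      (Y.u m • ∑ k ∈ Finset.Ico k₁ N, j k • Y.η k - ((j m * Y.r m : ℝ) : T))
    rw [sub_sub_sub_cancel_right] at h3
    linarith
  · rw [sub_zero] at h1
    have h2 : ‖Y.u m • y‖ ≤ δ := by
      rw [Finset.mem_Ico, not_and_or, not_le, not_lt] at h
      exact h.elim (hy' m) (hN m)
    linarith [norm_sub_le (Y.u m • y) (Y.u m • ∑ k ∈ Finset.Ico k₁ N, j k • Y.η k)]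

open Classical in
theorem Sys.sm_of {F' : Finset (ℕ → ℤ)} {k : ℕ} (hF : F' ⊆ insert Y.u (Y.F k)) {t : ℝ} {x : T}
    (h1 : Sm (Y.F k) t x) (h2 : ∀ m, ‖Y.u m • x‖ ≤ t) : Sm F' t x := fun v hv i => by
  rcases Finset.mem_insert.1 (hF hv) with rfl | hv
  · exact h2 i
  · exact h1 v hv i

open Classical in
theorem Sys.exists_level {F' : Finset (ℕ → ℤ)} (hF : ↑F' ⊆ insert Y.u s.S) {c : ℝ} (hc : 0 < c) :
    ∃ k₀, ∀ k ≥ k₀, F' ⊆ insert Y.u (Y.F k) ∧ (1 / 2) ^ k ≤ c := by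
  obtain ⟨k, hk⟩ := Y.exh (F'.erase Y.u) fun v hv => by
    rw [Finset.coe_erase] at hv
    exact (hF hv.1).resolve_left hv.2
  obtain ⟨N, hN⟩ := exists_pow_lt_of_lt_one hc (by norm_num : (1 / 2 : ℝ) < 1)
  refine ⟨max k N, fun l hl => ⟨fun v hv => ?_, le_trans ?_ hN.le⟩⟩
  · by_cases h : v = Y.u
    · simp [h]
    · exact Finset.mem_insert_of_mem (Y.mono ((le_max_left _ _).trans hl)
        (hk (Finset.mem_erase.2 ⟨h, hv⟩)))
  · exact pow_le_pow_of_le_one (by norm_num) (by norm_num) ((le_max_right _ _).trans hl)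

theorem Sys.small_of_norm (k₁ : ℕ) {δ : ℝ} (hδ : 0 < δ) :
    ∃ c > 0, c ≤ δ ∧ ∀ y : T, ‖y‖ ≤ c → ∀ m < k₁, ‖Y.u m • y‖ ≤ δ := by
  have hM : 0 < 1 + ∑ m ∈ Finset.range k₁, |(Y.u m : ℝ)| := by positivity
  refine ⟨_, div_pos hδ hM, div_le_self hδ.le (le_add_of_nonneg_right (by positivity)),
    fun y hy m hm => (norm_zsmul_le _ _).trans ?_⟩
  refine (mul_le_mul_of_nonneg_left hy (norm_nonneg _)).trans ?_
  rw [mul_div_assoc', div_le_iff₀ hM, mul_comm]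
  gcongr
  exact (Finset.single_le_sum (f := fun m => |(Y.u m : ℝ)|) (fun _ _ => abs_nonneg _)
    (Finset.mem_range.2 hm)).trans (le_add_of_nonneg_left zero_le_one)

/-- A continuous character is small on all test elements of high level. -/
theorem Sys.test_small {B : AddSubgroup T} (hB : ∀ k, Y.η k ∈ B) {φ : T → T} (hφ : AddOn B φ)
    {F' : Finset (ℕ → ℤ)} (hF : ↑F' ⊆ insert Y.u s.S) {δ : ℝ} (hδ : 0 < δ) (hδ1 : δ ≤ 1)
    (hs : ∀ x ∈ B, Sm F' δ x → ‖φ x‖ ≤ 1 / 4) :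
    ∃ k₀, ∀ k ≥ k₀, ∀ j : ℤ, |(j : ℝ)| ≤ 2 ^ (k + 2) → ‖φ (j • Y.η k)‖ ≤ 8 / δ * (1 / 2) ^ k := by
  obtain ⟨k₀, hk₀⟩ := Y.exists_level hF (c := δ / 4) (by positivity)
  choose w hw hw1 hw2 using fun k => exists_rep (φ (Y.η k))
  have hpos : ∀ k, (0 : ℝ) < (1 / 2) ^ k := fun k => by positivity
  have hinv : ∀ k, (1 / 2 : ℝ) ^ k * 2 ^ k = 1 := fun k => by rw [← mul_pow]; simp
  have star : ∀ k ≥ k₀, ∀ j : ℤ, |(j : ℝ)| ≤ 2 ^ (k + 2) →
      ‖((j * w k : ℝ) : T)‖ ≤ ((1 / 2) ^ k + ‖((j * Y.r k : ℝ) : T)‖) / (2 * δ) := by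
    intro k hk j hj
    rw [← zsmul_eq_mul (w k) j, AddCircle.coe_zsmul, hw, ← hφ.zsmul (hB k)]
    refine hφ.lin hδ hs (B.zsmul_mem (hB k) _) (by positivity) (Y.sm_of (hk₀ k hk).1
      (((Y.hsm k).zsmul j).mono le_rfl ((mul_sz hj).trans (by simp))) fun m => ?_)
    rw [smul_comm]
    by_cases hm : m = k
    · rw [hm, ← Y.hr, ← AddCircle.coe_zsmul, zsmul_eq_mul]; linarith [hpos k]
    · refine (norm_zsmul_le _ _).trans (le_trans ?_ ((mul_sz hj).trans (by simp)))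
      exact mul_le_mul_of_nonneg_left (Y.cross k m hm) (norm_nonneg _)
  have hwle : ∀ k ≥ k₀, |w k| ≤ (1 / 2) ^ k / δ := by
    intro k hk
    have h1 := star k hk 1 (by simpa using one_le_pow₀ one_le_two)
    have h2 := norm_coe_le (Y.r k)
    rw [abs_of_pos (lt_of_lt_of_le (half_pos (hpos k)) (Y.r1 k))] at h2
    simp only [Int.cast_one, one_mul, hw] at h1
    rw [hw1]
    refine h1.trans ?_
    rw [div_le_div_iff₀ (by positivity) hδ]
    nlinarith [Y.r2 k]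
  have dich : ∀ k ≥ k₀, |w k| ≤ 2 / δ * ((1 / 2) ^ k * (1 / 2) ^ k) ∨ (1 / 2) ^ k / 8 ≤ |w k| := by
    intro k hk
    obtain ⟨j, hj, hj'⟩ := Y.exists_round k (t := 1) (by simp)
    have h1 := star k hk j hj
    have h2 : ‖((j * Y.r k : ℝ) : T)‖ ≤ (1 / 2) ^ k / 2 := by
      have : ((j * Y.r k : ℝ) : T) = -((1 - j * Y.r k : ℝ) : T) := by
        rw [AddCircle.coe_sub, neg_sub]
        have := coe_int 1
        rw [Int.cast_one] at this
        rw [this, sub_zero]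
      rw [this, norm_neg]; exact (norm_coe_le _).trans hj'
    have h3 : ‖((j * w k : ℝ) : T)‖ ≤ (1 / 2) ^ k / δ := by
      refine h1.trans ?_
      rw [div_le_div_iff₀ (by positivity) hδ]
      nlinarith [hpos k]
    have hle : (1 / 2 : ℝ) ^ k ≤ 1 := pow_le_one₀ (by norm_num) (by norm_num)
    have hj2 : 1 / 2 ≤ |(j : ℝ)| * (1 / 2) ^ k := by
      have h4 := (abs_le.1 hj').2
      have h5 : (j : ℝ) * Y.r k ≤ |(j : ℝ)| * (1 / 2) ^ k :=
        mul_le_mul (le_abs_self _) (Y.r2 k) ((half_pos (hpos k)).le.trans (Y.r1 k)) (abs_nonneg _)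
      linarith
    by_cases h : |j * w k| ≤ 1 / 2
    · left
      rw [norm_coe_of_le h, abs_mul, le_div_iff₀ hδ] at h3
      rw [div_mul_eq_mul_div, le_div_iff₀ hδ]
      nlinarith [mul_nonneg (abs_nonneg (w k)) hδ.le, hpos k]
    · right
      rw [abs_mul, not_le] at h
      have h6 : |(j : ℝ)| * |w k| ≤ 2 ^ (k + 2) * |w k| := by gcongr
      have h7 := hinv k
      rw [pow_add] at h6
      nlinarith [hpos k]
  have hfin : ∃ k₂, ∀ k ≥ k₂, ¬(1 / 2) ^ k / 8 ≤ |w k| := by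
    by_contra hcon
    push Not at hcon
    have hinf : {k | k₀ ≤ k ∧ (1 / 2) ^ k / 8 ≤ |w k|}.Infinite := by
      refine infinite_of_forall_exists_gt fun a => ?_
      obtain ⟨k, hk, h⟩ := hcon (max k₀ (a + 1))
      exact ⟨k, ⟨(le_max_left _ _).trans hk, h⟩, (le_max_right _ _).trans hk⟩
    obtain ⟨I₀, hI₀, hcard⟩ := hinf.exists_subset_card_eq (⌈16 / δ⌉₊ + 1)
    let j : ℕ → ℤ := fun k => (if 0 ≤ w k then 1 else -1) * ⌊δ / 4 * 2 ^ k⌋
    have hfl : ∀ k ≥ k₀, δ / 8 * 2 ^ k ≤ (⌊δ / 4 * 2 ^ k⌋ : ℝ) ∧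
        (⌊δ / 4 * 2 ^ k⌋ : ℝ) ≤ δ / 4 * 2 ^ k := by
      intro k hk
      have h1 : 1 ≤ δ / 4 * 2 ^ k := by
        rw [← hinv k]; gcongr; exact (hk₀ k hk).2
      have h2 : (1 : ℝ) ≤ ⌊δ / 4 * 2 ^ k⌋ := by exact_mod_cast Int.le_floor.2 (by simpa using h1)
      exact ⟨by linarith [Int.lt_floor_add_one (δ / 4 * 2 ^ k)], Int.floor_le _⟩
    have habs : ∀ k ≥ k₀, |(j k : ℝ)| = ⌊δ / 4 * 2 ^ k⌋ := by
      intro k hk
      have : (0 : ℝ) ≤ ⌊δ / 4 * 2 ^ k⌋ := le_trans (by positivity) (hfl k hk).1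
      simp only [j]; split_ifs <;> simp [abs_of_nonneg this]
    have hjw : ∀ k, j k * w k = ⌊δ / 4 * 2 ^ k⌋ * |w k| := by
      intro k
      simp only [j]; split_ifs with h
      · simp [abs_of_nonneg h]
      · simp [abs_of_neg (not_le.1 h)]
    obtain ⟨I, hI, h1, h2⟩ := exists_subset_sum (fun k => j k * w k) I₀ (fun k hk => by
      have hk := (hI₀ hk).1
      rw [hjw]
      calc _ ≤ δ / 4 * 2 ^ k * ((1 / 2) ^ k / δ) := by
            gcongr
            exacts [(hfl k hk).2, hwle k hk]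
        _ = 1 / 4 * ((1 / 2) ^ k * 2 ^ k) := by field_simp
        _ = _ := by rw [hinv, mul_one]) (by
      have h3 : ∀ k ∈ I₀, δ / 64 ≤ j k * w k := fun k hk => by
        rw [hjw]
        calc δ / 64 = δ / 64 * ((1 / 2) ^ k * 2 ^ k) := by rw [hinv, mul_one]
          _ = δ / 8 * 2 ^ k * ((1 / 2) ^ k / 8) := by ring
          _ ≤ _ := by
            have := (hfl k (hI₀ hk).1).1
            gcongr
            exact (hI₀ hk).2
      refine lt_of_lt_of_le ?_ (Finset.card_nsmul_le_sum _ _ _ h3)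
      rw [hcard, nsmul_eq_mul]
      have h4 := Nat.le_ceil (16 / δ)
      rw [div_le_iff₀ hδ] at h4
      push_cast; nlinarith)
    have hk : ∀ k ∈ I, k₀ ≤ k := fun k hk => (hI₀ (hI hk)).1
    have hj : ∀ k ∈ I, |(j k : ℝ)| ≤ 2 ^ (k + 2) := fun k hk' => by
      rw [habs k (hk k hk'), pow_add]
      have : (0 : ℝ) < 2 ^ k := by positivity
      nlinarith [(hfl k (hk k hk')).2]
    have h3 := hs (∑ k ∈ I, j k • Y.η k) (B.sum_mem fun k _ => B.zsmul_mem (hB k) _)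
      (Y.sm_of (hk₀ k₀ le_rfl).1 ((Y.est_sm I k₀ hk j hj).mono le_rfl
        (by linarith [(hk₀ k₀ le_rfl).2])) fun m => by
        have h4 := Y.est_u I k₀ hk j hj m
        have h5 : ‖(if m ∈ I then ((j m * Y.r m : ℝ) : T) else 0)‖ ≤ δ / 4 := by
          split_ifs with h
          · refine (norm_coe_le _).trans ?_
            rw [abs_mul, habs m (hk m h), abs_of_pos ((half_pos (hpos m)).trans_le (Y.r1 m))]
            calc _ ≤ δ / 4 * 2 ^ m * (1 / 2) ^ m := by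
                  gcongr
                  exacts [(half_pos (hpos m)).le.trans (Y.r1 m), (hfl m (hk m h)).2, Y.r2 m]
              _ = _ := by rw [mul_assoc, mul_comm (2 ^ m), hinv, mul_one]
          · rw [norm_zero]; positivity
        linarith [norm_le_norm_sub_add (Y.u m • ∑ k ∈ I, j k • Y.η k)
          (if m ∈ I then ((j m * Y.r m : ℝ) : T) else 0), (hk₀ k₀ le_rfl).2])
    have h6 : φ (∑ k ∈ I, j k • Y.η k) = ((∑ k ∈ I, j k * w k : ℝ) : T) := by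
      rw [hφ.sum I fun k => B.zsmul_mem (hB k) _, QuotientAddGroup.mk_sum]
      refine Finset.sum_congr rfl fun k _ => ?_
      rw [hφ.zsmul (hB k), ← hw, ← AddCircle.coe_zsmul, zsmul_eq_mul]
    rw [h6, norm_coe_of_le (by rw [abs_of_pos (by linarith)]; exact h2),
      abs_of_pos (by linarith)] at h3
    linarith
  obtain ⟨k₂, hk₂⟩ := hfin
  refine ⟨max k₀ k₂, fun k hk j hj => ?_⟩
  have h1 := (dich k ((le_max_left _ _).trans hk)).resolve_right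
    (hk₂ k ((le_max_right _ _).trans hk))
  rw [hφ.zsmul (hB k), ← hw, ← AddCircle.coe_zsmul, zsmul_eq_mul]
  refine (norm_coe_le _).trans ?_
  rw [abs_mul]
  calc _ ≤ 2 ^ (k + 2) * (2 / δ * ((1 / 2) ^ k * (1 / 2) ^ k)) := by gcongr
    _ = 8 / δ * (1 / 2) ^ k * ((1 / 2) ^ k * 2 ^ k) := by ring
    _ = _ := by rw [hinv, mul_one]

/-- The new approximation. -/
noncomputable def Sys.next : St where
  H := AddSubgroup.closure (s.H ∪ range Y.η)
  S := insert Y.u s.S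
  hH := countable_closure (s.hH.union (countable_range _))
  hS := s.hS.insert _
  one := Or.inr s.one
  null := by
    rw [AddSubgroup.closure_le]
    rintro x (hx | ⟨l, rfl⟩) v (rfl | hv)
    exacts [Y.nullH x hx, s.null hx v hv, Y.nullη l, Y.hP l v hv]
  dense := by
    intro x hx F' hF δ hδ
    obtain ⟨k₁, hk₁⟩ := Y.exists_level hF (c := δ / 6) (by positivity)
    obtain ⟨hk, hk'⟩ := hk₁ k₁ le_rfl
    obtain ⟨c, hc, hc', hcs⟩ := Y.small_of_norm k₁ (half_pos hδ)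
    obtain ⟨h, hh, hsm⟩ := s.dense x (P_anti (subset_insert _ _) hx) _ (Y.hF k₁) c hc
    obtain ⟨I, j, hI, hj, hcorr⟩ := Y.corr (y := x - h)
      (by simpa [smul_sub] using (hx _ (mem_insert _ _)).sub (Y.nullH h hh)) k₁ (half_pos hδ)
      (hcs _ (hsm.norm_le (Y.one k₁)))
    have hB : ∀ k, Y.η k ∈ AddSubgroup.closure (s.H ∪ range Y.η) := fun k =>
      AddSubgroup.subset_closure (Or.inr ⟨k, rfl⟩)
    refine ⟨h + ∑ k ∈ I, j k • Y.η k, AddSubgroup.add_mem _ (AddSubgroup.subset_closure (Or.inl hh))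
      (AddSubgroup.sum_mem _ fun k _ => AddSubgroup.zsmul_mem _ (hB k) _), ?_⟩
    rw [← sub_sub]
    refine Y.sm_of hk ?_ fun m => (hcorr m).trans (by linarith)
    rw [sub_eq_add_neg]
    exact (hsm.add (Y.est_sm I k₁ hI j fun k _ => hj k).neg).mono le_rfl (by linarith)
  dual := by
    intro φ hφ F' hF δ' hδ' hs'
    set B := AddSubgroup.closure (s.H ∪ range Y.η)
    have hB : ∀ k, Y.η k ∈ B := fun k => AddSubgroup.subset_closure (Or.inr ⟨k, rfl⟩)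
    have hB1 : B ≤ P (insert Y.u s.S) := by
      rw [AddSubgroup.closure_le]
      rintro x (hx | ⟨l, rfl⟩) v (rfl | hv)
      exacts [Y.nullH x hx, s.null hx v hv, Y.nullη l, Y.hP l v hv]
    obtain ⟨δ, hδ, hδ1, hs⟩ : ∃ δ > 0, δ ≤ 1 ∧ ∀ x ∈ B, Sm F' δ x → ‖φ x‖ ≤ 1 / 4 :=
      ⟨min δ' 1, by positivity, min_le_right _ _, fun x hx h =>
        hs' x hx (h.mono le_rfl (min_le_left _ _))⟩
    obtain ⟨k₂, hk₂⟩ := Y.test_small hB hφ hF hδ hδ1 hs
    obtain ⟨k₀, hk₀⟩ := Y.exists_level hF (c := δ / 128) (by positivity)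
    obtain ⟨hk, hk'⟩ := hk₀ (max k₀ k₂) (le_max_left _ _)
    obtain ⟨c, hc, hc', hcs⟩ := Y.small_of_norm (max k₀ k₂) (δ := δ / 8) (by positivity)
    refine s.dual_between (fun x hx => AddSubgroup.subset_closure (Or.inl hx))
      (hB1.trans (P_anti (subset_insert _ _))) hφ (Y.hF (max k₀ k₂)) hc fun y hy hsm => ?_
    obtain ⟨I, j, hI, hj, hcorr⟩ := Y.corr (hB1 hy _ (mem_insert _ _)) (max k₀ k₂)
      (δ := δ / 8) (by positivity) (hcs _ (hsm.norm_le (Y.one _)))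
    have hw : ∑ k ∈ I, j k • Y.η k ∈ B := B.sum_mem fun k _ => B.zsmul_mem (hB k) _
    have h1 := hφ.lin hδ hs (B.sub_mem hy hw) (t := δ / 4) (by positivity)
      (Y.sm_of hk (by
        rw [sub_eq_add_neg]
        exact (hsm.add (Y.est_sm I _ hI j fun k _ => hj k).neg).mono le_rfl (by linarith))
        fun m => (hcorr m).trans (by linarith))
    have h2 : ‖φ (∑ k ∈ I, j k • Y.η k)‖ ≤ 1 / 8 := by
      rw [hφ.sum I fun k => B.zsmul_mem (hB k) _]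
      refine (norm_sum_le_of_le _ fun k hk =>
        hk₂ k ((le_max_right _ _).trans (hI k hk)) _ (hj k)).trans ?_
      rw [← Finset.mul_sum]
      calc _ ≤ 8 / δ * (2 * (δ / 128)) := by
            gcongr
            exact (sum_geom_le I _ hI).trans (by linarith)
        _ = _ := by field_simp; norm_num
    rw [hφ.sub hy hw] at h1
    have h3 : δ / 4 / (2 * δ) = 1 / 8 := by field_simp; norm_num
    linarith [norm_le_norm_sub_add (φ y) (φ (∑ k ∈ I, j k • Y.η k))]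

end Pool.Agent.Lib.MP_a74260_al
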